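import Pool.Agent.Lib_MP_752436_cu.CTurnEdges
import Pool.Agent.Lib_MP_752436_ch.FreeCycles

/-!
Piece V4: the cycles of the components of the double set in the open disc.
-/

open MeasureTheory Metric Set Filter
open scoped ContDiff Topology

namespace Pool.Agent.Lib_MP_752436_cu

open Pool.Agent.Lib_MP_752436_gt Pool.Agent.Lib_MP_752436_tp Pool.Agent.Lib_MP_752436_rb
  Pool.Agent.Lib_MP_752436_ch Pool.Agent.Lib_MP_752436_ts

variable {D : Set (Plane × Plane)} {Q : Set Plane} {κ : Type} [Fintype κ]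
  {c : κ → ℝ → Plane × Plane} {a b : κ → ℝ}

omit [Fintype κ] in
/-- An end of an edge is not an inner point of an edge. -/
private theorem cfree_end (hE : PEdges c a b D Q) {e : κ} {s : ℝ} (hs : s = a e ∨ s = b e) :
    ∀ e', ∀ t ∈ Ioo (a e') (b e'), c e' t ≠ c e s := by
  intro e' t ht heq
  have hs' : s ∈ Icc (a e) (b e) := by
    rcases hs with rfl | rfl
    · exact ⟨le_refl _, (hE.lt e).le⟩
    · exact ⟨(hE.lt e).le, le_refl _⟩
  obtain ⟨h1, h2⟩ := hE.once e' e t ht s hs' heq
  subst h1
  rw [h2] at ht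
  rcases hs with h | h
  · rw [h] at ht
    exact lt_irrefl _ ht.1
  · rw [h] at ht
    exact lt_irrefl _ ht.2

omit [Fintype κ] in
private theorem cfree_mem {C : Set (Plane × Plane)} (hC : C ∈ comps D) {q : Plane × Plane}
    (hq : q ∈ C) : q ∈ D := by
  obtain ⟨p, _, rfl⟩ := hC
  exact connectedComponentIn_subset D p hq

open Classical in
/-- The edges of `C` which start at a pair of `D` correspond to the edges of `C` which end at a
pair of `D` (`out`, `into`, `start`, `stop`), and umbrellas do not contribute. -/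
theorem cisCyc_indicator (hE : CEdges c a b D Q) {C : Set (Plane × Plane)} (hC : C ∈ comps D)
    (hin : ∀ p ∈ C, p.2 ∈ ball (0 : Plane) 1) :
    IsCyc c a b (fun e => if emid c a b e ∈ C then 1 else 0) := by
  have hP := hE.pedges
  have hl : ∀ e, a e ∈ Icc (a e) (b e) := fun e => ⟨le_refl _, (hP.lt e).le⟩
  have hr : ∀ e, b e ∈ Icc (a e) (b e) := fun e => ⟨(hP.lt e).le, le_refl _⟩
  intro ψ
  have h1 : ∀ g : κ → ℝ, ∑ e, (if emid c a b e ∈ C then (1 : ℝ) else 0) * g e =
      ∑ e ∈ Finset.univ.filter (fun e => emid c a b e ∈ C), g e := by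
    intro g
    rw [Finset.sum_filter]
    refine Finset.sum_congr rfl fun e _ => ?_
    rw [ite_mul, one_mul, zero_mul]
  rw [h1]
  unfold bdry
  rw [Finset.sum_sub_distrib, sub_eq_zero]
  have h2 : ∑ e ∈ Finset.univ.filter (fun e => emid c a b e ∈ C),
      (ψ (c e (b e)).1 - ψ (c e (b e)).2) =
      ∑ e ∈ (Finset.univ.filter (fun e => emid c a b e ∈ C)).filter (fun e => c e (b e) ∈ D),
      (ψ (c e (b e)).1 - ψ (c e (b e)).2) := by
    refine (Finset.sum_filter_of_ne fun e _ hne => ?_).symm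
    rcases hP.right e with h | ⟨p, _, h⟩
    · exact h
    · exact absurd (by rw [h]; exact sub_self _) hne
  have h3 : ∑ e ∈ Finset.univ.filter (fun e => emid c a b e ∈ C),
      (ψ (c e (a e)).1 - ψ (c e (a e)).2) =
      ∑ e ∈ (Finset.univ.filter (fun e => emid c a b e ∈ C)).filter (fun e => c e (a e) ∈ D),
      (ψ (c e (a e)).1 - ψ (c e (a e)).2) := by
    refine (Finset.sum_filter_of_ne fun e _ hne => ?_).symm
    rcases hP.left e with h | ⟨p, _, h⟩
    · exact h
    · exact absurd (by rw [h]; exact sub_self _) hne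
  rw [h2, h3]
  have hex : ∀ e ∈ (Finset.univ.filter (fun e => emid c a b e ∈ C)).filter
      (fun e => c e (b e) ∈ D), ∃ e' ∈ (Finset.univ.filter (fun e => emid c a b e ∈ C)).filter
      (fun e => c e (a e) ∈ D), c e' (a e') = c e (b e) := by
    intro e he
    rw [Finset.mem_filter, Finset.mem_filter] at he
    obtain ⟨⟨_, heC⟩, heD⟩ := he
    have h4 : c e (b e) ∈ C := (mem_comp_iff hP hC (hr e) heD).2 heC
    obtain ⟨e', he'⟩ := hP.out _ heD (hin _ h4) (cfree_end hP (Or.inr rfl))
    refine ⟨e', ?_, he'⟩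
    have h5 : c e' (a e') ∈ D := by rw [he']; exact heD
    rw [Finset.mem_filter, Finset.mem_filter]
    refine ⟨⟨Finset.mem_univ _, ?_⟩, h5⟩
    exact (mem_comp_iff hP hC (hl e') h5).1 (by rw [he']; exact h4)
  choose f hf hf' using hex
  refine Finset.sum_bij f hf ?_ ?_ ?_
  · intro e he e1 he1 h
    have h4 := hf' e he
    rw [h, hf' e1 he1] at h4
    exact (hP.stop e1 e ((Finset.mem_filter.1 he1).2) h4).symm
  · intro e he
    have he2 := he
    rw [Finset.mem_filter, Finset.mem_filter] at he2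
    obtain ⟨⟨_, heC⟩, heD⟩ := he2
    have h4 : c e (a e) ∈ C := (mem_comp_iff hP hC (hl e) heD).2 heC
    obtain ⟨e', he'⟩ := hP.into _ heD (hin _ h4) (cfree_end hP (Or.inl rfl))
    have h5 : c e' (b e') ∈ D := by rw [he']; exact heD
    have h6 : e' ∈ (Finset.univ.filter (fun e => emid c a b e ∈ C)).filter
        (fun e => c e (b e) ∈ D) := by
      rw [Finset.mem_filter, Finset.mem_filter]
      exact ⟨⟨Finset.mem_univ _, (mem_comp_iff hP hC (hr e') h5).1 (by rw [he']; exact h4)⟩, h5⟩
    refine ⟨e', h6, ?_⟩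
    have h7 : c (f e' h6) (a (f e' h6)) = c e (a e) := by rw [hf' e' h6, he']
    exact hP.start _ _ (by rw [h7]; exact heD) h7
  · intro e he
    rw [hf' e he]

omit [Fintype κ] in
private theorem cfree_exists (hE : PEdges c a b D Q) {C : Set (Plane × Plane)}
    (hC : C ∈ comps D) : ∃ e, emid c a b e ∈ C := by
  have hC' := hC
  obtain ⟨p, hp, rfl⟩ := hC
  obtain ⟨e, t, ht, h⟩ := hE.cover p hp
  refine ⟨e, (mem_comp_iff hE hC' ht (by rw [h]; exact hp)).1 ?_⟩
  rw [h]
  exact mem_connectedComponentIn hp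

open Classical in
theorem clinearIndependent_indicator (hE : CEdges c a b D Q) {A : Set (Set (Plane × Plane))}
    (hA : A ⊆ comps D) :
    LinearIndependent ℝ (fun C : A => fun e => if emid c a b e ∈ C.1 then (1 : ℝ) else 0) := by
  have hex : ∀ C : A, ∃ e, emid c a b e ∈ C.1 := by
    rintro ⟨C, hC⟩
    exact cfree_exists hE.pedges (hA hC)
  have heq : ∀ C C' : A, ∀ q, q ∈ C.1 → q ∈ C'.1 → C' = C := by
    rintro ⟨C, hC⟩ ⟨C', hC'⟩ q h h'
    obtain ⟨p, hp, rfl⟩ := hA hC
    obtain ⟨p', hp', rfl⟩ := hA hC'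
    apply Subtype.ext
    show connectedComponentIn D p' = connectedComponentIn D p
    rw [connectedComponentIn_eq h, connectedComponentIn_eq h']
  rw [linearIndependent_iff']
  intro s g hg C hC
  obtain ⟨e, he⟩ := hex C
  have h1 := congrFun hg e
  rw [Finset.sum_apply] at h1
  rw [Finset.sum_eq_single C] at h1
  · simpa [he] using h1
  · intro C' _ hne
    have h2 : emid c a b e ∉ C'.1 := fun h => hne (heq C C' _ he h)
    simp [h2]
  · intro h
    exact absurd hC h

/-- There are finitely many components. -/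
theorem finite_comps_cedges (hE : PEdges c a b D Q) : (comps D).Finite := by
  refine (Set.finite_range fun e => connectedComponentIn D (emid c a b e)).subset ?_
  intro C hC
  obtain ⟨e, he⟩ := cfree_exists hE hC
  refine ⟨e, ?_⟩
  obtain ⟨p, _, rfl⟩ := hC
  exact (connectedComponentIn_eq he).symm

end Pool.Agent.Lib_MP_752436_cu
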