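import Pool.Agent.Lib_MP_752436_cu.Defs
import Pool.Agent.Lib_MP_752436_ch.NoBottom

/-!
Piece V1: turning closed double curves upside down, with umbrellas.
-/

open MeasureTheory Metric Set Filter
open scoped ContDiff Topology

namespace Pool.Agent.Lib_MP_752436_cu

open Pool.Agent.Lib_MP_752436_gt Pool.Agent.Lib_MP_752436_tp Pool.Agent.Lib_MP_752436_rb
  Pool.Agent.Lib_MP_752436_ch Pool.Agent.Lib_MP_752436_ts

/-- The pairs of `Φ` may be turned upside down. -/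
structure CTurnable (D : Set (Plane × Plane)) (Q : Set Plane) (Φ : Set (Plane × Plane)) :
    Prop where
  sub : Φ ⊆ D
  compact : IsCompact Φ
  compact' : IsCompact ((D \ Φ) ∪ (fun p => (p, p)) '' Q)
  inside : ∀ p ∈ Φ, p.2 ∈ ball (0 : Plane) 1
  top : ∀ p ∈ Φ, Top D p

variable {D Φ : Set (Plane × Plane)} {Q : Set Plane}

private theorem CTurn_mem {x y : Plane} :
    (x, y) ∈ turn D Φ ↔ ((x, y) ∈ D ∧ (x, y) ∉ Φ) ∨ (y, x) ∈ Φ := Iff.rfl

private theorem CTurn_asymm (hS : CStrict D Q) {x y : Plane} (h : (x, y) ∈ D) : (y, x) ∉ D :=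
  fun h' => hS.irrefl x (hS.trans _ _ _ h h')

/-- In a chain of two pairs of `turn D Φ` the second pair is not turned. -/
theorem cturn_chain (hS : CStrict D Q) (hT : CTurnable D Q Φ) {x y z : Plane}
    (h1 : (x, y) ∈ turn D Φ) (h2 : (y, z) ∈ turn D Φ) :
    (y, z) ∈ D ∧ (y, z) ∉ Φ ∧ (x, z) ∈ D ∧ (x, z) ∉ Φ := by
  rw [CTurn_mem] at h1 h2
  rcases h1 with ⟨h1, h1'⟩ | h1
  · rcases h2 with ⟨h2, h2'⟩ | h2
    · exact ⟨h2, h2', hS.trans _ _ _ h1 h2, fun h => (hT.top _ h y).2 ⟨h1, h2⟩⟩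
    · exfalso
      have hzx : x ≠ z := by
        rintro rfl
        exact h1' h2
      rcases hS.below _ _ _ h1 (hT.sub h2) hzx with h | h
      · exact (hT.top _ h2 x).1 h
      · exact (hT.top _ h2 x).2 ⟨h, h1⟩
  · rcases h2 with ⟨h2, h2'⟩ | h2
    · have hxz : x ≠ z := by
        rintro rfl
        exact h2' h1
      rcases hS.above _ _ _ (hT.sub h1) h2 hxz with h | h
      · exact ⟨h2, h2', h, fun h' => (hT.top _ h' y).1 (hT.sub h1)⟩
      · exact absurd ⟨h2, h⟩ (hT.top _ h1 z).2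
    · exact absurd (hT.sub h2) (hT.top _ h1 z).1

private theorem CTurn_compact (hT : CTurnable D Q Φ) :
    IsCompact (turn D Φ ∪ (fun p => (p, p)) '' Q) := by
  have h3 : turn D Φ ∪ (fun p => (p, p)) '' Q =
      ((D \ Φ) ∪ (fun p => (p, p)) '' Q) ∪ Prod.swap '' Φ := by
    ext p
    constructor
    · rintro ((h | h) | h)
      · exact Or.inl (Or.inl h)
      · exact Or.inr ⟨p.swap, h, Prod.swap_swap p⟩
      · exact Or.inl (Or.inr h)
    · rintro ((h | h) | ⟨q, hq, rfl⟩)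
      · exact Or.inl (Or.inl h)
      · exact Or.inr h
      · exact Or.inl (Or.inr (by rw [Prod.swap_swap]; exact hq))
  rw [h3]
  exact hT.compact'.union (hT.compact.image continuous_swap)

/-- The comparability of two points. -/
private def CTurn_cmp (D : Set (Plane × Plane)) (x y : Plane) : Prop := (x, y) ∈ D ∨ (y, x) ∈ D

private theorem CTurn_cmp_iff (hT : CTurnable D Q Φ) {x y : Plane} :
    CTurn_cmp (turn D Φ) x y ↔ CTurn_cmp D x y := by
  unfold CTurn_cmp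
  rw [CTurn_mem, CTurn_mem]
  constructor
  · rintro ((h | h) | (h | h))
    · exact Or.inl h.1
    · exact Or.inr (hT.sub h)
    · exact Or.inr h.1
    · exact Or.inl (hT.sub h)
  · rintro (h | h)
    · by_cases h' : (x, y) ∈ Φ
      · exact Or.inr (Or.inr h')
      · exact Or.inl (Or.inl ⟨h, h'⟩)
    · by_cases h' : (y, x) ∈ Φ
      · exact Or.inl (Or.inr h')
      · exact Or.inr (Or.inl ⟨h, h'⟩)

private theorem CTurn_cmp_trans (hS : CStrict D Q) {x y z : Plane} (h : CTurn_cmp D x y)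
    (h' : CTurn_cmp D x z) (hyz : y ≠ z) : CTurn_cmp D y z := by
  rcases h with h | h <;> rcases h' with h' | h'
  · exact hS.above _ _ _ h h' hyz
  · exact Or.inr (hS.trans _ _ _ h' h)
  · exact Or.inl (hS.trans _ _ _ h h')
  · exact hS.below _ _ _ h h' hyz

private theorem CTurn_vert (hS : CStrict D Q) {p : Plane × Plane} (hp : p ∈ D) :
    p ∈ vertices D ↔ ∃ z, CTurn_cmp D z p.1 ∧ CTurn_cmp D z p.2 := by
  constructor
  · rintro ⟨_, z, h | h | h⟩
    · exact ⟨z, Or.inr (hS.trans _ _ _ hp h), Or.inr h⟩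
    · exact ⟨z, Or.inl h, Or.inl (hS.trans _ _ _ h hp)⟩
    · exact ⟨z, Or.inr h.1, Or.inl h.2⟩
  · rintro ⟨z, h | h, h' | h'⟩
    · exact ⟨hp, z, Or.inr (Or.inl h)⟩
    · exact ⟨hp, z, Or.inl h'⟩
    · exact ⟨hp, z, Or.inr (Or.inr ⟨h, h'⟩)⟩
    · exact ⟨hp, z, Or.inl h'⟩

theorem cstrict_turn (hS : CStrict D Q) (hT : CTurnable D Q Φ) : CStrict (turn D Φ) Q := by
  refine ⟨CTurn_compact hT, hS.finite, hS.sub, ?_, ?_, ?_, ?_, ?_, ?_, ?_, ?_, ?_⟩
  · rintro ⟨x, y⟩ (h | h)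
    · exact hS.fstMem _ h.1
    · have h' : (y, x) ∈ Φ := h
      have h1 : x ∈ ball (0 : Plane) 1 := hT.inside (y, x) h'
      exact h1
  · rintro ⟨x, y⟩ (h | h)
    · exact hS.sndMem _ h.1
    · have h' : (y, x) ∈ D := hT.sub h
      have h1 : y ∈ ball (0 : Plane) 1 := hS.fstMem (y, x) h'
      exact ball_subset_closedBall h1
  · rintro ⟨x, y⟩ (h | h)
    · exact hS.fstQ _ h.1
    · have h' : (y, x) ∈ D := hT.sub h
      exact hS.sndQ (y, x) h'
  · rintro ⟨x, y⟩ (h | h)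
    · exact hS.sndQ _ h.1
    · have h' : (y, x) ∈ D := hT.sub h
      exact hS.fstQ (y, x) h'
  · rintro x (h | h)
    · exact hS.irrefl x h.1
    · exact hS.irrefl x (hT.sub h)
  · intro x y z h1 h2
    obtain ⟨_, _, h3, h4⟩ := cturn_chain hS hT h1 h2
    exact Or.inl ⟨h3, h4⟩
  · intro x y z w h1 h2 h3
    obtain ⟨a1, _, a2, _⟩ := cturn_chain hS hT h1 h2
    obtain ⟨b1, _, _, _⟩ := cturn_chain hS hT h2 h3
    rcases h1 with h1 | h1
    · exact hS.noFour _ _ _ _ h1.1 a1 b1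
    · exact hS.noFour _ _ _ _ (hT.sub h1) a2 b1
  · intro x y z h1 h2 h
    exact (CTurn_cmp_iff hT).mpr (CTurn_cmp_trans hS ((CTurn_cmp_iff hT).mp (Or.inl h1))
      ((CTurn_cmp_iff hT).mp (Or.inl h2)) h)
  · intro x y z h1 h2 h
    exact (CTurn_cmp_iff hT).mpr (CTurn_cmp_trans hS ((CTurn_cmp_iff hT).mp (Or.inr h1))
      ((CTurn_cmp_iff hT).mp (Or.inr h2)) h)

/-- Turned pairs are not the lower pairs of a triple. -/
theorem ctop_turn_swap (hS : CStrict D Q) (hT : CTurnable D Q Φ) {p : Plane × Plane}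
    (hp : p.swap ∈ Φ) : Top (turn D Φ) p := by
  intro z
  have hp2 : (p.1, p.2) ∈ turn D Φ := Or.inr hp
  have hp3 : (p.1, p.2) ∉ D := CTurn_asymm hS (hT.sub hp)
  refine ⟨fun h => hp3 (cturn_chain hS hT h hp2).1, fun h => ?_⟩
  exact hp3 (cturn_chain hS hT h.1 h.2).2.2.1

/-- `Top` does not change at the other pairs. -/
theorem ctop_turn (hS : CStrict D Q) (hT : CTurnable D Q Φ) {p : Plane × Plane} (hp : p ∈ D)
    (hp' : p ∉ Φ) : Top (turn D Φ) p ↔ Top D p := by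
  have hp2 : (p.1, p.2) ∈ turn D Φ := Or.inl ⟨hp, hp'⟩
  have hpD : (p.1, p.2) ∈ D := hp
  constructor
  · intro h z
    constructor
    · intro hz
      by_cases hz' : (z, p.1) ∈ Φ
      · refine (h z).2 ⟨Or.inr hz', Or.inl ⟨hS.trans _ _ _ hz hpD, fun h' => ?_⟩⟩
        exact (hT.top _ h' p.1).2 ⟨hz, hpD⟩
      · exact (h z).1 (Or.inl ⟨hz, hz'⟩)
    · rintro ⟨h1, h2⟩
      have h3 : (z, p.2) ∉ Φ := fun h' => (hT.top _ h' p.1).1 h1
      by_cases h4 : (p.1, z) ∈ Φ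
      · exact (h z).1 (Or.inr h4)
      · exact (h z).2 ⟨Or.inl ⟨h1, h4⟩, Or.inl ⟨h2, h3⟩⟩
  · intro h z
    constructor
    · intro hz
      obtain ⟨_, _, h3, _⟩ := cturn_chain hS hT hz hp2
      rcases hz with hz | hz
      · exact (h z).1 hz.1
      · exact (h z).2 ⟨hT.sub hz, h3⟩
    · rintro ⟨h1, h2⟩
      obtain ⟨h3, _, _, _⟩ := cturn_chain hS hT h1 h2
      rcases h1 with h1 | h1
      · exact (h z).2 ⟨h1.1, h3⟩
      · exact (h z).1 (hT.sub h1)

/-- The vertices correspond. -/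
theorem cvertices_turn_swap (hS : CStrict D Q) (hT : CTurnable D Q Φ) {p : Plane × Plane}
    (hp : p.swap ∈ Φ) : p ∈ vertices (turn D Φ) ↔ p.swap ∈ vertices D := by
  rw [CTurn_vert (cstrict_turn hS hT) (Or.inr hp), CTurn_vert hS (hT.sub hp)]
  constructor
  · rintro ⟨z, h1, h2⟩
    exact ⟨z, (CTurn_cmp_iff hT).mp h2, (CTurn_cmp_iff hT).mp h1⟩
  · rintro ⟨z, h1, h2⟩
    exact ⟨z, (CTurn_cmp_iff hT).mpr h2, (CTurn_cmp_iff hT).mpr h1⟩

theorem cvertices_turn (hS : CStrict D Q) (hT : CTurnable D Q Φ) {p : Plane × Plane}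
    (hp : p ∈ D) (hp' : p ∉ Φ) : p ∈ vertices (turn D Φ) ↔ p ∈ vertices D := by
  rw [CTurn_vert (cstrict_turn hS hT) (Or.inl ⟨hp, hp'⟩), CTurn_vert hS hp]
  exact exists_congr fun z => and_congr (CTurn_cmp_iff hT) (CTurn_cmp_iff hT)

end Pool.Agent.Lib_MP_752436_cu
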