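import Pool.Agent.Lib_MP_752436_cu.CTurn
import Pool.Agent.Lib_MP_752436_ch.TurnEdges

/-!
Piece V2: turned edges, with umbrellas.
-/

open MeasureTheory Metric Set Filter
open scoped ContDiff Topology

namespace Pool.Agent.Lib_MP_752436_cu

open Pool.Agent.Lib_MP_752436_gt Pool.Agent.Lib_MP_752436_tp Pool.Agent.Lib_MP_752436_rb
  Pool.Agent.Lib_MP_752436_ch Pool.Agent.Lib_MP_752436_ts

variable {D Φ : Set (Plane × Plane)} {Q : Set Plane} {κ : Type} {c : κ → ℝ → Plane × Plane}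
  {a b : κ → ℝ}

/-- The pair in the middle of an edge. -/
noncomputable def emid (c : κ → ℝ → Plane × Plane) (a b : κ → ℝ) (e : κ) : Plane × Plane :=
  c e ((a e + b e) / 2)

/-- The pairs of `D` on an edge lie in the same component of `D`. -/
theorem mem_comp_iff (hE : PEdges c a b D Q) {C : Set (Plane × Plane)} (hC : C ∈ comps D) {e : κ}
    {t : ℝ} (ht : t ∈ Icc (a e) (b e)) (hD : c e t ∈ D) : c e t ∈ C ↔ emid c a b e ∈ C := by
  obtain ⟨p, hp, rfl⟩ := hC
  have hlt := hE.lt e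
  set m : ℝ := (a e + b e) / 2 with hm
  have hmI : m ∈ Ioo (a e) (b e) := ⟨by rw [hm]; linarith, by rw [hm]; linarith⟩
  have hsub : c e '' uIcc t m ⊆ D := by
    rintro _ ⟨s, hs, rfl⟩
    by_cases hst : s = t
    · rw [hst]
      exact hD
    · refine hE.inner e s ?_
      rcases le_total t m with h | h
      · rw [uIcc_of_le h] at hs
        exact ⟨lt_of_le_of_lt ht.1 (lt_of_le_of_ne hs.1 (Ne.symm hst)), lt_of_le_of_lt hs.2 hmI.2⟩
      · rw [uIcc_of_ge h] at hs
        exact ⟨lt_of_lt_of_le hmI.1 hs.1, lt_of_lt_of_le (lt_of_le_of_ne hs.2 hst) ht.2⟩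
  have hpre : IsPreconnected (c e '' uIcc t m) :=
    isPreconnected_uIcc.image _ (hE.smooth e).continuous.continuousOn
  have h1 : c e t ∈ c e '' uIcc t m := ⟨t, left_mem_uIcc, rfl⟩
  have h2 : c e m ∈ c e '' uIcc t m := ⟨m, right_mem_uIcc, rfl⟩
  have h3 : c e m ∈ connectedComponentIn D (c e t) :=
    hpre.subset_connectedComponentIn h1 hsub h2
  have h4 : connectedComponentIn D (c e t) = connectedComponentIn D (c e m) :=
    connectedComponentIn_eq h3
  have hmD : c e m ∈ D := hE.inner e m hmI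
  constructor
  · intro h
    rw [connectedComponentIn_eq h, h4]
    exact mem_connectedComponentIn hmD
  · intro h
    have h' : c e m ∈ connectedComponentIn D p := h
    rw [connectedComponentIn_eq h', ← h4]
    exact mem_connectedComponentIn hD

/-- The points of an edge are pairs of `D` or umbrellas. -/
private theorem edge_cases (hE : PEdges c a b D Q) {e : κ} {t : ℝ} (ht : t ∈ Icc (a e) (b e)) :
    c e t ∈ D ∨ ∃ p ∈ Q, c e t = (p, p) := by
  rcases eq_or_lt_of_le ht.1 with h | h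
  · rw [← h]
    exact hE.left e
  · rcases eq_or_lt_of_le ht.2 with h' | h'
    · rw [h']
      exact hE.right e
    · exact Or.inl (hE.inner e t ⟨h, h'⟩)

/-- An edge lies in `Φ` or in the complement: the two compact sets `Φ` and
`(D \ Φ) ∪ {(p, p) | p ∈ Q}` are disjoint and cover the edge. -/
theorem mem_turned_iff (hS : CStrict D Q) (hT : CTurnable D Q Φ) (hE : PEdges c a b D Q) {e : κ}
    {s t : ℝ} (hs : s ∈ Icc (a e) (b e)) (ht : t ∈ Icc (a e) (b e)) : c e s ∈ Φ ↔ c e t ∈ Φ := by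
  have hcov : ∀ r ∈ Icc (a e) (b e), c e r ∉ Φ → c e r ∈ (D \ Φ) ∪ (fun p => (p, p)) '' Q := by
    intro r hr h
    rcases edge_cases hE hr with h1 | ⟨p, hp, h1⟩
    · exact Or.inl ⟨h1, h⟩
    · exact Or.inr ⟨p, hp, h1.symm⟩
  have key : ∀ s ∈ Icc (a e) (b e), ∀ t ∈ Icc (a e) (b e), c e s ∈ Φ → c e t ∈ Φ := by
    intro s hs t ht h
    have hc : Continuous (c e) := (hE.smooth e).continuous
    have hpre : IsPreconnected (Icc (a e) (b e)) := isPreconnected_Icc
    by_contra hno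
    have h3 := isPreconnected_closed_iff.1 hpre (c e ⁻¹' Φ)
      (c e ⁻¹' ((D \ Φ) ∪ (fun p => (p, p)) '' Q))
      (hT.compact.isClosed.preimage hc) (hT.compact'.isClosed.preimage hc)
      (fun r hr => by
        by_cases h4 : c e r ∈ Φ
        · exact Or.inl h4
        · exact Or.inr (hcov r hr h4))
      ⟨s, hs, h⟩ ⟨t, ht, hcov t ht hno⟩
    obtain ⟨r, _, hr1, hr2⟩ := h3
    rcases hr2 with hr2 | ⟨p, _, hr2⟩
    · exact hr2.2 hr1
    · refine hS.irrefl p (hT.sub ?_)
      rw [show ((p, p) : Plane × Plane) = c e r from hr2]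
      exact hr1
  exact ⟨key s hs t ht, key t ht s hs⟩

private theorem cturnEdge_pos {e : κ} (h : c e (a e) ∈ Φ) :
    turnEdge Φ c a e = fun t => (c e t).swap := by
  funext t
  simp only [turnEdge, if_pos h]

private theorem cturnEdge_neg {e : κ} (h : c e (a e) ∉ Φ) : turnEdge Φ c a e = c e := by
  funext t
  simp only [turnEdge, if_neg h]

private theorem cnot_swap (hS : CStrict D Q) {p : Plane × Plane} (h1 : p ∈ D) (h2 : p.swap ∈ D) :
    False :=
  hS.irrefl p.1 (hS.trans p.1 p.2 p.1 h1 h2)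

/-- A point of an edge outside `Φ` is not moved. -/
private theorem cturnEdge_out (hS : CStrict D Q) (hT : CTurnable D Q Φ) (hE : PEdges c a b D Q)
    {e : κ} {t : ℝ} (ht : t ∈ Icc (a e) (b e)) (h : c e t ∉ Φ) :
    turnEdge Φ c a e t = c e t := by
  rw [cturnEdge_neg fun h1 => h ((mem_turned_iff hS hT hE (left_mem_Icc.2 (hE.lt e).le) ht).1 h1)]

/-- A point of an edge in `Φ` is swapped. -/
private theorem cturnEdge_in (hS : CStrict D Q) (hT : CTurnable D Q Φ) (hE : PEdges c a b D Q)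
    {e : κ} {t : ℝ} (ht : t ∈ Icc (a e) (b e)) (h : c e t ∈ Φ) :
    turnEdge Φ c a e t = (c e t).swap := by
  rw [cturnEdge_pos ((mem_turned_iff hS hT hE (left_mem_Icc.2 (hE.lt e).le) ht).2 h)]

/-- A swapped pair of `D` is not a point of an edge. -/
private theorem cswap_ne (hS : CStrict D Q) (hE : PEdges c a b D Q) {e : κ} {t : ℝ}
    (ht : t ∈ Icc (a e) (b e)) {p : Plane × Plane} (hp : p ∈ D) : p.swap ≠ c e t := by
  intro h
  rcases edge_cases hE ht with h1 | ⟨q, _, h1⟩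
  · rw [← h] at h1
    exact cnot_swap hS hp h1
  · rw [← h] at h1
    have h2 : p = (q, q) := by
      rw [← Prod.swap_swap p, h1]
      rfl
    rw [h2] at hp
    exact hS.irrefl q hp

/-- Two points of edges which agree after the turning agree before. -/
private theorem cturn_eq (hS : CStrict D Q) (hT : CTurnable D Q Φ) (hE : PEdges c a b D Q)
    {e e' : κ} {t t' : ℝ} (ht : t ∈ Icc (a e) (b e)) (ht' : t' ∈ Icc (a e') (b e'))
    (h : turnEdge Φ c a e t = turnEdge Φ c a e' t') : c e t = c e' t' := by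
  by_cases h1 : c e t ∈ Φ <;> by_cases h2 : c e' t' ∈ Φ
  · rw [cturnEdge_in hS hT hE ht h1, cturnEdge_in hS hT hE ht' h2] at h
    exact Prod.swap_injective h
  · rw [cturnEdge_in hS hT hE ht h1, cturnEdge_out hS hT hE ht' h2] at h
    exact (cswap_ne hS hE ht' (hT.sub h1) h).elim
  · rw [cturnEdge_out hS hT hE ht h1, cturnEdge_in hS hT hE ht' h2] at h
    exact (cswap_ne hS hE ht (hT.sub h2) h.symm).elim
  · rw [cturnEdge_out hS hT hE ht h1, cturnEdge_out hS hT hE ht' h2] at h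
    exact h

/-- A point of an edge whose turned point is a pair is a pair. -/
private theorem cturn_mem (hS : CStrict D Q) (hT : CTurnable D Q Φ) (hE : PEdges c a b D Q)
    {e : κ} {t : ℝ} (ht : t ∈ Icc (a e) (b e)) (h : turnEdge Φ c a e t ∈ turn D Φ) :
    c e t ∈ D := by
  by_cases h1 : c e t ∈ Φ
  · exact hT.sub h1
  · rw [cturnEdge_out hS hT hE ht h1] at h
    rcases h with h | h
    · exact h.1
    · refine (cswap_ne hS hE ht (hT.sub h) ?_).elim
      rw [Prod.swap_swap]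

theorem cedges_turn (hS : CStrict D Q) (hT : CTurnable D Q Φ) (hE : CEdges c a b D Q)
    (hreg : ∀ e, c e (a e) ∈ Φ → ∀ t ∈ Icc (a e) (b e), deriv (fun s => (c e s).2) t ≠ 0) :
    CEdges (turnEdge Φ c a) a b (turn D Φ) Q := by
  have hP := hE.pedges
  have hI : ∀ e, ∀ t ∈ Ioo (a e) (b e), t ∈ Icc (a e) (b e) := fun e t ht => ⟨ht.1.le, ht.2.le⟩
  have ha : ∀ e, a e ∈ Icc (a e) (b e) := fun e => left_mem_Icc.2 (hP.lt e).le
  have hb : ∀ e, b e ∈ Icc (a e) (b e) := fun e => right_mem_Icc.2 (hP.lt e).le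
  -- points not met by the open turned edges
  have hno1 : ∀ p : Plane × Plane, p ∉ Φ →
      (∀ e, ∀ t ∈ Ioo (a e) (b e), turnEdge Φ c a e t ≠ p) →
      ∀ e, ∀ t ∈ Ioo (a e) (b e), c e t ≠ p := by
    intro p hp h e t ht h1
    exact h e t ht ((cturnEdge_out hS hT hP (hI e t ht) (by rwa [h1])).trans h1)
  have hno2 : ∀ p : Plane × Plane, p.swap ∈ Φ →
      (∀ e, ∀ t ∈ Ioo (a e) (b e), turnEdge Φ c a e t ≠ p) →
      ∀ e, ∀ t ∈ Ioo (a e) (b e), c e t ≠ p.swap := by
    intro p hp h e t ht h1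
    refine h e t ht ((cturnEdge_in hS hT hP (hI e t ht) (by rwa [h1])).trans ?_)
    rw [h1, Prod.swap_swap]
  have hend : ∀ e, ∀ t ∈ Icc (a e) (b e), (c e t ∈ D ∨ ∃ p ∈ Q, c e t = (p, p)) →
      turnEdge Φ c a e t ∈ turn D Φ ∨ ∃ p ∈ Q, turnEdge Φ c a e t = (p, p) := by
    intro e t ht h
    by_cases h1 : c e t ∈ Φ
    · rw [cturnEdge_in hS hT hP ht h1]
      exact Or.inl (Or.inr (by rwa [Prod.swap_swap]))
    · rw [cturnEdge_out hS hT hP ht h1]
      rcases h with h | h
      · exact Or.inl (Or.inl ⟨h, h1⟩)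
      · exact Or.inr h
  refine ⟨⟨hP.lt, ?_, ?_, ?_, ?_, ?_, ?_, ?_, ?_, ?_, ?_, ?_⟩, ?_⟩
  · intro e
    by_cases h : c e (a e) ∈ Φ
    · rw [cturnEdge_pos h]
      exact (hP.smooth e).snd.prodMk (hP.smooth e).fst
    · rw [cturnEdge_neg h]
      exact hP.smooth e
  · intro e t ht
    by_cases h : c e (a e) ∈ Φ
    · rw [cturnEdge_pos h]
      exact hreg e h t ht
    · rw [cturnEdge_neg h]
      exact hP.regular e t ht
  · intro e t ht
    by_cases h : c e t ∈ Φ
    · rw [cturnEdge_in hS hT hP (hI e t ht) h]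
      exact Or.inr (by rwa [Prod.swap_swap])
    · rw [cturnEdge_out hS hT hP (hI e t ht) h]
      exact Or.inl ⟨hP.inner e t ht, h⟩
  · intro e
    exact hend e (a e) (ha e) (hP.left e)
  · intro e
    exact hend e (b e) (hb e) (hP.right e)
  · intro e e' t ht t' ht' h
    exact hP.once e e' t ht t' ht' (cturn_eq hS hT hP (hI e t ht) ht' h)
  · rintro p (⟨hp, hp'⟩ | hp)
    · obtain ⟨e, t, ht, h⟩ := hP.cover p hp
      exact ⟨e, t, ht, (cturnEdge_out hS hT hP ht (by rwa [h])).trans h⟩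
    · obtain ⟨e, t, ht, h⟩ := hP.cover p.swap (hT.sub hp)
      refine ⟨e, t, ht, (cturnEdge_in hS hT hP ht (by rwa [h])).trans ?_⟩
      rw [h, Prod.swap_swap]
  · intro e e' h1 h
    exact hP.start e e' (cturn_mem hS hT hP (ha e) h1) (cturn_eq hS hT hP (ha e) (ha e') h)
  · intro e e' h1 h
    exact hP.stop e e' (cturn_mem hS hT hP (hb e) h1) (cturn_eq hS hT hP (hb e) (hb e') h)
  · rintro p (⟨hp, hp'⟩ | hp) hp1 hno
    · obtain ⟨e, h⟩ := hP.out p hp hp1 (hno1 p hp' hno)
      exact ⟨e, (cturnEdge_out hS hT hP (ha e) (by rwa [h])).trans h⟩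
    · obtain ⟨e, h⟩ := hP.out p.swap (hT.sub hp) (hT.inside _ hp) (hno2 p hp hno)
      refine ⟨e, (cturnEdge_in hS hT hP (ha e) (by rwa [h])).trans ?_⟩
      rw [h, Prod.swap_swap]
  · rintro p (⟨hp, hp'⟩ | hp) hp1 hno
    · obtain ⟨e, h⟩ := hP.into p hp hp1 (hno1 p hp' hno)
      exact ⟨e, (cturnEdge_out hS hT hP (hb e) (by rwa [h])).trans h⟩
    · obtain ⟨e, h⟩ := hP.into p.swap (hT.sub hp) (hT.inside _ hp) (hno2 p hp hno)
      refine ⟨e, (cturnEdge_in hS hT hP (hb e) (by rwa [h])).trans ?_⟩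
      rw [h, Prod.swap_swap]
  · intro e t ht
    by_cases h : c e t ∈ Φ
    · rw [cturnEdge_in hS hT hP (hI e t ht) h,
        cvertices_turn_swap hS hT (by rwa [Prod.swap_swap]), Prod.swap_swap]
      exact hE.novertex e t ht
    · rw [cturnEdge_out hS hT hP (hI e t ht) h, cvertices_turn hS hT (hP.inner e t ht) h]
      exact hE.novertex e t ht

/-- The lower curve of an edge without umbrella is regular, too (compare `Edges.regular_snd`). -/
theorem cregular_snd {F : Plane → EuclideanSpace ℝ (Fin 4)} (hF : IsSliceDisc F) (hU : Umb F)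
    {κ : Type} {c : κ → ℝ → Plane × Plane} {a b : κ → ℝ}
    (hE : CEdges c a b (DoubleSet F) (caps F)) {e : κ}
    (he : ∀ t ∈ Icc (a e) (b e), c e t ∈ DoubleSet F) :
    ∀ t ∈ Icc (a e) (b e), deriv (fun s => (c e s).2) t ≠ 0 := by
  intro t ht h0
  have hP := hE.pedges
  have hsh : ContDiff ℝ ∞ (shadow F) := by
    have hcd : ∀ i : Fin 4, ContDiff ℝ ∞ (fun x => F x i) := (contDiff_euclidean.1 hF.smooth)
    refine contDiff_euclidean.2 fun i => ?_
    fin_cases i
    · exact hcd 0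
    · exact hcd 1
    · exact hcd 2
  have hsd : ∀ x, HasFDerivAt (shadow F) (fderiv ℝ (shadow F) x) x := fun x =>
    (hsh.differentiable (by simp) x).hasFDerivAt
  have hc : Differentiable ℝ (c e) := (hP.smooth e).differentiable (by simp)
  have h1 : HasDerivAt (fun s => (c e s).1) (deriv (fun s => (c e s).1) t) t :=
    (hc.fst t).hasDerivAt
  have h2 : HasDerivAt (fun s => (c e s).2) (deriv (fun s => (c e s).2) t) t :=
    (hc.snd t).hasDerivAt
  have h3 : HasDerivWithinAt (fun s => shadow F (c e s).1)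
      (fderiv ℝ (shadow F) (c e t).1 (deriv (fun s => (c e s).1) t)) (Icc (a e) (b e)) t :=
    HasDerivAt.hasDerivWithinAt (HasFDerivAt.comp_hasDerivAt (f := fun s => (c e s).1) t
      (hsd (c e t).1) h1)
  have h4 : HasDerivWithinAt (fun s => shadow F (c e s).2)
      (fderiv ℝ (shadow F) (c e t).2 (deriv (fun s => (c e s).2) t)) (Icc (a e) (b e)) t :=
    HasDerivAt.hasDerivWithinAt (HasFDerivAt.comp_hasDerivAt (f := fun s => (c e s).2) t
      (hsd (c e t).2) h2)
  have h5 : HasDerivWithinAt (fun s => shadow F (c e s).1)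
      (fderiv ℝ (shadow F) (c e t).2 (deriv (fun s => (c e s).2) t)) (Icc (a e) (b e)) t :=
    h4.congr (fun s hs => (he s hs).2.2.1) (he t ht).2.2.1
  have h6 := (uniqueDiffOn_Icc (hP.lt e) t ht).eq_deriv _ h3 h5
  rw [h0, map_zero] at h6
  obtain ⟨h7, h8, h9, h10⟩ := he t ht
  have hne : (c e t).1 ≠ (c e t).2 := by
    intro h
    rw [h] at h10
    exact lt_irrefl _ h10
  exact hU.gen.immersion _ h7 _ h8 hne h9 _ (hP.regular e t ht) h6

end Pool.Agent.Lib_MP_752436_cu
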