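import Pool.Agent.Lib_MP_752436_cu.Defs

/-!
Piece U3: finitely many umbrellas; the double set and its closure.
-/

open MeasureTheory Metric Set Filter
open scoped ContDiff Topology

namespace Pool.Agent.Lib_MP_752436_cu

open Pool.Agent.Lib_MP_752436_gt Pool.Agent.Lib_MP_752436_tp Pool.Agent.Lib_MP_752436_rb
  Pool.Agent.Lib_MP_752436_ch Pool.Agent.Lib_MP_752436_ts

variable {F : Plane → EuclideanSpace ℝ (Fin 4)}

private theorem CapFinite_kernel (hU : Umb F) {p : Plane} (hp : p ∈ caps F) :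
    ∃ k : Plane, ‖k‖ = 1 ∧ fderiv ℝ (shadow F) p k = 0 ∧
      ∀ v, ∃ a b, fderiv ℝ (fun y => fderiv ℝ (shadow F) y k) p a +
        fderiv ℝ (shadow F) p b = v := by
  obtain ⟨hp1, hp2⟩ := hp
  rw [injective_iff_map_eq_zero] at hp2
  push Not at hp2
  obtain ⟨u, hu, hu0⟩ := hp2
  have hn : 0 < ‖u‖ := norm_pos_iff.2 hu0
  have hk0 : fderiv ℝ (shadow F) p (‖u‖⁻¹ • u) = 0 := by rw [map_smul, hu, smul_zero]
  have hk1 : ‖‖u‖⁻¹ • u‖ = 1 := by
    rw [norm_smul, norm_inv, norm_norm, inv_mul_cancel₀ hn.ne']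
  have hne : ‖u‖⁻¹ • u ≠ 0 := by
    intro h0
    rw [h0, norm_zero] at hk1
    exact zero_ne_one hk1
  exact ⟨‖u‖⁻¹ • u, hk1, hk0, hU.gen.branch p hp1 _ hne hk0⟩

private theorem CapFinite_isCompact (hF : IsSliceDisc F) : IsCompact (caps F) := by
  have hinj : IsOpen {x | Function.Injective (fderiv ℝ (shadow F) x)} :=
    (ContinuousLinearMap.isOpen_injective (𝕜 := ℝ) (E := Plane) (F := Space)).preimage
      ((od_contDiff_shadow hF).continuous_fderiv (by simp))
  have h : caps F = closedBall (0 : Plane) 1 ∩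
      {x | Function.Injective (fderiv ℝ (shadow F) x)}ᶜ := rfl
  rw [h]
  exact (isCompact_closedBall (0 : Plane) 1).inter_right hinj.isClosed_compl

/-- The umbrellas are isolated: `(x, w) ↦ df x (u + w J u)` has injective derivative at `(p, 0)`
by `Gen.branch`, and the set of umbrellas is compact. -/
theorem finite_caps (hF : IsSliceDisc F) (hU : Umb F) : (caps F).Finite := by
  by_contra hinf
  have hinf' : (caps F).Infinite := hinf
  obtain ⟨x, hx, hacc⟩ :=
    hinf'.exists_accPt_of_subset_isCompact (CapFinite_isCompact hF) subset_rfl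
  obtain ⟨k, hk, hk0, hW⟩ := CapFinite_kernel hU hx
  obtain ⟨δ, hδ, hiso⟩ :=
    Pool.Agent.Lib_MP_752436_mv.cap_isolated (od_contDiff_shadow hF) hk hk0 hW
  obtain ⟨y, ⟨hy1, hy2⟩, hy3⟩ := accPt_iff_nhds.1 hacc (ball x δ) (ball_mem_nhds x hδ)
  exact hy3 (hiso y hy1 hy2.2)

theorem caps_subset (hU : Umb F) : caps F ⊆ ball (0 : Plane) 1 := by
  intro p hp
  rcases (mem_closedBall.mp hp.1).lt_or_eq with h | h
  · exact mem_ball.mpr h
  · exact absurd (hU.cap p (mem_sphere.mpr h)) hp.2

/-- Limits of pairs of the double set are pairs of the double set or umbrellas. -/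
theorem isCompact_double_caps (hF : IsSliceDisc F) (hU : Umb F) :
    IsCompact (DoubleSet F ∪ (fun p => (p, p)) '' caps F) := by
  have hcomp : IsCompact (closedBall (0 : Plane) 1 ×ˢ closedBall (0 : Plane) 1) :=
    (isCompact_closedBall 0 1).prod (isCompact_closedBall 0 1)
  refine hcomp.of_isClosed_subset ?_ ?_
  · refine isClosed_of_closure_subset fun p hp => ?_
    have hfin : IsClosed ((fun p : Plane => (p, p)) '' caps F) :=
      ((finite_caps hF hU).image _).isClosed
    rw [closure_union, hfin.closure_eq] at hp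
    rcases hp with hp | hp
    · have hsub : closure (DoubleSet F) ⊆ {p : Plane × Plane | p.1 ∈ closedBall (0 : Plane) 1 ∧
          p.2 ∈ closedBall (0 : Plane) 1 ∧ shadow F p.1 = shadow F p.2 ∧ F p.2 3 ≤ F p.1 3} := by
        refine closure_minimal (fun q hq => ⟨hq.1, hq.2.1, hq.2.2.1, hq.2.2.2.le⟩) ?_
        refine IsClosed.inter (isClosed_closedBall.preimage continuous_fst)
          (IsClosed.inter (isClosed_closedBall.preimage continuous_snd)
          (IsClosed.inter (isClosed_eq ((od_continuous_shadow hF).comp continuous_fst)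
            ((od_continuous_shadow hF).comp continuous_snd))
          (isClosed_le ((od_continuous_height hF).comp continuous_snd)
            ((od_continuous_height hF).comp continuous_fst))))
      obtain ⟨h1, h2, h3, h4⟩ := hsub hp
      by_cases h5 : F p.2 3 = F p.1 3
      · have hxy : p.1 = p.2 := od_eq_of_shadow hF h1 h2 h3 h5.symm
        by_cases hcap : Function.Injective (fderiv ℝ (shadow F) p.1)
        · exfalso
          obtain ⟨N, hN, hNinj⟩ := eventually_injOn_of_strict
            (((od_contDiff_shadow hF).contDiffAt (x := p.1)).hasStrictFDerivAt (by simp)) hcap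
          have hO : N ×ˢ N ∈ 𝓝 p := by
            rw [show p = (p.1, p.2) from rfl, ← hxy]
            exact prod_mem_nhds hN hN
          obtain ⟨q, hqO, hqD⟩ := mem_closure_iff_nhds.mp hp _ hO
          have hq : q.1 = q.2 := hNinj hqO.1 hqO.2 hqD.2.2.1
          have := hqD.2.2.2
          rw [hq] at this
          exact lt_irrefl _ this
        · exact Or.inr ⟨p.1, ⟨h1, hcap⟩, Prod.ext rfl hxy⟩
      · exact Or.inl ⟨h1, h2, h3, lt_of_le_of_ne h4 h5⟩
    · exact Or.inr hp
  · rintro p (hp | ⟨q, hq, rfl⟩)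
    · exact ⟨hp.1, hp.2.1⟩
    · exact ⟨hq.1, hq.1⟩

theorem cstrict_doubleSet (hF : IsSliceDisc F) (hU : Umb F) : CStrict (DoubleSet F) (caps F) where
  compact := isCompact_double_caps hF hU
  finite := finite_caps hF hU
  sub := caps_subset hU
  fstMem := fun _ hp => od_fst_mem_ball hF hp
  sndMem := fun _ hp => hp.2.1
  fstQ := fun p hp hq => hq.2 (Gen.inj_fst (z := fun x => F x 3) hU.gen subset_rfl
    (show p ∈ Over (shadow F) (fun x => F x 3) (closedBall (0 : Plane) 1) from hp))
  sndQ := fun p hp hq => hq.2 (Gen.inj_snd (z := fun x => F x 3) hU.gen subset_rfl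
    (show p ∈ Over (shadow F) (fun x => F x 3) (closedBall (0 : Plane) 1) from hp))
  irrefl := fun _ hx => lt_irrefl _ hx.2.2.2
  trans := fun _ _ _ h1 h2 =>
    ⟨h1.1, h2.2.1, h1.2.2.1.trans h2.2.2.1, h2.2.2.2.trans h1.2.2.2⟩
  noFour := fun _ _ _ _ h1 h2 h3 => Gen.noFour (m := shadow F) (z := fun x => F x 3)
    (R := closedBall (0 : Plane) 1) hU.gen subset_rfl h1 h2 h3
  above := fun _ _ _ h1 h2 hne =>
    ve_total hF h1.2.1 h2.2.1 hne (h1.2.2.1.symm.trans h2.2.2.1)
  below := fun _ _ _ h1 h2 hne =>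
    ve_total hF h1.1 h2.1 hne (h1.2.2.1.trans h2.2.2.1.symm)

end Pool.Agent.Lib_MP_752436_cu
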