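import Pool.Agent.Lib_MP_752436_cu.CapCurve
import Pool.Agent.Lib_MP_752436_cu.CapFinite

/-!
Piece U2: arcs of the double set at the umbrellas.
-/

open MeasureTheory Metric Set Filter
open scoped ContDiff Topology

namespace Pool.Agent.Lib_MP_752436_cu

open Pool.Agent.Lib_MP_752436_gt Pool.Agent.Lib_MP_752436_tp Pool.Agent.Lib_MP_752436_rb
  Pool.Agent.Lib_MP_752436_ch Pool.Agent.Lib_MP_752436_ts

variable {F : Plane → EuclideanSpace ℝ (Fin 4)}

private theorem CapArcs_shadow (hF : IsSliceDisc F) : ContDiff ℝ ∞ (shadow F) := by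
  have h : ∀ i, ContDiff ℝ ∞ (fun x => F x i) := fun i => (contDiff_euclidean.1 hF.smooth) i
  unfold shadow
  refine contDiff_euclidean.2 fun i => ?_
  fin_cases i
  · exact h 0
  · exact h 1
  · exact h 2

private theorem CapArcs_fderiv (hF : IsSliceDisc F) (x u : Plane) (i : Fin 4) :
    fderiv ℝ (fun y => F y i) x u = fderiv ℝ F x u i := by
  have hd : DifferentiableAt ℝ F x := (hF.smooth.differentiable (by simp)).differentiableAt
  have := (EuclideanSpace.proj i : EuclideanSpace ℝ (Fin 4) →L[ℝ] ℝ).hasFDerivAt.comp x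
    hd.hasFDerivAt
  have h2 := this.fderiv
  have h3 : (fun y => F y i) = (EuclideanSpace.proj i : EuclideanSpace ℝ (Fin 4) →L[ℝ] ℝ) ∘ F := rfl
  rw [h3, h2]
  rfl

private theorem CapArcs_fderiv_shadow (hF : IsSliceDisc F) (x u : Plane)
    (h : fderiv ℝ (shadow F) x u = 0) :
    fderiv ℝ F x u 0 = 0 ∧ fderiv ℝ F x u 1 = 0 ∧ fderiv ℝ F x u 2 = 0 := by
  have hd : DifferentiableAt ℝ (shadow F) x :=
    ((CapArcs_shadow hF).differentiable (by simp)).differentiableAt
  have k : ∀ i, fderiv ℝ (fun y => shadow F y i) x u = 0 := fun i => by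
    have := (EuclideanSpace.proj i : EuclideanSpace ℝ (Fin 3) →L[ℝ] ℝ).hasFDerivAt.comp x
      hd.hasFDerivAt
    have h2 := this.fderiv
    have h3 : (fun y => shadow F y i) =
      (EuclideanSpace.proj i : EuclideanSpace ℝ (Fin 3) →L[ℝ] ℝ) ∘ shadow F := rfl
    rw [h3, h2]
    have h4 := congrArg (fun v : Space => v i) h
    simpa using h4
  refine ⟨?_, ?_, ?_⟩
  · rw [← CapArcs_fderiv hF]; exact k 0
  · rw [← CapArcs_fderiv hF]; exact k 1
  · rw [← CapArcs_fderiv hF]; exact k 2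

private theorem CapArcs_kernel (hF : IsSliceDisc F) {p : Plane} (hp : p ∈ caps F) :
    ∃ u : Plane, ‖u‖ = 1 ∧ fderiv ℝ (shadow F) p u = 0 ∧ 0 < fderiv ℝ (fun y => F y 3) p u := by
  obtain ⟨hpb, hninj⟩ := hp
  rw [injective_iff_map_eq_zero] at hninj
  push Not at hninj
  obtain ⟨w, hw, hw0⟩ := hninj
  have hne : fderiv ℝ F p w ≠ 0 := fun h => hw0 ((injective_iff_map_eq_zero _).1
    (hF.immersion p hpb) w h)
  have h3 : fderiv ℝ (fun y => F y 3) p w ≠ 0 := by
    intro h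
    rw [CapArcs_fderiv hF] at h
    obtain ⟨h0, h1, h2⟩ := CapArcs_fderiv_shadow hF p w hw
    apply hne
    ext i
    fin_cases i
    · exact h0
    · exact h1
    · exact h2
    · exact h
  have hn : 0 < ‖w‖ := norm_pos_iff.2 hw0
  rcases lt_or_gt_of_ne h3 with h | h
  · refine ⟨(-‖w‖⁻¹) • w, ?_, ?_, ?_⟩
    · rw [norm_smul, norm_neg, norm_inv, norm_norm]
      exact inv_mul_cancel₀ hn.ne'
    · rw [map_smul, hw, smul_zero]
    · rw [map_smul, smul_eq_mul]
      exact mul_pos_of_neg_of_neg (neg_neg_of_pos (inv_pos.2 hn)) h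
  · refine ⟨(‖w‖⁻¹) • w, ?_, ?_, ?_⟩
    · rw [norm_smul, norm_inv, norm_norm]
      exact inv_mul_cancel₀ hn.ne'
    · rw [map_smul, hw, smul_zero]
    · rw [map_smul, smul_eq_mul]
      exact mul_pos (inv_pos.2 hn) h

private theorem CapArcs_sign (hF : IsSliceDisc F) {p u : Plane} {γ : ℝ → Plane}
    (hγ : ContDiff ℝ 1 γ) (h0 : γ 0 = p) (h1 : deriv γ 0 = u)
    (hz : 0 < fderiv ℝ (fun y => F y 3) p u) :
    ∃ η > 0, ∀ t, 0 < t → t < η → F (γ (-t)) 3 < F (γ t) 3 := by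
  have hd : DifferentiableAt ℝ (fun y => F y 3) p := by
    have : ContDiff ℝ ∞ (fun x => F x 3) := (contDiff_euclidean.1 hF.smooth) 3
    exact (this.differentiable (by simp)).differentiableAt
  have hg : HasDerivAt γ u 0 := h1 ▸ (hγ.differentiable (by simp) 0).hasDerivAt
  have e1 : HasDerivAt (fun t => F (γ t) 3) (fderiv ℝ (fun y => F y 3) p u) 0 := by
    have := (h0 ▸ hd.hasFDerivAt : HasFDerivAt (fun y => F y 3) (fderiv ℝ (fun y => F y 3) p) (γ 0))
    exact this.comp_hasDerivAt 0 hg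
  have e2 : HasDerivAt (fun t => F (γ (-t)) 3) (-(fderiv ℝ (fun y => F y 3) p u)) 0 := by
    have e1' : HasDerivAt (fun t => F (γ t) 3) (fderiv ℝ (fun y => F y 3) p u) (-0) := by
      simpa using e1
    have := e1'.scomp (0 : ℝ) (hasDerivAt_neg (0 : ℝ))
    simpa [Function.comp_def] using this
  have e3 : HasDerivAt (fun t => F (γ t) 3 - F (γ (-t)) 3)
      (fderiv ℝ (fun y => F y 3) p u - -(fderiv ℝ (fun y => F y 3) p u)) 0 := e1.sub e2
  have e4 := hasDerivAt_iff_tendsto_slope.1 e3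
  have e5 : ∀ᶠ t in 𝓝[≠] (0 : ℝ), 0 < slope (fun t => F (γ t) 3 - F (γ (-t)) 3) 0 t :=
    e4.eventually (lt_mem_nhds (by linarith))
  rw [eventually_nhdsWithin_iff, Metric.eventually_nhds_iff] at e5
  obtain ⟨η, hη, he⟩ := e5
  refine ⟨η, hη, fun t ht htη => ?_⟩
  have := he (y := t) (by rw [Real.dist_eq, sub_zero, abs_of_pos ht]; exact htη) ht.ne'
  rw [slope_def_field] at this
  simp only [neg_zero, sub_self, sub_zero] at this
  have h2 : 0 < F (γ t) 3 - F (γ (-t)) 3 := by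
    have h3 := mul_pos this ht
    rwa [div_mul_cancel₀ _ ht.ne'] at h3
  linarith

/-- Take the curve of `exists_capCurve` for the unit kernel vector `u` with `dz (u) > 0`
(`z = F · 3`), so that `z (γ t) > z (γ (- t))` for small `t > 0`, and
`O = {q | q.1, q.2 ∈ ball p δ', inner u (q.1 - q.2) < 4 ε}` with `ε` small. -/
theorem exists_capArc (hF : IsSliceDisc F) (hU : Umb F) {p : Plane} (hp : p ∈ caps F) {δ : ℝ}
    (hδ : 0 < δ) : ∃ u ε γ O, CapArc F p u ε γ O ∧ O ⊆ ball p δ ×ˢ ball p δ := by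
  obtain ⟨u, hu, hk, hz⟩ := CapArcs_kernel hF hp
  have hu0 : u ≠ 0 := fun h => by simp [h] at hu
  obtain ⟨ε₀, hε₀, γ, hγ, hγ0, hγ1, hγt, N, hN, hNt⟩ := exists_capCurve (CapArcs_shadow hF) hu hk
    (hU.gen.branch p hp.1 u hu0 hk)
  obtain ⟨η, hη, hsign⟩ := CapArcs_sign hF hγ hγ0 hγ1 hz
  have hpball : p ∈ ball (0 : Plane) 1 := caps_subset hU hp
  -- the radius
  obtain ⟨δ₁, hδ₁, hδ₁N⟩ := Metric.mem_nhds_iff.1 hN
  obtain ⟨δ₂, hδ₂, hδ₂b⟩ := Metric.mem_nhds_iff.1 (isOpen_ball.mem_nhds hpball)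
  set r : ℝ := min (min δ δ₁) (min δ₂ η) with hr
  have hr0 : 0 < r := by simp [hr, hδ, hδ₁, hδ₂, hη]
  have hr1 : r ≤ δ := (min_le_left _ _).trans (min_le_left _ _)
  have hr2 : r ≤ δ₁ := (min_le_left _ _).trans (min_le_right _ _)
  have hr3 : r ≤ δ₂ := (min_le_right _ _).trans (min_le_left _ _)
  have hr4 : r ≤ η := (min_le_right _ _).trans (min_le_right _ _)
  -- small times
  have hc : Continuous γ := hγ.continuous
  have hcd : Continuous (deriv γ) := hγ.continuous_deriv (by simp)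
  have ev : ∀ᶠ t in 𝓝 (0 : ℝ), γ t ∈ ball p r ∧ deriv γ t ≠ 0 := by
    refine Filter.Eventually.and ?_ ?_
    · exact hc.continuousAt.eventually_mem (by rw [hγ0]; exact ball_mem_nhds p hr0)
    · exact hcd.continuousAt.eventually_ne (by rw [hγ1]; exact hu0)
  obtain ⟨τ, hτ, hτt⟩ := Metric.eventually_nhds_iff.1 ev
  set ε : ℝ := min (min ε₀ η) τ / 4 with hε
  have hε0 : 0 < ε := by
    have : 0 < min (min ε₀ η) τ := by simp [hε₀, hη, hτ]
    positivity
  have hm : 4 * ε = min (min ε₀ η) τ := by rw [hε]; ring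
  have h1 : 4 * ε ≤ ε₀ := hm.le.trans ((min_le_left _ _).trans (min_le_left _ _))
  have h2 : 4 * ε ≤ η := hm.le.trans ((min_le_left _ _).trans (min_le_right _ _))
  have h3 : 4 * ε ≤ τ := hm.le.trans (min_le_right _ _)
  have hin : ∀ t ∈ Icc (-(2 * ε)) (2 * ε), γ t ∈ ball p r ∧ deriv γ t ≠ 0 := fun t ht =>
    hτt (by
      rw [Real.dist_eq, sub_zero]
      exact lt_of_le_of_lt (abs_le.2 ⟨ht.1, ht.2⟩) (by linarith))
  have hsub : ball p r ⊆ ball (0 : Plane) 1 := (ball_subset_ball hr3).trans hδ₂b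
  refine ⟨u, ε, γ, {q | q.1 ∈ ball p r ∧ q.2 ∈ ball p r ∧ inner ℝ u (q.1 - q.2) < 4 * ε},
    ⟨hε0, hγ, hγ0, fun t ht => (hin t ht).2, fun t ht => ?_, ?_, ?_, ?_, ?_⟩, ?_⟩
  · exact (hγt t ⟨by linarith [ht.1], by linarith [ht.2]⟩).2
  · have hopen : IsOpen {q : Plane × Plane | inner ℝ u (q.1 - q.2) < 4 * ε} :=
      isOpen_lt (continuous_const.inner (continuous_fst.sub continuous_snd)) continuous_const
    exact (isOpen_ball.preimage continuous_fst).inter
      ((isOpen_ball.preimage continuous_snd).inter hopen)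
  · rintro q ⟨hq1, hq2, -⟩
    exact ⟨hsub hq1, hsub hq2⟩
  · refine ⟨mem_ball_self hr0, mem_ball_self hr0, ?_⟩
    simp only [sub_self, inner_zero_right]
    linarith
  · ext q
    constructor
    · rintro ⟨⟨-, -, hf, hlt⟩, hq1, hq2, hq3⟩
      have hne : q.1 ≠ q.2 := fun h => by rw [h] at hlt; exact lt_irrefl _ hlt
      have hqN : q ∈ N := hδ₁N (by
        rw [mem_ball, Prod.dist_eq]
        exact max_lt (lt_of_lt_of_le hq1 hr2) (lt_of_lt_of_le hq2 hr2))
      obtain ⟨t, ht, rfl⟩ := hNt q hqN hne hf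
      have hcoord := (hγt t (Ioo_subset_Icc_self ht)).2
      have htpos : 0 < t := by
        rcases lt_trichotomy t 0 with h | h | h
        · exfalso
          have hbd : |2 * t| < 2 * r := by
            rw [← hcoord]
            calc |inner ℝ u (γ t - γ (-t))| ≤ ‖u‖ * ‖γ t - γ (-t)‖ := abs_real_inner_le_norm _ _
              _ = dist (γ t) (γ (-t)) := by rw [hu, one_mul, dist_eq_norm]
              _ ≤ dist (γ t) p + dist p (γ (-t)) := dist_triangle _ _ _
              _ < r + r := add_lt_add hq1 (by rw [dist_comm]; exact hq2)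
              _ = 2 * r := by ring
          have htr : -t < r := by
            rw [abs_mul, abs_of_neg h, abs_of_pos (by norm_num : (0 : ℝ) < 2)] at hbd
            linarith
          have := hsign (-t) (by linarith) (lt_of_lt_of_le htr hr4)
          rw [neg_neg] at this
          exact absurd hlt (not_lt.2 this.le)
        · exfalso
          apply hne
          simp [h]
        · exact h
      refine ⟨t, ⟨htpos, ?_⟩, rfl⟩
      rw [show ((γ t, γ (-t)) : Plane × Plane).1 = γ t from rfl,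
        show ((γ t, γ (-t)) : Plane × Plane).2 = γ (-t) from rfl, hcoord] at hq3
      linarith
    · rintro ⟨t, ⟨ht0, ht2⟩, rfl⟩
      have ha := hin t ⟨by linarith, ht2.le⟩
      have hb := hin (-t) ⟨by linarith, by linarith⟩
      have hcoord := hγt t ⟨by linarith, by linarith⟩
      refine ⟨⟨ball_subset_closedBall (hsub ha.1), ball_subset_closedBall (hsub hb.1), hcoord.1,
        hsign t ht0 (by linarith)⟩, ha.1, hb.1, ?_⟩
      change inner ℝ u (γ t - γ (-t)) < 4 * ε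
      rw [hcoord.2]
      linarith
  · rintro q ⟨hq1, hq2, -⟩
    exact ⟨ball_subset_ball hr1 hq1, ball_subset_ball hr1 hq2⟩

theorem exists_capArcs (hF : IsSliceDisc F) (hU : Umb F) : ∃ u ε γ O, CapArcs F u ε γ O := by
  obtain ⟨U, hUo, hUd⟩ := (finite_caps hF hU).t2_separation
  have h : ∀ p ∈ caps F, ∃ u ε γ O, CapArc F p u ε γ O ∧ O ⊆ U p ×ˢ U p := fun p hp => by
    obtain ⟨δ, hδ, hδU⟩ := Metric.mem_nhds_iff.1 ((hUo p).2.mem_nhds (hUo p).1)
    obtain ⟨u, ε, γ, O, h1, h2⟩ := exists_capArc hF hU hp hδ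
    exact ⟨u, ε, γ, O, h1, h2.trans (prod_mono hδU hδU)⟩
  choose! u ε γ O h1 h2 using h
  refine ⟨u, ε, γ, O, h1, fun p hp q hq hpq => ?_⟩
  rw [Set.disjoint_left]
  intro x hxp hxq
  exact Set.disjoint_left.1 (hUd hp hq hpq) (h2 p hp hxp).1 (h2 q hq hxq).1

end Pool.Agent.Lib_MP_752436_cu
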