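import Pool.Agent.Lib_MP_752436_cu.Defs

/-!
Piece U1: the double curve at a Whitney umbrella.
-/

open MeasureTheory Metric Set Filter
open scoped ContDiff Topology

namespace Pool.Agent.Lib_MP_752436_cu

open Pool.Agent.Lib_MP_752436_gt Pool.Agent.Lib_MP_752436_tp Pool.Agent.Lib_MP_752436_rb
  Pool.Agent.Lib_MP_752436_ch Pool.Agent.Lib_MP_752436_ts

private theorem CapCurve_frame {k : Plane} (hk : ‖k‖ = 1) : ∃ w : Plane, ‖w‖ = 1 ∧
    inner ℝ k w = (0 : ℝ) ∧ ∀ v : Plane, v = (inner ℝ k v : ℝ) • k + (inner ℝ w v : ℝ) • w := by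
  have hk2 : k 0 ^ 2 + k 1 ^ 2 = 1 := by
    have h := EuclideanSpace.norm_sq_eq k
    rw [hk, Fin.sum_univ_two] at h
    simp only [Real.norm_eq_abs, sq_abs] at h
    linarith
  refine ⟨!₂[-(k 1), k 0], ?_, ?_, fun v => ?_⟩
  · have h := EuclideanSpace.norm_sq_eq (!₂[-(k 1), k 0] : Plane)
    rw [Fin.sum_univ_two] at h
    simp only [Real.norm_eq_abs, sq_abs] at h
    have h1 : ‖(!₂[-(k 1), k 0] : Plane)‖ ^ 2 = 1 := by
      rw [h]
      simp
      linarith
    have h2 := norm_nonneg (!₂[-(k 1), k 0] : Plane)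
    nlinarith
  · simp [PiLp.inner_apply, Fin.sum_univ_two]
    ring
  · ext i
    fin_cases i
    · simp [PiLp.inner_apply, Fin.sum_univ_two]
      linear_combination (-(v 0)) * hk2
    · simp [PiLp.inner_apply, Fin.sum_univ_two]
      linear_combination (-(v 1)) * hk2

private theorem CapCurve_slope {m : Plane → Space} (hm : ContDiff ℝ ∞ m) {x0 k w : Plane}
    (hk : ‖k‖ = 1) (hw : ‖w‖ = 1)
    (h0 : fderiv ℝ m x0 k = 0) (hw0 : fderiv ℝ m x0 w ≠ 0)
    (hfr : ∀ v : Plane, v = (inner ℝ k v : ℝ) • k + (inner ℝ w v : ℝ) • w) {ε : ℝ}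
    (hε : 0 < ε) :
    ∃ δ > 0, ∀ x ∈ ball x0 δ, ∀ y ∈ ball x0 δ, m x = m y →
      |(inner ℝ w (x - y) : ℝ)| ≤ ε * |(inner ℝ k (x - y) : ℝ)| := by
  have hstr : HasStrictFDerivAt m (fderiv ℝ m x0) x0 :=
    (hm.contDiffAt (x := x0)).hasStrictFDerivAt (by simp)
  set c0 := ‖fderiv ℝ m x0 w‖ with hc0
  have hc0' : 0 < c0 := norm_pos_iff.2 hw0
  set ε' := min (c0 / 2) (ε * c0 / 2) with hε'
  have hε'0 : 0 < ε' := lt_min (by positivity) (by positivity)
  have h1 := hstr.isLittleO.def hε'0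
  rw [Metric.eventually_nhds_iff_ball] at h1
  obtain ⟨δ, hδ, h2⟩ := h1
  refine ⟨δ, hδ, fun x hx y hy hmm => ?_⟩
  have h3 := h2 (x, y) (by rw [← ball_prod_same]; exact ⟨hx, hy⟩)
  simp only [hmm, sub_self, zero_sub, norm_neg] at h3
  set α := (inner ℝ k (x - y) : ℝ) with hα
  set β := (inner ℝ w (x - y) : ℝ) with hβ
  have h4 : x - y = α • k + β • w := hfr (x - y)
  have h5 : fderiv ℝ m x0 (x - y) = β • fderiv ℝ m x0 w := by
    rw [h4, map_add, map_smul, map_smul, h0, smul_zero, zero_add]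
  rw [h5, norm_smul, Real.norm_eq_abs, ← hc0] at h3
  have h6 : ‖x - y‖ ≤ |α| + |β| := by
    rw [h4]
    refine (norm_add_le _ _).trans ?_
    rw [norm_smul, norm_smul, hk, hw, mul_one, mul_one, Real.norm_eq_abs, Real.norm_eq_abs]
  have h7 : |β| * c0 ≤ ε' * (|α| + |β|) := h3.trans (mul_le_mul_of_nonneg_left h6 hε'0.le)
  have h8 : ε' * |β| ≤ c0 / 2 * |β| := mul_le_mul_of_nonneg_right (min_le_left _ _) (abs_nonneg _)
  have h9 : ε' * |α| ≤ ε * c0 / 2 * |α| :=
    mul_le_mul_of_nonneg_right (min_le_right _ _) (abs_nonneg _)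
  have h10 : c0 / 2 * |β| ≤ c0 / 2 * (ε * |α|) := by nlinarith
  exact le_of_mul_le_mul_left h10 (by positivity)

/-- the derivative of the difference quotient in the first variables -/
private theorem CapCurve_L {f : Plane → Space} (hf : ContDiff ℝ ∞ f) {p u J : Plane}
    (h0 : fderiv ℝ f p u = 0)
    (hfr : ∀ v : Plane, v = (inner ℝ u v : ℝ) • u + (inner ℝ J v : ℝ) • J)
    (hW : ∀ v, ∃ a b, fderiv ℝ (fun y => fderiv ℝ f y u) p a + fderiv ℝ f p b = v) :
    ∃ L : Plane × ℝ →L[ℝ] Space, Function.Injective L ∧ fderiv ℝ f p J ≠ 0 ∧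
      HasFDerivAt (fun z : Plane × ℝ => fderiv ℝ f (p + z.1) (u + z.2 • J)) L 0 := by
  have hdm : ContDiff ℝ ∞ (fderiv ℝ f) := hf.fderiv_right (by simp)
  have hk1 : ContDiff ℝ ∞ (fun y => fderiv ℝ f y u) := hdm.clm_apply contDiff_const
  have hw1 : ContDiff ℝ ∞ (fun y => fderiv ℝ f y J) := hdm.clm_apply contDiff_const
  let L : Plane × ℝ →L[ℝ] Space :=
    (fderiv ℝ (fun y => fderiv ℝ f y u) p).comp (ContinuousLinearMap.fst ℝ Plane ℝ) +
      (ContinuousLinearMap.snd ℝ Plane ℝ).smulRight (fderiv ℝ f p J)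
  have hL : ∀ v : Plane × ℝ, L v = fderiv ℝ (fun y => fderiv ℝ f y u) p v.1 +
      v.2 • fderiv ℝ f p J := fun v => rfl
  have hsurj : Function.Surjective (L : Plane × ℝ →ₗ[ℝ] Space) := by
    intro v
    obtain ⟨a, b, hab⟩ := hW v
    refine ⟨(a, inner ℝ J b), ?_⟩
    change L (a, inner ℝ J b) = v
    rw [hL, ← hab]
    congr 1
    conv_rhs => rw [hfr b]
    rw [map_add, map_smul, map_smul, h0, smul_zero, zero_add]
  have hinj : Function.Injective (L : Plane × ℝ →ₗ[ℝ] Space) := by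
    refine (LinearMap.injective_iff_surjective_of_finrank_eq_finrank ?_).2 hsurj
    rw [Module.finrank_prod, finrank_euclideanSpace_fin, finrank_euclideanSpace_fin,
      Module.finrank_self]
  refine ⟨L, hinj, fun h => ?_, ?_⟩
  · have h1 : L (0, 1) = L (0, 0) := by
      rw [hL, hL, h]
      simp
    have h2 := congrArg Prod.snd (hinj h1)
    exact one_ne_zero h2
  · have h5 : HasFDerivAt (fun z : Plane × ℝ => p + z.1) (ContinuousLinearMap.fst ℝ Plane ℝ)
        (0 : Plane × ℝ) := hasFDerivAt_fst.const_add p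
    have h1 : HasFDerivAt (fun z : Plane × ℝ => fderiv ℝ f (p + z.1) u)
        ((fderiv ℝ (fun y => fderiv ℝ f y u) p).comp (ContinuousLinearMap.fst ℝ Plane ℝ))
        (0 : Plane × ℝ) := by
      refine HasFDerivAt.comp (g := fun y => fderiv ℝ f y u) (f := fun z : Plane × ℝ => p + z.1)
        (0 : Plane × ℝ) ?_ h5
      rw [Prod.fst_zero, add_zero]
      exact ((hk1.differentiable (by simp)) p).hasFDerivAt
    have h2 : HasFDerivAt (fun z : Plane × ℝ => fderiv ℝ f (p + z.1) J)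
        ((fderiv ℝ (fun y => fderiv ℝ f y J) p).comp (ContinuousLinearMap.fst ℝ Plane ℝ))
        (0 : Plane × ℝ) := by
      refine HasFDerivAt.comp (g := fun y => fderiv ℝ f y J) (f := fun z : Plane × ℝ => p + z.1)
        (0 : Plane × ℝ) ?_ h5
      rw [Prod.fst_zero, add_zero]
      exact ((hw1.differentiable (by simp)) p).hasFDerivAt
    have h3 : HasFDerivAt (fun z : Plane × ℝ => z.2) (ContinuousLinearMap.snd ℝ Plane ℝ)
        (0 : Plane × ℝ) := hasFDerivAt_snd
    have h4 := h1.add (h3.smul h2)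
    have h6 : (fun z : Plane × ℝ => fderiv ℝ f (p + z.1) (u + z.2 • J)) =
        (fun z : Plane × ℝ => fderiv ℝ f (p + z.1) u) +
          (fun z : Plane × ℝ => z.2) • (fun z : Plane × ℝ => fderiv ℝ f (p + z.1) J) := by
      funext z
      simp [map_add, map_smul]
    rw [h6]
    refine h4.congr_fderiv ?_
    ext v
    · simp [L]
    · simp [L]

private theorem CapCurve_partial {E G : Type} [NormedAddCommGroup E] [NormedSpace ℝ E]
    [NormedAddCommGroup G] [NormedSpace ℝ G] {F : E → ℝ → G}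
    (hF : ContDiff ℝ 1 (fun p : E × ℝ => F p.1 p.2)) (r : E) (s : ℝ) :
    HasFDerivAt (fun r => F r s)
      ((fderiv ℝ (fun p : E × ℝ => F p.1 p.2) (r, s)).comp
        (ContinuousLinearMap.inl ℝ E ℝ)) r := by
  have h1 : HasFDerivAt (fun p : E × ℝ => F p.1 p.2)
      (fderiv ℝ (fun p : E × ℝ => F p.1 p.2) (r, s)) (r, s) :=
    (hF.differentiable one_ne_zero _).hasFDerivAt
  have h2 : HasFDerivAt (fun r : E => (r, s)) (ContinuousLinearMap.inl ℝ E ℝ) r :=
    hasFDerivAt_prodMk_left r s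
  exact h1.comp r h2

private theorem CapCurve_param {E G : Type} [NormedAddCommGroup E] [NormedSpace ℝ E]
    [ProperSpace E] [NormedAddCommGroup G] [NormedSpace ℝ G] {F : E → ℝ → G}
    (hF : ContDiff ℝ 1 (fun p : E × ℝ => F p.1 p.2)) :
    ContDiff ℝ 1 (fun r => ∫ s in (-1 : ℝ)..1, F r s) := by
  set F' : E → ℝ → E →L[ℝ] G := fun r s =>
    (fderiv ℝ (fun p : E × ℝ => F p.1 p.2) (r, s)).comp
      (ContinuousLinearMap.inl ℝ E ℝ) with hF'
  have hc : Continuous (fun p : E × ℝ => F' p.1 p.2) := by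
    have h1 : Continuous (fderiv ℝ (fun p : E × ℝ => F p.1 p.2)) :=
      hF.continuous_fderiv one_ne_zero
    exact h1.clm_comp continuous_const
  have hcF : Continuous (fun p : E × ℝ => F p.1 p.2) := hF.continuous
  have key : ∀ r, HasFDerivAt (fun r => ∫ s in (-1 : ℝ)..1, F r s)
      (∫ s in (-1 : ℝ)..1, F' r s) r := by
    intro r₀
    obtain ⟨C, hC⟩ := (((isCompact_closedBall r₀ 1).prod
      (isCompact_Icc (a := (-1 : ℝ)) (b := 1))).exists_bound_of_continuousOn hc.continuousOn)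
    apply intervalIntegral.hasFDerivAt_integral_of_dominated_of_fderiv_le
      (bound := fun _ => C) (s := closedBall r₀ 1) (F' := F')
      (closedBall_mem_nhds r₀ one_pos)
    · exact Eventually.of_forall fun x =>
        (hcF.comp (Continuous.prodMk_right x)).aestronglyMeasurable
    · exact (hcF.comp (Continuous.prodMk_right r₀)).intervalIntegrable _ _
    · exact (hc.comp (Continuous.prodMk_right r₀)).aestronglyMeasurable
    · refine Eventually.of_forall fun t ht x hx => ?_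
      rw [uIoc_of_le (by norm_num)] at ht
      exact hC (x, t) ⟨hx, ht.1.le, ht.2⟩
    · exact intervalIntegrable_const
    · exact Eventually.of_forall fun t _ x _ => CapCurve_partial hF x t
  rw [contDiff_one_iff_hasFDerivAt]
  refine ⟨_, ?_, key⟩
  exact intervalIntegral.continuous_parametric_intervalIntegral_of_continuous' hc (-1) 1

private noncomputable def CapCurve_psi (f : Plane → Space) (p u J : Plane)
    (q : (Plane × ℝ) × ℝ) : Space :=
  ∫ s in (-1 : ℝ)..1, fderiv ℝ f (p + q.1.1 + (s * q.2) • (u + q.1.2 • J)) (u + q.1.2 • J)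

private theorem CapCurve_psi_smooth {f : Plane → Space} (hf : ContDiff ℝ ∞ f) (p u J : Plane) :
    ContDiff ℝ 1 (CapCurve_psi f p u J) := by
  refine CapCurve_param (F := fun (q : (Plane × ℝ) × ℝ) (s : ℝ) =>
    fderiv ℝ f (p + q.1.1 + (s * q.2) • (u + q.1.2 • J)) (u + q.1.2 • J)) ?_
  have hdm : ContDiff ℝ 1 (fderiv ℝ f) := (hf.fderiv_right (m := ∞) (by simp)).of_le (by simp)
  refine ContDiff.clm_apply (hdm.comp ?_) ?_ <;> fun_prop

private theorem CapCurve_psi_even (f : Plane → Space) (p u J : Plane) (z : Plane × ℝ) (t : ℝ) :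
    CapCurve_psi f p u J (z, -t) = CapCurve_psi f p u J (z, t) := by
  unfold CapCurve_psi
  have h := intervalIntegral.integral_comp_neg (a := (-1 : ℝ)) (b := 1)
    (fun s => fderiv ℝ f (p + z.1 + (s * t) • (u + z.2 • J)) (u + z.2 • J))
  rw [neg_neg] at h
  rw [← h]
  refine intervalIntegral.integral_congr fun s _ => ?_
  simp only [mul_neg, neg_mul]

private theorem CapCurve_psi_mul {f : Plane → Space} (hf : ContDiff ℝ ∞ f) (p u J : Plane)
    (z : Plane × ℝ) (t : ℝ) :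
    t • CapCurve_psi f p u J (z, t) =
      f (p + z.1 + t • (u + z.2 • J)) - f (p + z.1 - t • (u + z.2 • J)) := by
  set v := u + z.2 • J with hv
  have h1 : ∀ s : ℝ, HasDerivAt (fun s : ℝ => f (p + z.1 + (s * t) • v))
      (t • fderiv ℝ f (p + z.1 + (s * t) • v) v) s := by
    intro s
    have h2 : HasDerivAt (fun s : ℝ => p + z.1 + (s * t) • v) (t • v) s := by
      have h3 := (((hasDerivAt_id s).mul_const t).smul_const v).const_add (p + z.1)
      rw [one_mul] at h3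
      exact h3
    have h4 := (((hf.differentiable (by simp)) (p + z.1 + (s * t) • v)).hasFDerivAt).comp_hasDerivAt
      s h2
    rw [map_smul] at h4
    exact h4
  have hdm : Continuous (fderiv ℝ f) := (hf.fderiv_right (m := ∞) (by simp)).continuous
  have hc : Continuous (fun s : ℝ => fderiv ℝ f (p + z.1 + (s * t) • v) v) :=
    (hdm.comp (by fun_prop)).clm_apply continuous_const
  have h5 := intervalIntegral.integral_eq_sub_of_hasDerivAt (a := (-1 : ℝ)) (b := 1)
    (fun s _ => h1 s) ((hc.const_smul t).intervalIntegrable _ _)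
  rw [intervalIntegral.integral_smul] at h5
  unfold CapCurve_psi
  change t • (∫ s in (-1 : ℝ)..1, fderiv ℝ f (p + z.1 + (s * t) • v) v) = _
  rw [h5]
  simp only [one_mul, neg_mul, neg_smul, ← sub_eq_add_neg]

private theorem CapCurve_psi_zero (f : Plane → Space) (p u J : Plane) (z : Plane × ℝ) :
    CapCurve_psi f p u J (z, 0) = (2 : ℝ) • fderiv ℝ f (p + z.1) (u + z.2 • J) := by
  unfold CapCurve_psi
  simp only [mul_zero, zero_smul, add_zero]
  rw [intervalIntegral.integral_const]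
  norm_num

/-- the implicit function -/
private theorem CapCurve_implicit {Ψ : (Plane × ℝ) × ℝ → Space} (hΨ : ContDiff ℝ 1 Ψ)
    (h0 : Ψ 0 = 0) (heven : ∀ z t, Ψ (z, -t) = Ψ (z, t))
    {L : Plane × ℝ →L[ℝ] Space} (hL : Function.Injective L)
    (hd : HasFDerivAt (fun z => Ψ (z, 0)) L 0) :
    ∃ r > 0, ∃ g : ℝ → Plane × ℝ, ContDiffOn ℝ 1 g (ball 0 r) ∧ g 0 = 0 ∧ HasDerivAt g 0 0 ∧
      (∀ t ∈ ball (0 : ℝ) r, Ψ (g t, t) = 0 ∧ g (-t) = g t) ∧
      ∀ z ∈ ball (0 : Plane × ℝ) r, ∀ t ∈ ball (0 : ℝ) r, Ψ (z, t) = 0 → g t = z := by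
  set Φ : (Plane × ℝ) × ℝ → Space × ℝ := fun q => (Ψ q, q.2) with hΦdef
  have hΦ : ContDiff ℝ 1 Φ := hΨ.prodMk contDiff_snd
  have hDΨ : HasFDerivAt Ψ (fderiv ℝ Ψ 0) 0 := (hΨ.differentiable one_ne_zero 0).hasFDerivAt
  set A : (Plane × ℝ) × ℝ →L[ℝ] Space × ℝ :=
    (fderiv ℝ Ψ 0).prod (ContinuousLinearMap.snd ℝ (Plane × ℝ) ℝ) with hAdef
  have hA : HasFDerivAt Φ A 0 := hDΨ.prodMk hasFDerivAt_snd
  have hL2 : (fderiv ℝ Ψ 0).comp (ContinuousLinearMap.inl ℝ (Plane × ℝ) ℝ) = L := by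
    have h1 : HasFDerivAt (fun z : Plane × ℝ => ((z, 0) : (Plane × ℝ) × ℝ))
        (ContinuousLinearMap.inl ℝ (Plane × ℝ) ℝ) 0 := hasFDerivAt_prodMk_left 0 0
    have h2 : HasFDerivAt (fun z : Plane × ℝ => Ψ (z, 0))
        ((fderiv ℝ Ψ 0).comp (ContinuousLinearMap.inl ℝ (Plane × ℝ) ℝ)) 0 :=
      HasFDerivAt.comp (0 : Plane × ℝ) hDΨ h1
    exact h2.unique hd
  have hAinj : Function.Injective (A : (Plane × ℝ) × ℝ →ₗ[ℝ] Space × ℝ) := by
    refine (injective_iff_map_eq_zero _).2 fun q hq => ?_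
    have h1 : fderiv ℝ Ψ 0 q = 0 := congrArg Prod.fst hq
    have h2 : q.2 = 0 := congrArg Prod.snd hq
    obtain ⟨z, t⟩ := q
    change t = 0 at h2
    subst h2
    have h3 : L z = L 0 := by
      rw [← hL2, map_zero]
      exact h1
    rw [hL h3]
    rfl
  have hdim : Module.finrank ℝ ((Plane × ℝ) × ℝ) = Module.finrank ℝ (Space × ℝ) := by
    rw [Module.finrank_prod, Module.finrank_prod, Module.finrank_prod, finrank_euclideanSpace_fin,
      finrank_euclideanSpace_fin, Module.finrank_self]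
  let e : ((Plane × ℝ) × ℝ) ≃L[ℝ] (Space × ℝ) :=
    ((A : (Plane × ℝ) × ℝ →ₗ[ℝ] Space × ℝ).linearEquivOfInjective hAinj
      hdim).toContinuousLinearEquiv
  have he : (e : (Plane × ℝ) × ℝ →L[ℝ] Space × ℝ) = A := by
    ext q <;> rfl
  have hA' : HasFDerivAt Φ (e : (Plane × ℝ) × ℝ →L[ℝ] Space × ℝ) 0 := by
    rw [he]; exact hA
  have hΦat : ContDiffAt ℝ 1 Φ 0 := hΦ.contDiffAt
  set P := hΦat.toOpenPartialHomeomorph Φ hA' one_ne_zero with hP
  have hPc : ∀ q, P q = Φ q := fun q => rfl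
  have hPs : (0 : (Plane × ℝ) × ℝ) ∈ P.source :=
    hΦat.mem_toOpenPartialHomeomorph_source hA' one_ne_zero
  have hΦ0 : Φ 0 = 0 := by
    rw [hΦdef]
    simp only [h0]
    rfl
  have hPt : (0 : Space × ℝ) ∈ P.target := by
    have h1 := hΦat.image_mem_toOpenPartialHomeomorph_target hA' one_ne_zero
    rw [hΦ0] at h1
    exact h1
  have hinv : ContDiffAt ℝ 1 P.symm (0 : Space × ℝ) := by
    have h1 := hΦat.to_localInverse hA' one_ne_zero
    rw [hΦ0] at h1
    exact h1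
  have hP0 : P.symm 0 = 0 := by
    have h1 := P.left_inv hPs
    rw [hPc, hΦ0] at h1
    exact h1
  set j : ℝ → Space × ℝ := fun t => (0, t) with hj
  have hjs : ContDiff ℝ 1 j := contDiff_const.prodMk contDiff_id
  have hj0 : j 0 = 0 := rfl
  set g : ℝ → Plane × ℝ := fun t => (P.symm (j t)).1 with hg
  have hgat : ContDiffAt ℝ 1 g 0 := by
    have h1 : ContDiffAt ℝ 1 (fun t => P.symm (j t)) 0 := by
      refine ContDiffAt.comp (0 : ℝ) ?_ hjs.contDiffAt
      rw [hj0]; exact hinv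
    exact h1.fst
  have hg0 : g 0 = 0 := by
    rw [hg]
    change (P.symm (j 0)).1 = 0
    rw [hj0, hP0]
    rfl
  have ev1 : ∀ᶠ t in 𝓝 (0 : ℝ), ContDiffAt ℝ 1 g t := hgat.eventually (by simp)
  have ev2 : ∀ᶠ t in 𝓝 (0 : ℝ), j t ∈ P.target := by
    have h1 : Tendsto j (𝓝 0) (𝓝 (0 : Space × ℝ)) := hjs.continuous.continuousAt
    exact h1.eventually (P.open_target.mem_nhds hPt)
  have hneg : Tendsto (fun t : ℝ => -t) (𝓝 0) (𝓝 0) := by
    have h1 := (continuous_neg (G := ℝ)).tendsto 0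
    rw [neg_zero] at h1
    exact h1
  have hgc : Tendsto g (𝓝 0) (𝓝 0) := by
    have h1 := hgat.continuousAt
    rw [ContinuousAt, hg0] at h1
    exact h1
  have ev3 : ∀ᶠ t in 𝓝 (0 : ℝ), (g (-t), t) ∈ P.source := by
    have h1 : Tendsto (fun t : ℝ => (g (-t), t)) (𝓝 0) (𝓝 ((0 : Plane × ℝ), (0 : ℝ))) :=
      (hgc.comp hneg).prodMk_nhds tendsto_id
    exact h1.eventually (P.open_source.mem_nhds hPs)
  have ev4 : ∀ᶠ q in 𝓝 (0 : (Plane × ℝ) × ℝ), q ∈ P.source := P.open_source.mem_nhds hPs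
  obtain ⟨r1, hr1, h1⟩ := Metric.eventually_nhds_iff_ball.1 (ev1.and (ev2.and ev3))
  obtain ⟨r2, hr2, h2⟩ := Metric.eventually_nhds_iff_ball.1 ev4
  have key : ∀ t, j t ∈ P.target → (P.symm (j t)).2 = t ∧ Ψ (g t, t) = 0 := by
    intro t ht
    have h3 := P.right_inv ht
    rw [hPc] at h3
    have h4 : (P.symm (j t)).2 = t := congrArg Prod.snd h3
    have h5 : Ψ (P.symm (j t)) = 0 := congrArg Prod.fst h3
    refine ⟨h4, ?_⟩
    have h6 : (g t, t) = P.symm (j t) := Prod.ext rfl h4.symm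
    rw [h6]
    exact h5
  have uniq : ∀ z t, (z, t) ∈ P.source → Ψ (z, t) = 0 → g t = z := by
    intro z t hz hzt
    have h3 := P.left_inv hz
    rw [hPc] at h3
    have h4 : Φ (z, t) = j t := Prod.ext hzt rfl
    rw [h4] at h3
    change (P.symm (j t)).1 = z
    rw [h3]
  have hball : ∀ t ∈ ball (0 : ℝ) r1, -t ∈ ball (0 : ℝ) r1 := by
    intro t ht
    rw [mem_ball_zero_iff] at ht ⊢
    rw [norm_neg]
    exact ht
  have heq : ∀ t ∈ ball (0 : ℝ) r1, g (-t) = g t := by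
    intro t ht
    have h3 := (key (-t) (h1 _ (hball t ht)).2.1).2
    rw [heven] at h3
    exact (uniq _ _ (h1 t ht).2.2 h3).symm
  refine ⟨min r1 r2, lt_min hr1 hr2, g, ?_, hg0, ?_, fun t ht => ?_, fun z hz t ht hzt => ?_⟩
  · intro t ht
    exact (h1 t (ball_subset_ball (min_le_left _ _) ht)).1.contDiffWithinAt
  · obtain ⟨g', hg'⟩ : ∃ g', HasDerivAt g g' 0 :=
      ⟨_, (hgat.differentiableAt one_ne_zero).hasDerivAt⟩
    have h3 : HasDerivAt (fun t => g (-t)) (-g') 0 := by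
      have h4 : HasDerivAt g g' (-0) := by rw [neg_zero]; exact hg'
      have h5 := h4.scomp (0 : ℝ) (hasDerivAt_neg (0 : ℝ))
      rw [neg_one_smul] at h5
      exact h5
    have h4 : (fun t => g (-t)) =ᶠ[𝓝 0] g :=
      Filter.eventually_of_mem (ball_mem_nhds 0 hr1) heq
    have h5 := (h3.congr_of_eventuallyEq h4.symm).unique hg'
    have h6 : g' = 0 := by
      have h7 : (2 : ℝ) • g' = 0 := by
        rw [two_smul]
        nth_rewrite 1 [← h5]
        exact neg_add_cancel g'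
      exact (smul_eq_zero.1 h7).resolve_left two_ne_zero
    rw [← h6]
    exact hg'
  · have ht1 := ball_subset_ball (min_le_left r1 r2) ht
    exact ⟨(key t (h1 t ht1).2.1).2, heq t ht1⟩
  · refine uniq z t (h2 (z, t) ?_) hzt
    have hz1 := ball_subset_ball (min_le_right r1 r2) hz
    have ht1 := ball_subset_ball (min_le_right r1 r2) ht
    rw [mem_ball_zero_iff] at hz1 ht1 ⊢
    rw [Prod.norm_def]
    exact max_lt hz1 ht1

/-- Let `J u` be the rotated vector, `v = u + w • J u`, `Ψ (ξ, w, τ) = (2 τ)⁻¹ (f (p + ξ + τ v) -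
f (p + ξ - τ v)) = (1/2) ∫ s in -1..1, df (p + ξ + s τ v) v`, a smooth function of `(ξ, w, τ)`,
also at `τ = 0`, even in `τ`. `Ψ (0, 0, 0) = df p u = 0`, the derivative in `(ξ, w)` at `0` is
`(a, s) ↦ D (df · u) p a + s df p (J u)`, onto `R^3` by `hW`. Implicit function theorem: near `0`
the zeros are the graph of a function `(ξ, w) = g τ`, even in `τ` by uniqueness. Put
`γ τ = p + ξ (τ) + τ v (τ)` near `0`, cut off. A pair `x ≠ y` near `(p, p)` with `f x = f y` has
`x - y` almost parallel to `u` (the kernel of `df p` is spanned by `u`: compare `mv/CapEst`,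
`capEst_ne`, `capEst_one`), so it is of this form with `τ = inner u (x - y) / 2`. -/
theorem exists_capCurve {f : Plane → Space} (hf : ContDiff ℝ ∞ f) {p u : Plane} (hu : ‖u‖ = 1)
    (h0 : fderiv ℝ f p u = 0)
    (hW : ∀ v, ∃ a b, fderiv ℝ (fun y => fderiv ℝ f y u) p a + fderiv ℝ f p b = v) :
    ∃ ε > 0, ∃ γ : ℝ → Plane, ContDiff ℝ 1 γ ∧ γ 0 = p ∧ deriv γ 0 = u ∧
      (∀ t ∈ Icc (-ε) ε, f (γ t) = f (γ (-t)) ∧ inner ℝ u (γ t - γ (-t)) = 2 * t) ∧
      ∃ N ∈ 𝓝 (p, p), ∀ q ∈ N, q.1 ≠ q.2 → f q.1 = f q.2 →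
        ∃ t ∈ Ioo (-ε) ε, q = (γ t, γ (-t)) := by
  obtain ⟨J, hJ, huJ, hfr⟩ := CapCurve_frame hu
  obtain ⟨L, hL, hJ0, hLd⟩ := CapCurve_L hf h0 hfr hW
  have hs : ContDiff ℝ 1 (CapCurve_psi f p u J) := CapCurve_psi_smooth hf p u J
  have hΨ0 : CapCurve_psi f p u J 0 = 0 := by
    have h1 := CapCurve_psi_zero f p u J 0
    rw [Prod.fst_zero, Prod.snd_zero, add_zero, zero_smul, add_zero, h0, smul_zero] at h1
    exact h1
  have hd : HasFDerivAt (fun z => CapCurve_psi f p u J (z, 0)) ((2 : ℝ) • L) 0 := by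
    have h1 : (fun z => CapCurve_psi f p u J (z, 0)) =
        fun z : Plane × ℝ => (2 : ℝ) • fderiv ℝ f (p + z.1) (u + z.2 • J) :=
      funext (CapCurve_psi_zero f p u J)
    rw [h1]
    exact hLd.const_smul (2 : ℝ)
  have h2L : Function.Injective ((2 : ℝ) • L) := by
    intro a b hab
    refine hL ?_
    have h1 : (2 : ℝ) • L a = (2 : ℝ) • L b := hab
    exact smul_right_injective Space (two_ne_zero' ℝ) h1
  obtain ⟨r, hr, g, hg, hg0, hg', hgz, hgu⟩ := CapCurve_implicit hs hΨ0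
    (CapCurve_psi_even f p u J) h2L hd
  set γ0 : ℝ → Plane := fun t => p + (g t).1 + t • (u + (g t).2 • J) with hγ0
  have hγ0s : ContDiffOn ℝ 1 γ0 (ball 0 r) := by
    have h1 : ContDiffOn ℝ 1 (fun t => (g t).1) (ball 0 r) := hg.fst
    have h2 : ContDiffOn ℝ 1 (fun t => (g t).2) (ball 0 r) := hg.snd
    exact (contDiffOn_const.add h1).add
      (contDiffOn_id.smul (contDiffOn_const.add (h2.smul contDiffOn_const)))
  have hγneg : ∀ t ∈ ball (0 : ℝ) r, γ0 (-t) = p + (g t).1 - t • (u + (g t).2 • J) := by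
    intro t ht
    rw [hγ0]
    simp only
    rw [(hgz t ht).2, neg_smul, sub_eq_add_neg]
  let χ : ContDiffBump (0 : ℝ) := ⟨r / 4, r / 2, by positivity, by linarith⟩
  set ρ : ℝ → ℝ := fun t => χ t * t with hρ
  have hρs : ContDiff ℝ 1 ρ := χ.contDiff.mul contDiff_id
  have hρb : ∀ t, ρ t ∈ ball (0 : ℝ) r := by
    intro t
    rw [mem_ball_zero_iff, Real.norm_eq_abs]
    rcases lt_or_ge |t| (r / 2) with h1 | h1
    · rw [hρ]
      simp only [abs_mul]
      rw [abs_of_nonneg χ.nonneg]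
      have h2 : χ t ≤ 1 := χ.le_one
      have h3 := mul_le_mul_of_nonneg_right h2 (abs_nonneg t)
      linarith
    · have h2 : χ t = 0 := by
        refine χ.zero_of_le_dist ?_
        rw [Real.dist_eq, sub_zero]
        exact h1
      rw [hρ]
      simp only [h2, zero_mul, abs_zero]
      exact hr
  have hρ1 : ∀ t, |t| ≤ r / 4 → ρ t = t := by
    intro t ht
    have h2 : χ t = 1 := by
      refine χ.one_of_mem_closedBall ?_
      rw [mem_closedBall_zero_iff, Real.norm_eq_abs]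
      exact ht
    rw [hρ]
    simp only [h2, one_mul]
  have hmem : ∀ t : ℝ, |t| ≤ r / 4 → t ∈ ball (0 : ℝ) r := by
    intro t ht
    rw [mem_ball_zero_iff, Real.norm_eq_abs]
    linarith
  refine ⟨r / 4, by positivity, γ0 ∘ ρ, hγ0s.comp_contDiff hρs hρb, ?_, ?_, ?_, ?_⟩
  · change γ0 (ρ 0) = p
    rw [hρ1 0 (by rw [abs_zero]; positivity), hγ0]
    simp only [hg0, Prod.fst_zero, add_zero, zero_smul]
  · have h1 : (γ0 ∘ ρ) =ᶠ[𝓝 0] γ0 := by
      refine Filter.eventually_of_mem (ball_mem_nhds (0 : ℝ) (by positivity : 0 < r / 4))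
        fun t ht => ?_
      rw [mem_ball_zero_iff, Real.norm_eq_abs] at ht
      change γ0 (ρ t) = γ0 t
      rw [hρ1 t ht.le]
    rw [h1.deriv_eq]
    refine HasDerivAt.deriv ?_
    have h2 : HasDerivAt (fun t => (g t).1) (0 : Plane) 0 := hg'.fst
    have h3 : HasDerivAt (fun t => (g t).2) (0 : ℝ) 0 := hg'.snd
    have h4 := (h2.const_add p).add ((hasDerivAt_id (0 : ℝ)).smul ((h3.smul_const J).const_add u))
    refine h4.congr_deriv ?_
    simp [hg0]
  · intro t ht
    have ht1 : |t| ≤ r / 4 := abs_le.2 ht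
    have ht2 := hmem t ht1
    change f (γ0 (ρ t)) = f (γ0 (ρ (-t))) ∧ inner ℝ u (γ0 (ρ t) - γ0 (ρ (-t))) = 2 * t
    rw [hρ1 t ht1, hρ1 (-t) (by rw [abs_neg]; exact ht1), hγneg t ht2]
    constructor
    · have h1 := CapCurve_psi_mul hf p u J (g t) t
      rw [(hgz t ht2).1, smul_zero] at h1
      exact (sub_eq_zero.1 h1.symm)
    · have h1 : γ0 t - (p + (g t).1 - t • (u + (g t).2 • J)) =
          (2 * t) • u + (2 * t * (g t).2) • J := by
        rw [hγ0]
        simp only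
        module
      rw [h1, inner_add_right, inner_smul_right, inner_smul_right, huJ,
        real_inner_self_eq_norm_sq, hu]
      simp
  · obtain ⟨δ, hδ, hsl⟩ := CapCurve_slope hf hu hJ h0 hJ0 hfr (ε := r / 2) (by positivity)
    set δ' := min δ (r / 4) with hδ'
    have hδ'0 : 0 < δ' := lt_min hδ (by positivity)
    refine ⟨ball p δ' ×ˢ ball p δ', prod_mem_nhds (ball_mem_nhds _ hδ'0) (ball_mem_nhds _ hδ'0),
      ?_⟩
    rintro ⟨x, y⟩ ⟨hx, hy⟩ hne hxy
    change x ∈ ball p δ' at hx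
    change y ∈ ball p δ' at hy
    change x ≠ y at hne
    change f x = f y at hxy
    have h1 := hsl x (ball_subset_ball (min_le_left _ _) hx) y
      (ball_subset_ball (min_le_left _ _) hy) hxy
    set τ := (inner ℝ u (x - y) : ℝ) / 2 with hτ
    have h2τ : (inner ℝ u (x - y) : ℝ) = 2 * τ := by rw [hτ]; ring
    have hτ0 : τ ≠ 0 := by
      intro h2
      rw [h2τ, h2, mul_zero, abs_zero, mul_zero] at h1
      have h4 : (inner ℝ J (x - y) : ℝ) = 0 := abs_eq_zero.1 (le_antisymm h1 (abs_nonneg _))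
      have h5 := hfr (x - y)
      rw [h2τ, h2, h4, mul_zero, zero_smul, zero_smul, add_zero] at h5
      exact hne (sub_eq_zero.1 h5)
    set w := (inner ℝ J (x - y) : ℝ) / (2 * τ) with hw
    have hw1 : |w| ≤ r / 2 := by
      rw [hw, abs_div, div_le_iff₀ (by positivity)]
      rw [h2τ] at h1
      exact h1
    have hJw : (inner ℝ J (x - y) : ℝ) = 2 * τ * w := by
      rw [hw]
      field_simp
    have hd1 : x - y = (2 * τ) • (u + w • J) := by
      conv_lhs => rw [hfr (x - y), h2τ, hJw]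
      module
    have hx1 : ‖x - p‖ < r / 4 := lt_of_lt_of_le (mem_ball_iff_norm.1 hx) (min_le_right _ _)
    have hy1 : ‖y - p‖ < r / 4 := lt_of_lt_of_le (mem_ball_iff_norm.1 hy) (min_le_right _ _)
    have hτ1 : |τ| < r / 4 := by
      have h2 : |(inner ℝ u (x - y) : ℝ)| ≤ ‖x - y‖ := by
        have h3 := abs_real_inner_le_norm u (x - y)
        rw [hu, one_mul] at h3
        exact h3
      have h3 : ‖x - y‖ < r / 2 := by
        have h4 : x - y = (x - p) - (y - p) := by abel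
        rw [h4]
        refine (norm_sub_le _ _).trans_lt ?_
        linarith
      rw [hτ, abs_div, abs_two]
      linarith
    set ξ := (1 / 2 : ℝ) • (x - p) + (1 / 2 : ℝ) • (y - p) with hξ
    have hξ1 : ‖ξ‖ < r := by
      rw [hξ]
      refine (norm_add_le _ _).trans_lt ?_
      rw [norm_smul, norm_smul]
      norm_num
      linarith
    have hxe : x = p + ξ + τ • (u + w • J) := by
      have h2 : x = p + ξ + (1 / 2 : ℝ) • (x - y) := by
        rw [hξ]
        module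
      rw [hd1] at h2
      rw [smul_smul] at h2
      have h3 : (1 / 2 : ℝ) * (2 * τ) = τ := by ring
      rw [h3] at h2
      exact h2
    have hye : y = p + ξ - τ • (u + w • J) := by
      have h2 : y = p + ξ - (1 / 2 : ℝ) • (x - y) := by
        rw [hξ]
        module
      rw [hd1] at h2
      rw [smul_smul] at h2
      have h3 : (1 / 2 : ℝ) * (2 * τ) = τ := by ring
      rw [h3] at h2
      exact h2
    have hz : ((ξ, w) : Plane × ℝ) ∈ ball (0 : Plane × ℝ) r := by
      rw [mem_ball_zero_iff, Prod.norm_def]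
      refine max_lt hξ1 ?_
      rw [Real.norm_eq_abs]
      linarith
    have ht2 : τ ∈ ball (0 : ℝ) r := hmem τ hτ1.le
    have hψ : CapCurve_psi f p u J ((ξ, w), τ) = 0 := by
      have h2 := CapCurve_psi_mul hf p u J (ξ, w) τ
      change τ • CapCurve_psi f p u J ((ξ, w), τ) =
        f (p + ξ + τ • (u + w • J)) - f (p + ξ - τ • (u + w • J)) at h2
      rw [← hxe, ← hye, hxy, sub_self] at h2
      exact (smul_eq_zero.1 h2).resolve_left hτ0
    have hgt : g τ = (ξ, w) := hgu _ hz τ ht2 hψ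
    refine ⟨τ, abs_lt.1 hτ1, ?_⟩
    change (x, y) = (γ0 (ρ τ), γ0 (ρ (-τ)))
    rw [hρ1 τ hτ1.le, hρ1 (-τ) (by rw [abs_neg]; exact hτ1.le), hγneg τ ht2]
    refine Prod.ext ?_ ?_
    · change x = p + (g τ).1 + τ • (u + (g τ).2 • J)
      rw [hgt]
      exact hxe
    · change y = p + (g τ).1 - τ • (u + (g τ).2 • J)
      rw [hgt]
      exact hye

end Pool.Agent.Lib_MP_752436_cu
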