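import Pool.Agent.Lib_MP_752436_cu.CapVanish

/-!
Piece U10: the dimension of the space of cycles.
-/

open MeasureTheory Metric Set Filter
open scoped ContDiff Topology

namespace Pool.Agent.Lib_MP_752436_cu

open Pool.Agent.Lib_MP_752436_gt Pool.Agent.Lib_MP_752436_tp Pool.Agent.Lib_MP_752436_rb
  Pool.Agent.Lib_MP_752436_ch Pool.Agent.Lib_MP_752436_ts

variable {F : Plane → EuclideanSpace ℝ (Fin 4)} {κ : Type} [Fintype κ]
  {c : κ → ℝ → Plane × Plane} {a b : κ → ℝ}

private theorem CapLinear_int (n : κ → ℝ) {E : Type*} [NormedAddCommGroup E] [NormedSpace ℝ E]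
    (θ : Plane → Plane →L[ℝ] E) :
    (chain c a b n).int θ = ∑ e, n e • ((∫ t in (a e)..(b e), θ (c e t).1
        (deriv (fun s => (c e s).1) t)) -
      ∫ t in (a e)..(b e), θ (c e t).2 (deriv (fun s => (c e s).2) t)) := by
  unfold PChain.int
  rw [Fintype.sum_sum_type, ← Finset.sum_add_distrib]
  refine Finset.sum_congr rfl fun e _ => ?_
  show n e • (∫ t in (a e)..(b e), θ (c e t).1 (deriv (fun s => (c e s).1) t)) +
    (- n e) • (∫ t in (a e)..(b e), θ (c e t).2 (deriv (fun s => (c e s).2) t)) = _
  rw [smul_sub, neg_smul, sub_eq_add_neg]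

private theorem CapLinear_wnd_add (n n' : κ → ℝ) (p : Plane) :
    (chain c a b (n + n')).wnd p = (chain c a b n).wnd p + (chain c a b n').wnd p := by
  unfold PChain.wnd
  rw [CapLinear_int, CapLinear_int, CapLinear_int, ← add_div, ← Complex.add_im,
    ← Finset.sum_add_distrib]
  congr 2
  refine Finset.sum_congr rfl fun e _ => ?_
  rw [Pi.add_apply, add_smul]

/-- The flux is linear in the weights (compare `ch/Vanish` `flux_chain_add`). -/
theorem cflux_chain_add (hF : IsSliceDisc F) (hE : CEdges c a b (DoubleSet F) (caps F))
    {n n' : κ → ℝ} (hn : IsCyc c a b n) (hn' : IsCyc c a b n') {V : Space → Space}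
    (hV : ∀ y ∈ closedBall (0 : Plane) 1, ContinuousAt V (shadow F y)) :
    (chain c a b (n + n')).flux (shadow F) V =
      (chain c a b n).flux (shadow F) V + (chain c a b n').flux (shadow F) V := by
  unfold PChain.flux
  rw [← integral_add ((csetting_chain hF hE hn).integrableOn_flux hV)
    ((csetting_chain hF hE hn').integrableOn_flux hV)]
  refine integral_congr_ae (Eventually.of_forall fun y => ?_)
  show (chain c a b (n + n')).wnd y * _ = (chain c a b n).wnd y * _ + (chain c a b n').wnd y * _
  rw [CapLinear_wnd_add, add_mul]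

private theorem CapLinear_continuousAt_newt {p r : Space} (h : r ≠ p) :
    ContinuousAt (newt p) r := by
  have h1 : ‖r - p‖ ^ 3 ≠ 0 := pow_ne_zero _ (norm_ne_zero_iff.2 (sub_ne_zero.2 h))
  have h2 : ContinuousAt (fun r : Space => r - p) r := continuousAt_id.sub continuousAt_const
  exact ((h2.norm.pow 3).inv₀ h1).smul h2

private theorem CapLinear_point (C : regions (shadow F)) :
    ∃ p, p ∉ shadow F '' closedBall (0 : Plane) 1 ∧
      (C : Set Space) = connectedComponentIn (shadow F '' closedBall (0 : Plane) 1)ᶜ p := by
  obtain ⟨_, p, hp, hC⟩ := C.2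
  exact ⟨p, hp, hC⟩

/-- A point of the region `C`. -/
private noncomputable def CapLinearPt (C : regions (shadow F)) : Space := (CapLinear_point C).choose

private theorem CapLinearPt_notMem (C : regions (shadow F)) :
    CapLinearPt C ∉ shadow F '' closedBall (0 : Plane) 1 := (CapLinear_point C).choose_spec.1

private theorem CapLinearPt_eq (C : regions (shadow F)) :
    (C : Set Space) =
      connectedComponentIn (shadow F '' closedBall (0 : Plane) 1)ᶜ (CapLinearPt C) :=
  (CapLinear_point C).choose_spec.2

private theorem CapLinear_cont {p : Space} (hp : p ∉ shadow F '' closedBall (0 : Plane) 1) :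
    ∀ y ∈ closedBall (0 : Plane) 1, ContinuousAt (newt p) (shadow F y) := by
  intro y hy
  apply CapLinear_continuousAt_newt
  intro heq
  exact hp ⟨y, hy, heq⟩

/-- The potentials at the points of the regions. -/
private noncomputable def CapLinearMap (hF : IsSliceDisc F)
    (hE : CEdges c a b (DoubleSet F) (caps F)) :
    cycles c a b →ₗ[ℝ] (regions (shadow F) → ℝ) where
  toFun n C := (chain c a b n.1).flux (shadow F) (newt (CapLinearPt C))
  map_add' := by
    intro n n'
    funext C
    exact cflux_chain_add hF hE n.2 n'.2 (CapLinear_cont (CapLinearPt_notMem C))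
  map_smul' := by
    intro r n
    funext C
    exact flux_chain_smul n.1 r _

/-- As `ch/Linear` `finrank_cycles_le`. -/
theorem cfinrank_cycles_le (hF : IsSliceDisc F) (hU : Umb F)
    (hE : CEdges c a b (DoubleSet F) (caps F)) {m : ℕ}
    (hm : (regions (shadow F)).encard ≤ m) : Module.finrank ℝ (cycles c a b) ≤ m := by
  classical
  have hfin : (regions (shadow F)).Finite := Set.finite_of_encard_le_coe hm
  have : Fintype (regions (shadow F)) := hfin.fintype
  have hinj : Function.Injective (CapLinearMap hF hE) := by
    rw [injective_iff_map_eq_zero]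
    intro n hn
    apply Subtype.ext
    apply ceq_zero_of_newt hF hU hE n.2
    intro p hp
    have hmem : p ∈ connectedComponentIn (shadow F '' closedBall (0 : Plane) 1)ᶜ p :=
      mem_connectedComponentIn hp
    have hsub := connectedComponentIn_subset (shadow F '' closedBall (0 : Plane) 1)ᶜ p
    have hdis : Disjoint (connectedComponentIn (shadow F '' closedBall (0 : Plane) 1)ᶜ p)
        (shadow F '' closedBall (0 : Plane) 1) :=
      Set.disjoint_left.2 fun x hx hx' => hsub hx hx'
    have hpre : IsPreconnected (connectedComponentIn (shadow F '' closedBall (0 : Plane) 1)ᶜ p) :=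
      isPreconnected_connectedComponentIn
    have hset := csetting_chain hF hE n.2
    by_cases hb : Bornology.IsBounded
        (connectedComponentIn (shadow F '' closedBall (0 : Plane) 1)ᶜ p)
    · have hC : connectedComponentIn (shadow F '' closedBall (0 : Plane) 1)ᶜ p ∈
          regions (shadow F) := ⟨hb, p, hp, rfl⟩
      have hq : CapLinearPt ⟨_, hC⟩ ∈
          connectedComponentIn (shadow F '' closedBall (0 : Plane) 1)ᶜ p := by
        have h1 := CapLinearPt_eq (⟨_, hC⟩ : regions (shadow F))
        have h2 : CapLinearPt ⟨_, hC⟩ ∈ connectedComponentIn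
            (shadow F '' closedBall (0 : Plane) 1)ᶜ
              (CapLinearPt (⟨_, hC⟩ : regions (shadow F))) :=
          mem_connectedComponentIn (CapLinearPt_notMem _)
        rw [← h1] at h2
        exact h2
      rw [hset.flux_newt_const hpre hdis hmem hq]
      exact congrFun hn ⟨_, hC⟩
    · exact hset.flux_newt_unbounded hpre hdis hb hmem
  have h1 := LinearMap.finrank_le_finrank_of_injective hinj
  rw [Module.finrank_fintype_fun_eq_card] at h1
  refine h1.trans ?_
  have h2 : (regions (shadow F)).encard = (Fintype.card (regions (shadow F)) : ℕ∞) := by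
    rw [Set.encard_eq_coe_toFinset_card, Set.toFinset_card]
  rw [h2] at hm
  exact_mod_cast hm

end Pool.Agent.Lib_MP_752436_cu
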