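import Pool.Agent.Lib_MP_752436_cu.CapArcs
import Pool.Agent.Lib_MP_752436_tp.Exists

/-!
Piece U5: the truncated double set is a compact one dimensional space.
-/

open MeasureTheory Metric Set Filter
open scoped ContDiff Topology

namespace Pool.Agent.Lib_MP_752436_cu

open Pool.Agent.Lib_MP_752436_gt Pool.Agent.Lib_MP_752436_tp Pool.Agent.Lib_MP_752436_rb
  Pool.Agent.Lib_MP_752436_ch Pool.Agent.Lib_MP_752436_ts

variable {F : Plane → EuclideanSpace ℝ (Fin 4)}

section Aux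

private theorem cod_ne {c : Plane × Plane} (hc : c ∈ DoubleSet F) : c.1 ≠ c.2 := by
  intro h
  have h1 := hc.2.2.2
  rw [h] at h1
  exact lt_irrefl _ h1

private theorem cod_inj1 (hU : Umb F) {c : Plane × Plane} (hc : c ∈ DoubleSet F) :
    Function.Injective (fderiv ℝ (shadow F) c.1) := by
  rw [injective_iff_map_eq_zero]
  intro u hu
  by_contra h0
  exact hU.gen.immersion c.1 hc.1 c.2 hc.2.1 (cod_ne hc) hc.2.2.1 u h0 hu

private theorem cod_inj2 (hU : Umb F) {c : Plane × Plane} (hc : c ∈ DoubleSet F) :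
    Function.Injective (fderiv ℝ (shadow F) c.2) := by
  rw [injective_iff_map_eq_zero]
  intro u hu
  by_contra h0
  exact hU.gen.immersion c.2 hc.2.1 c.1 hc.1 (cod_ne hc).symm hc.2.2.1.symm u h0 hu

private theorem cod_double (hU : Umb F) {c : Plane × Plane} (hc : c ∈ DoubleSet F) :
    ∀ v, ∃ u w, fderiv ℝ (shadow F) c.1 u + fderiv ℝ (shadow F) c.2 w = v :=
  hU.gen.double c.1 hc.1 c.2 hc.2.1 (cod_ne hc) hc.2.2.1

private theorem cod_kernel (hU : Umb F) {c : Plane × Plane} (hc : c ∈ DoubleSet F) :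
    (field (shadow F) c).1 ≠ 0 ∧ (field (shadow F) c).2 ≠ 0 :=
  let h := field_kernel (cod_inj1 hU hc) (cod_inj2 hU hc) (cod_double hU hc)
  ⟨h.1, h.2.1⟩

variable {v : Plane × Plane → Plane × Plane} {Φ : ℝ → Plane × Plane → Plane × Plane}

private theorem cod_inner_ne (hU : Umb F) (h : CutFlow (shadow F) v Φ) {c : Plane × Plane}
    (hc : c ∈ DoubleSet F) (hc2 : c.2 ∈ sphere (0 : Plane) 1) :
    inner ℝ c.2 (v c).2 ≠ 0 := by
  intro h0
  have hv := od_field_eq h hc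
  have hk := (cod_kernel hU hc).2
  rw [hv] at h0
  exact hk (hU.boundary c.1 c.2 hc hc2 _ _ h0 (field_parallel c))

private theorem cod_tendsto_neg : Tendsto (fun t : ℝ => -t) (𝓝[>] 0) (𝓝 0) := by
  have : Tendsto (fun t : ℝ => -t) (𝓝 0) (𝓝 0) := by
    simpa using (continuous_neg.tendsto (0 : ℝ))
  exact this.mono_left nhdsWithin_le_nhds

private theorem cod_bd (hF : IsSliceDisc F) (hU : Umb F) (h : CutFlow (shadow F) v Φ)
    {c : Plane × Plane} (hc : c ∈ DoubleSet F) (hc2 : c.2 ∈ sphere (0 : Plane) 1) :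
    (∀ᶠ t in 𝓝[>] (0 : ℝ), Φ t c ∉ DoubleSet F ∧
        Φ (-t) c ∈ DoubleSet F ∧ (Φ (-t) c).2 ∉ sphere (0 : Plane) 1) ∨
      (∀ᶠ t in 𝓝[>] (0 : ℝ), (Φ t c ∈ DoubleSet F ∧ (Φ t c).2 ∉ sphere (0 : Plane) 1) ∧
        Φ (-t) c ∉ DoubleSet F) := by
  have hev := od_eventually hF h hc
  have hE1 := hev.filter_mono (nhdsWithin_le_nhds (s := Ioi (0 : ℝ)))
  have hE2 := cod_tendsto_neg.eventually hev
  have hne := cod_inner_ne hU h hc hc2
  have hder := od_hasDerivAt_normSq h c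
  have hg0 : ‖(Φ 0 c).2‖ ^ 2 = 1 := by
    rw [h.flow.zero]
    exact od_sphere_iff.mp hc2
  have key : ∀ t, (Φ t c).1 ∈ ball (0 : Plane) 1 → F (Φ t c).2 3 < F (Φ t c).1 3 →
      ‖(Φ t c).2‖ ^ 2 < 1 →
      Φ t c ∈ DoubleSet F ∧ (Φ t c).2 ∉ sphere (0 : Plane) 1 := by
    intro t h1 h2 h3
    refine ⟨od_mem hF h hc h1 (od_ball_iff.mpr h3) h2, fun h4 => ?_⟩
    have := od_sphere_iff.mp h4
    linarith
  have key2 : ∀ t, 1 < ‖(Φ t c).2‖ ^ 2 → Φ t c ∉ DoubleSet F := fun t ht hm =>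
    od_notMem_closedBall ht hm.2.1
  rcases lt_or_gt_of_ne hne with hneg | hpos
  · have h1 : HasDerivAt (fun t => -‖(Φ t c).2‖ ^ 2) (-(2 * inner ℝ c.2 (v c).2)) 0 := hder.neg
    have h2 := od_pos_deriv h1 (by linarith)
    refine Or.inr ?_
    filter_upwards [h2, hE1, hE2] with t ⟨e1, e2⟩ ⟨e3, e4⟩ ⟨e5, e6⟩
    rw [hg0] at e1 e2
    exact ⟨key t e3 e4 (by linarith), key2 (-t) (by linarith)⟩
  · have h2 := od_pos_deriv hder (by linarith)
    refine Or.inl ?_
    filter_upwards [h2, hE1, hE2] with t ⟨e1, e2⟩ ⟨e3, e4⟩ ⟨e5, e6⟩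
    rw [hg0] at e1 e2
    exact ⟨key2 t e1, key (-t) e5 e6 e2⟩

/-- The closed half arcs. -/
private def codK (F : Plane → EuclideanSpace ℝ (Fin 4)) (ε : Plane → ℝ) (γ : Plane → ℝ → Plane) :
    Set (Plane × Plane) :=
  ⋃ p ∈ caps F, (fun t => (γ p t, γ p (-t))) '' Icc 0 (ε p)

variable {u : Plane → Plane} {ε : Plane → ℝ} {γ : Plane → ℝ → Plane}
  {O : Plane → Set (Plane × Plane)}

private theorem cod_cont (hA : CapArcs F u ε γ O) {p : Plane} (hp : p ∈ caps F) :
    Continuous fun t => (γ p t, γ p (-t)) := by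
  have h := (hA.arc p hp).smooth.continuous
  exact h.prodMk (h.comp continuous_neg)

private theorem cod_isClosed (hF : IsSliceDisc F) (hU : Umb F) (hA : CapArcs F u ε γ O) :
    IsClosed (codK F ε γ) := by
  refine (finite_caps hF hU).isClosed_biUnion fun p hp => ?_
  exact (isCompact_Icc.image (cod_cont hA hp)).isClosed

/-- The arc lies in `O p`. -/
private theorem cod_arc_mem (hA : CapArcs F u ε γ O) {p : Plane} (hp : p ∈ caps F) {t : ℝ}
    (ht : t ∈ Ioo 0 (2 * ε p)) : (γ p t, γ p (-t)) ∈ DoubleSet F ∩ O p := by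
  rw [(hA.arc p hp).double]
  exact ⟨t, ht, rfl⟩

private theorem cod_coord (hA : CapArcs F u ε γ O) {p : Plane} (hp : p ∈ caps F) {q : Plane × Plane}
    (hq : q ∈ DoubleSet F) (hqO : q ∈ O p) :
    inner ℝ (u p) (q.1 - q.2) / 2 ∈ Ioo 0 (2 * ε p) ∧
      q = (γ p (inner ℝ (u p) (q.1 - q.2) / 2), γ p (-(inner ℝ (u p) (q.1 - q.2) / 2))) := by
  have h1 : q ∈ DoubleSet F ∩ O p := ⟨hq, hqO⟩
  rw [(hA.arc p hp).double] at h1
  obtain ⟨t, ht, hqt⟩ := h1
  have h2 := (hA.arc p hp).coord t ⟨by linarith [ht.1, (hA.arc p hp).pos], ht.2.le⟩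
  have h3 : inner ℝ (u p) (q.1 - q.2) / 2 = t := by
    rw [← hqt]
    simp only
    rw [h2]
    ring
  rw [h3]
  exact ⟨ht, hqt.symm⟩

/-- The arc at `p` in terms of the coordinate. -/
private theorem cod_mem_arc (hA : CapArcs F u ε γ O) {p : Plane} (hp : p ∈ caps F)
    {q : Plane × Plane} (hq : q ∈ DoubleSet F) (hqO : q ∈ O p) :
    q ∈ truncSet F ε γ ↔ ε p ≤ inner ℝ (u p) (q.1 - q.2) / 2 := by
  obtain ⟨h1, h2⟩ := cod_coord hA hp hq hqO
  constructor
  · intro h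
    by_contra hlt
    rw [not_le] at hlt
    refine h.2 (mem_iUnion₂.mpr ⟨p, hp, _, ⟨h1.1, hlt⟩, h2.symm⟩)
  · intro h
    refine ⟨hq, fun h3 => ?_⟩
    obtain ⟨p', hp', t, ht, htq⟩ := mem_iUnion₂.mp h3
    have hpos := (hA.arc p' hp').pos
    have h4 := cod_arc_mem hA hp' (t := t) ⟨ht.1, by linarith [ht.2]⟩
    have htq' : (γ p' t, γ p' (-t)) = q := htq
    rw [htq'] at h4
    by_cases hpp : p = p'
    · subst hpp
      have h5 := (hA.arc p hp).coord t ⟨by linarith [ht.1], by linarith [ht.2]⟩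
      rw [← htq'] at h
      simp only at h
      rw [h5] at h
      linarith [ht.2]
    · exact (Set.disjoint_left.mp (hA.disj p hp p' hp' hpp)) hqO h4.2

private theorem cod_truncSet_eq (hA : CapArcs F u ε γ O) :
    truncSet F ε γ = (DoubleSet F ∪ (fun p => (p, p)) '' caps F) ∩
      (⋃ p ∈ caps F, O p ∩ {q | inner ℝ (u p) (q.1 - q.2) / 2 < ε p})ᶜ := by
  ext q
  constructor
  · intro hq
    refine ⟨Or.inl hq.1, fun h => ?_⟩
    obtain ⟨p, hp, h1, h2⟩ := mem_iUnion₂.mp h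
    exact absurd ((cod_mem_arc hA hp hq.1 h1).mp hq) (not_le.mpr h2)
  · rintro ⟨h1, h2⟩
    rcases h1 with h1 | ⟨p, hp, rfl⟩
    · refine ⟨h1, fun h3 => h2 ?_⟩
      obtain ⟨p, hp, t, ht, htq⟩ := mem_iUnion₂.mp h3
      have hpos := (hA.arc p hp).pos
      have h4 := cod_arc_mem hA hp (t := t) ⟨ht.1, by linarith [ht.2]⟩
      have htq' : (γ p t, γ p (-t)) = q := htq
      refine mem_iUnion₂.mpr ⟨p, hp, ?_, ?_⟩
      · rw [← htq']
        exact h4.2
      · show inner ℝ (u p) (q.1 - q.2) / 2 < ε p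
        have h5 := (hA.arc p hp).coord t ⟨by linarith [ht.1], by linarith [ht.2]⟩
        rw [← htq']
        simp only
        rw [h5]
        linarith [ht.2]
    · exfalso
      refine h2 (mem_iUnion₂.mpr ⟨p, hp, (hA.arc p hp).mem, ?_⟩)
      show inner ℝ (u p) (p - p) / 2 < ε p
      rw [sub_self, inner_zero_right]
      have := (hA.arc p hp).pos
      linarith

private theorem cod_compact (hF : IsSliceDisc F) (hU : Umb F) (hA : CapArcs F u ε γ O) :
    IsCompact (truncSet F ε γ) := by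
  rw [cod_truncSet_eq hA]
  refine (isCompact_double_caps hF hU).inter_right (IsOpen.isClosed_compl ?_)
  refine isOpen_biUnion fun p hp => (hA.arc p hp).isOpen.inter (isOpen_lt ?_ continuous_const)
  exact (continuous_const.inner (continuous_fst.sub continuous_snd)).div_const 2

private theorem cod_K_ball (hA : CapArcs F u ε γ O) {q : Plane × Plane} (hq : q ∈ codK F ε γ) :
    q.2 ∉ sphere (0 : Plane) 1 := by
  obtain ⟨p, hp, t, ht, htq⟩ := mem_iUnion₂.mp hq
  have hpos := (hA.arc p hp).pos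
  have htq' : (γ p t, γ p (-t)) = q := htq
  have hO : q ∈ O p := by
    rcases ht.1.eq_or_lt with h0 | h0
    · rw [← h0, neg_zero, (hA.arc p hp).zero] at htq'
      rw [← htq']
      exact (hA.arc p hp).mem
    · rw [← htq']
      exact (cod_arc_mem hA hp (t := t) ⟨h0, by linarith [ht.2]⟩).2
  have h1 := mem_ball.mp ((hA.arc p hp).sub hO).2
  intro h2
  rw [mem_sphere.mp h2] at h1
  exact lt_irrefl _ h1

/-- Outside of the closed half arcs. -/
private theorem cod_notMem_K {q : Plane × Plane} (hq : q ∈ DoubleSet F) (hqK : q ∉ codK F ε γ)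
    (hpos : ∀ p ∈ caps F, 0 < ε p) :
    q ∈ truncSet F ε γ ∧ q ∉ (fun p => (γ p (ε p), γ p (-(ε p)))) '' caps F := by
  refine ⟨⟨hq, fun h => hqK ?_⟩, fun h => hqK ?_⟩
  · obtain ⟨p, hp, t, ht, htq⟩ := mem_iUnion₂.mp h
    exact mem_iUnion₂.mpr ⟨p, hp, t, ⟨ht.1.le, ht.2.le⟩, htq⟩
  · obtain ⟨p, hp, hpq⟩ := h
    exact mem_iUnion₂.mpr ⟨p, hp, ε p, ⟨(hpos p hp).le, le_rfl⟩, hpq⟩

private theorem cod_K_of_notMem (hA : CapArcs F u ε γ O) {q : Plane × Plane}
    (hq : q ∈ truncSet F ε γ) (hqE : q ∉ truncEnds F ε γ) : q ∉ codK F ε γ := by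
  intro h
  obtain ⟨p, hp, t, ht, htq⟩ := mem_iUnion₂.mp h
  have htq' : (γ p t, γ p (-t)) = q := htq
  rcases ht.1.eq_or_lt with h0 | h0
  · rw [← h0, neg_zero, (hA.arc p hp).zero] at htq'
    refine cod_ne hq.1 ?_
    rw [← htq']
  · rcases ht.2.eq_or_lt with h1 | h1
    · refine hqE (Or.inr ⟨p, hp, ?_⟩)
      rw [← htq', h1]
    · exact hq.2 (mem_iUnion₂.mpr ⟨p, hp, t, ⟨h0, h1⟩, htq⟩)

private theorem cod_sub (hA : CapArcs F u ε γ O) : truncEnds F ε γ ⊆ truncSet F ε γ := by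
  rintro q (⟨h1, h2⟩ | ⟨p, hp, rfl⟩)
  · exact (cod_notMem_K h1 (fun h => cod_K_ball hA h h2) fun p hp => (hA.arc p hp).pos).1
  · have hpos := (hA.arc p hp).pos
    have h1 := cod_arc_mem hA hp (t := ε p) ⟨hpos, by linarith⟩
    refine (cod_mem_arc hA hp h1.1 h1.2).mpr ?_
    have h2 := (hA.arc p hp).coord (ε p) ⟨by linarith, by linarith⟩
    simp only
    rw [h2]
    linarith

/-- Membership in the truncated set without its end points, in `O p`. -/
private theorem cod_mem_open (hA : CapArcs F u ε γ O) {p : Plane} (hp : p ∈ caps F)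
    {q : Plane × Plane} (hq : q ∈ DoubleSet F) (hqO : q ∈ O p)
    (hlt : ε p < inner ℝ (u p) (q.1 - q.2) / 2) :
    q ∈ truncSet F ε γ \ truncEnds F ε γ := by
  refine ⟨(cod_mem_arc hA hp hq hqO).mpr hlt.le, ?_⟩
  rintro (⟨-, h2⟩ | ⟨p', hp', hpq⟩)
  · have h1 := mem_ball.mp ((hA.arc p hp).sub hqO).2
    rw [mem_sphere.mp h2] at h1
    exact lt_irrefl _ h1
  · have hpos := (hA.arc p' hp').pos
    have h1 := cod_arc_mem hA hp' (t := ε p') ⟨hpos, by linarith⟩
    have hpq' : (γ p' (ε p'), γ p' (-(ε p'))) = q := hpq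
    by_cases hpp : p = p'
    · subst hpp
      have h2 := (hA.arc p hp).coord (ε p) ⟨by linarith, by linarith⟩
      rw [← hpq'] at hlt
      simp only at hlt
      rw [h2] at hlt
      linarith
    · rw [hpq'] at h1
      exact (Set.disjoint_left.mp (hA.disj p hp p' hp' hpp)) hqO h1.2

private theorem cod_end (hF : IsSliceDisc F) (hU : Umb F) (hA : CapArcs F u ε γ O)
    (h : CutFlow (shadow F) v Φ) {p : Plane} (hp : p ∈ caps F) :
    (∀ᶠ t in 𝓝[>] (0 : ℝ), Φ t (γ p (ε p), γ p (-(ε p))) ∉ truncSet F ε γ ∧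
        Φ (-t) (γ p (ε p), γ p (-(ε p))) ∈ truncSet F ε γ \ truncEnds F ε γ) ∨
      (∀ᶠ t in 𝓝[>] (0 : ℝ),
        Φ t (γ p (ε p), γ p (-(ε p))) ∈ truncSet F ε γ \ truncEnds F ε γ ∧
        Φ (-t) (γ p (ε p), γ p (-(ε p))) ∉ truncSet F ε γ) := by
  have hpos := (hA.arc p hp).pos
  set c : Plane × Plane := (γ p (ε p), γ p (-(ε p))) with hcdef
  have hc := cod_arc_mem hA hp (t := ε p) ⟨hpos, by linarith⟩
  rw [← hcdef] at hc
  have hc2 : c.2 ∈ ball (0 : Plane) 1 := ((hA.arc p hp).sub hc.2).2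
  -- the flow stays in the double set and in the open set
  obtain ⟨η, hη, hstay⟩ := od_stay hF h hc.1 hc2
  have hev1 : ∀ᶠ t in 𝓝 (0 : ℝ), Φ t c ∈ DoubleSet F := by
    refine Metric.eventually_nhds_iff.mpr ⟨η, hη, fun t ht => hstay t ?_⟩
    simpa [Real.dist_eq] using ht
  have hev2 : ∀ᶠ t in 𝓝 (0 : ℝ), Φ t c ∈ O p := by
    refine (od_continuous_flow h c).continuousAt.eventually_mem
      ((hA.arc p hp).isOpen.mem_nhds ?_)
    rw [h.flow.zero]
    exact hc.2
  have hev := hev1.and hev2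
  -- the coordinate
  set τ : ℝ → ℝ := fun s => inner ℝ (u p) ((Φ s c).1 - (Φ s c).2) / 2 with hτ
  have hτ0 : τ 0 = ε p := by
    have h2 := (hA.arc p hp).coord (ε p) ⟨by linarith, by linarith⟩
    simp only [hτ, h.flow.zero, hcdef]
    rw [h2]
    ring
  have hd := h.flow.deriv c 0
  rw [h.flow.zero] at hd
  have hτd : HasDerivAt τ (inner ℝ (u p) ((v c).1 - (v c).2) / 2) 0 := by
    have ha : HasDerivAt (fun s => (Φ s c).1) (v c).1 0 := hd.fst
    have hb : HasDerivAt (fun s => (Φ s c).2) (v c).2 0 := hd.snd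
    have h1 : HasDerivAt (fun s => (Φ s c).1 - (Φ s c).2) ((v c).1 - (v c).2) 0 := ha.sub hb
    have h2 := (hasDerivAt_const (0 : ℝ) (u p)).inner ℝ h1
    simp only [inner_zero_left, add_zero] at h2
    exact h2.div_const 2
  have hne : inner ℝ (u p) ((v c).1 - (v c).2) / 2 ≠ 0 := by
    intro h0
    rw [h0] at hτd
    -- the curve
    have hγ : Differentiable ℝ (γ p) := (hA.arc p hp).smooth.differentiable (by simp)
    have hΓ : HasDerivAt (fun t => (γ p t, γ p (-t)))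
        (deriv (γ p) (τ 0), deriv (fun t => γ p (-t)) (τ 0)) (τ 0) := by
      refine (hγ (τ 0)).hasDerivAt.prodMk ?_
      exact DifferentiableAt.hasDerivAt ((hγ (-(τ 0))).comp (τ 0) differentiableAt_fun_id.neg)
    have hcomp := HasDerivAt.scomp (0 : ℝ) hΓ hτd
    rw [zero_smul] at hcomp
    have heq : (fun s => Φ s c) =ᶠ[𝓝 0] ((fun t => (γ p t, γ p (-t))) ∘ τ) := by
      filter_upwards [hev] with s hs
      exact (cod_coord hA hp hs.1 hs.2).2
    have h3 : HasDerivAt (fun s => Φ s c) 0 0 := hcomp.congr_of_eventuallyEq heq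
    have h4 : v c = 0 := hd.unique h3
    rw [od_field_eq h hc.1] at h4
    exact (cod_kernel hU hc.1).1 (by rw [h4]; rfl)
  have hE1 := hev.filter_mono (nhdsWithin_le_nhds (s := Ioi (0 : ℝ)))
  have hE2 := cod_tendsto_neg.eventually hev
  rcases lt_or_gt_of_ne hne with hneg | hpos'
  · have h1 : HasDerivAt (fun t => -τ t) (-(inner ℝ (u p) ((v c).1 - (v c).2) / 2)) 0 := hτd.neg
    have h2 := od_pos_deriv h1 (by linarith)
    refine Or.inl ?_
    filter_upwards [h2, hE1, hE2] with t ⟨e1, e2⟩ ⟨e3, e4⟩ ⟨e5, e6⟩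
    rw [hτ0] at e1 e2
    refine ⟨fun h3 => ?_, cod_mem_open hA hp e5 e6 ?_⟩
    · have h4 := (cod_mem_arc hA hp e3 e4).mp h3
      have h5 : τ t < ε p := by linarith
      exact absurd h4 (not_le.mpr h5)
    · show ε p < τ (-t)
      linarith
  · have h2 := od_pos_deriv hτd hpos'
    refine Or.inr ?_
    filter_upwards [h2, hE1, hE2] with t ⟨e1, e2⟩ ⟨e3, e4⟩ ⟨e5, e6⟩
    rw [hτ0] at e1 e2
    refine ⟨cod_mem_open hA hp e3 e4 e1, fun h3 => ?_⟩
    have h4 := (cod_mem_arc hA hp e5 e6).mp h3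
    exact absurd h4 (not_le.mpr e2)

end Aux

/-- Adaptation of `tp/OneDim` (`oneDim_doubleSet`, `od_...`). The truncated set is compact: the
removed arcs are open in the double set (`CapArc.double`), and `(p, p)` is not a limit. At the end
point `(γ ε, γ (- ε))` the flow moves along the arc: the orbit is `(γ (τ t), γ (- τ t))` with
`τ t = inner u (x - y) / 2` continuous and injective, so strictly monotone. -/
theorem oneDim_trunc (hF : IsSliceDisc F) (hU : Umb F) {u : Plane → Plane} {ε : Plane → ℝ}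
    {γ : Plane → ℝ → Plane} {O : Plane → Set (Plane × Plane)} (hA : CapArcs F u ε γ O)
    {v : Plane × Plane → Plane × Plane} {Φ : ℝ → Plane × Plane → Plane × Plane}
    (hΦ : CutFlow (shadow F) v Φ) : OneDim (truncSet F ε γ) (truncEnds F ε γ) Φ where
  compact := cod_compact hF hU hA
  sub := cod_sub hA
  zero := hΦ.flow.zero
  add := hΦ.flow.add
  cont := od_continuous_flow hΦ
  box := by
    intro c hc η hη
    obtain ⟨O, hO, hbox⟩ := flowBox (od_contDiff_shadow hF) hΦ hc.1.1 hc.1.2.1 hc.1.2.2.1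
      (cod_inj1 hU hc.1) (cod_inj2 hU hc.1) (cod_double hU hc.1) hη
    exact ⟨O, hO, fun p hp => hbox p hp.2 hp.1.1.2.2.1⟩
  stay := by
    intro c hc
    have hK := cod_K_of_notMem hA hc.1 hc.2
    have hc2 : c.2 ∈ ball (0 : Plane) 1 := by
      rcases (mem_closedBall.mp hc.1.1.2.1).lt_or_eq with h1 | h1
      · exact mem_ball.mpr h1
      · exact absurd (Or.inl ⟨hc.1.1, mem_sphere.mpr h1⟩) hc.2
    obtain ⟨η, hη, hstay⟩ := od_stay hF hΦ hc.1.1 hc2
    have hev : ∀ᶠ t in 𝓝 (0 : ℝ), Φ t c ∈ (codK F ε γ)ᶜ := by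
      refine (od_continuous_flow hΦ c).continuousAt.eventually_mem
        ((cod_isClosed hF hU hA).isOpen_compl.mem_nhds ?_)
      rw [hΦ.flow.zero]
      exact hK
    obtain ⟨η', hη', hev'⟩ := Metric.eventually_nhds_iff.mp hev
    refine ⟨min η η', lt_min hη hη', fun t ht => ?_⟩
    have h1 := hstay t (ht.trans_le (min_le_left _ _))
    have h2 := hev' (y := t) (by
      rw [Real.dist_eq, sub_zero]
      exact ht.trans_le (min_le_right _ _))
    exact (cod_notMem_K h1 h2 fun p hp => (hA.arc p hp).pos).1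
  bd := by
    intro c hc
    rcases hc with ⟨hcD, hcS⟩ | ⟨p, hp, rfl⟩
    · have hK : c ∉ codK F ε γ := fun h => cod_K_ball hA h hcS
      have hev : ∀ᶠ t in 𝓝 (0 : ℝ), Φ t c ∈ (codK F ε γ)ᶜ := by
        refine (od_continuous_flow hΦ c).continuousAt.eventually_mem
          ((cod_isClosed hF hU hA).isOpen_compl.mem_nhds ?_)
        rw [hΦ.flow.zero]
        exact hK
      have hE1 := hev.filter_mono (nhdsWithin_le_nhds (s := Ioi (0 : ℝ)))
      have hE2 := cod_tendsto_neg.eventually hev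
      have key : ∀ q : Plane × Plane, q ∈ DoubleSet F → q.2 ∉ sphere (0 : Plane) 1 →
          q ∈ (codK F ε γ)ᶜ → q ∈ truncSet F ε γ \ truncEnds F ε γ := by
        intro q h1 h2 h3
        have h4 := cod_notMem_K h1 h3 fun p hp => (hA.arc p hp).pos
        refine ⟨h4.1, ?_⟩
        rintro (h5 | h5)
        · exact h2 h5.2
        · exact h4.2 h5
      rcases cod_bd hF hU hΦ hcD hcS with h1 | h1
      · obtain ⟨η, hη, hη2⟩ := mem_nhdsGT_iff_exists_Ioo_subset.mp ((h1.and hE1).and hE2)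
        refine ⟨η, hη, Or.inl fun t ht => ?_⟩
        obtain ⟨⟨⟨e1, e2, e3⟩, -⟩, e5⟩ := hη2 ht
        exact ⟨fun h => e1 h.1, key _ e2 e3 e5⟩
      · obtain ⟨η, hη, hη2⟩ := mem_nhdsGT_iff_exists_Ioo_subset.mp ((h1.and hE1).and hE2)
        refine ⟨η, hη, Or.inr fun t ht => ?_⟩
        obtain ⟨⟨⟨⟨e1, e2⟩, e3⟩, e4⟩, -⟩ := hη2 ht
        exact ⟨key _ e1 e2 e4, fun h => e3 h.1⟩
    · rcases cod_end hF hU hA hΦ hp with h1 | h1
      · obtain ⟨η, hη, hη2⟩ := mem_nhdsGT_iff_exists_Ioo_subset.mp h1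
        exact ⟨η, hη, Or.inl fun t ht => hη2 ht⟩
      · obtain ⟨η, hη, hη2⟩ := mem_nhdsGT_iff_exists_Ioo_subset.mp h1
        exact ⟨η, hη, Or.inr fun t ht => hη2 ht⟩
  move := by
    intro c hc
    have h1 := hΦ.flow.deriv c 0
    rw [hΦ.flow.zero] at h1
    have hne : v c ≠ 0 := by
      rw [od_field_eq hΦ hc.1]
      intro h0
      exact (cod_kernel hU hc.1).1 (by rw [h0]; rfl)
    have h2 := h1.eventually_ne (c := c) hne
    obtain ⟨η, hη, hη2⟩ := Metric.eventually_nhds_iff.mp (eventually_nhdsWithin_iff.mp h2)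
    exact ⟨η, hη, fun t ht0 ht => hη2 (y := t) (by simpa [Real.dist_eq] using ht)
      (abs_pos.mp ht0)⟩

end Pool.Agent.Lib_MP_752436_cu
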