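import Pool.Agent.Lib_MP_752436_cu.CapOneDim

/-!
Piece U6: the double set is decomposed into finitely many paths.
-/

open MeasureTheory Metric Set Filter
open scoped ContDiff Topology

namespace Pool.Agent.Lib_MP_752436_cu

open Pool.Agent.Lib_MP_752436_gt Pool.Agent.Lib_MP_752436_tp Pool.Agent.Lib_MP_752436_rb
  Pool.Agent.Lib_MP_752436_ch Pool.Agent.Lib_MP_752436_ts

variable {F : Plane → EuclideanSpace ℝ (Fin 4)}

private theorem cpe_ne {P : Plane × Plane} (hP : P ∈ DoubleSet F) : P.1 ≠ P.2 := by
  intro h
  have h1 := hP.2.2.2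
  rw [h] at h1
  exact lt_irrefl _ h1

private theorem cpe_diag (q : Plane) : (q, q) ∉ DoubleSet F := fun h => cpe_ne h rfl

/-- The field does not vanish on the double set. -/
private theorem cpe_kernel (hU : Umb F) {c : Plane × Plane} (hc : c ∈ DoubleSet F) :
    (field (shadow F) c).1 ≠ 0 ∧ (field (shadow F) c).2 ≠ 0 := by
  have hinj : ∀ (L : Plane →L[ℝ] Space), (∀ u, u ≠ 0 → L u ≠ 0) → Function.Injective L := by
    intro L hL
    refine (injective_iff_map_eq_zero L).2 fun a ha => ?_
    by_contra h0
    exact hL a h0 ha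
  have h1 := hinj _ (hU.gen.immersion c.1 hc.1 c.2 hc.2.1 (cpe_ne hc) hc.2.2.1)
  have h2 := hinj _ (hU.gen.immersion c.2 hc.2.1 c.1 hc.1 (cpe_ne hc).symm hc.2.2.1.symm)
  have h3 := field_kernel h1 h2 (hU.gen.double c.1 hc.1 c.2 hc.2.1 (cpe_ne hc) hc.2.2.1)
  exact ⟨h3.1, h3.2.1⟩

/-- The orbits given by `exists_orbit_family (oneDim_trunc ..)`, parametrised by `[0, len i]` as in
`tp/Exists`, and one path for every umbrella `p`: `t ↦ (γ p t, γ p (- t))` on `[0, ε p]` if the
pair `(γ p (ε p), γ p (- ε p))` is the start of an orbit, and this path reversed if it is the end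
of an orbit (exactly one of the two holds). A closed orbit starts and ends at its base point. -/
theorem exists_pedges (hF : IsSliceDisc F) (hU : Umb F) :
    ∃ (κ : Type) (_ : Fintype κ) (c : κ → ℝ → Plane × Plane) (a b : κ → ℝ),
      PEdges c a b (DoubleSet F) (caps F) := by
  classical
  obtain ⟨u, ε, γ, O, hA⟩ := exists_capArcs hF hU
  obtain ⟨v, Φ, h⟩ := exists_cutFlow (od_contDiff_shadow hF)
  have hOD := oneDim_trunc hF hU hA h
  obtain ⟨ι, hι, c, len, closed, hlen, hcov, hcl, harc, hdisj⟩ := exists_orbit_family hOD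
  have hcaps : Finite (caps F) := (finite_caps hF hU).to_subtype
  have hTD : truncSet F ε γ ⊆ DoubleSet F := fun q hq => hq.1
  -- the points of the orbits
  have hmemT : ∀ i, ∀ t ∈ Icc (0 : ℝ) (len i), Φ t (c i) ∈ truncSet F ε γ := by
    intro i t ht
    rw [hcov]
    exact mem_iUnion.2 ⟨i, t, ht, rfl⟩
  have hinnerB : ∀ i, ∀ t ∈ Ioo (0 : ℝ) (len i), Φ t (c i) ∉ truncEnds F ε γ := by
    intro i t ht
    by_cases hi : closed i
    · exact ((hcl i hi).2.2 t).2
    · exact ((harc i hi).2.2.2 t ht).2
  -- the arcs at the umbrellas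
  have harcD : ∀ p ∈ caps F, ∀ t ∈ Ioo (0 : ℝ) (2 * ε p),
      (γ p t, γ p (-t)) ∈ DoubleSet F ∩ O p := by
    intro p hp t ht
    rw [(hA.arc p hp).double]
    exact ⟨t, ht, rfl⟩
  have hpos : ∀ p ∈ caps F, 0 < ε p := fun p hp => (hA.arc p hp).pos
  have hz : ∀ p ∈ caps F, (γ p 0, γ p (-0)) = (p, p) := by
    intro p hp
    rw [neg_zero, (hA.arc p hp).zero]
  have hendD : ∀ p ∈ caps F, (γ p (ε p), γ p (-(ε p))) ∈ DoubleSet F ∩ O p := fun p hp =>
    harcD p hp (ε p) ⟨hpos p hp, by linarith [hpos p hp]⟩
  have hendB : ∀ p ∈ caps F, (γ p (ε p), γ p (-(ε p))) ∈ truncEnds F ε γ := fun p hp =>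
    Or.inr ⟨p, hp, rfl⟩
  have hendT : ∀ p ∈ caps F, (γ p (ε p), γ p (-(ε p))) ∈ truncSet F ε γ := fun p hp =>
    hOD.sub (hendB p hp)
  have hnotT : ∀ p ∈ caps F, ∀ t ∈ Ioo (0 : ℝ) (ε p), (γ p t, γ p (-t)) ∉ truncSet F ε γ := by
    intro p hp t ht hT
    exact hT.2 (mem_iUnion₂.2 ⟨p, hp, t, ht, rfl⟩)
  have hsame : ∀ p ∈ caps F, ∀ q ∈ caps F, ∀ s ∈ Ioc (0 : ℝ) (ε p), ∀ t ∈ Ioc (0 : ℝ) (ε q),
      (γ p s, γ p (-s)) = (γ q t, γ q (-t)) → p = q ∧ s = t := by
    intro p hp q hq s hs t ht hst
    have h1 := (harcD p hp s ⟨hs.1, by linarith [hs.2, hs.1]⟩).2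
    have h2 := (harcD q hq t ⟨ht.1, by linarith [ht.2, ht.1]⟩).2
    rw [hst] at h1
    have hpq : p = q := by
      by_contra hne
      exact Set.disjoint_left.1 (hA.disj p hp q hq hne) h1 h2
    subst hpq
    refine ⟨rfl, ?_⟩
    have h3 := (hA.arc p hp).coord s ⟨by linarith [hs.1, hs.2], by linarith [hs.1, hs.2]⟩
    have h4 := (hA.arc p hp).coord t ⟨by linarith [ht.1, ht.2], by linarith [ht.1, ht.2]⟩
    have h5 : γ p s = γ p t := congrArg Prod.fst hst
    have h6 : γ p (-s) = γ p (-t) := congrArg Prod.snd hst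
    rw [h5, h6, h4] at h3
    linarith
  -- orbits are distinguished by their points
  have horb : ∀ i j, ∀ s ∈ Icc (0 : ℝ) (len i), ∀ t ∈ Icc (0 : ℝ) (len j),
      Φ s (c i) = Φ t (c j) → i = j := by
    intro i j s hs t ht hst
    by_contra hne
    exact Set.disjoint_left.1 (hdisj i j hne) ⟨s, hs, rfl⟩ ⟨t, ht, hst.symm⟩
  have h0mem : ∀ i, (0 : ℝ) ∈ Icc (0 : ℝ) (len i) := fun i => ⟨le_rfl, (hlen i).le⟩
  have h1mem : ∀ i, len i ∈ Icc (0 : ℝ) (len i) := fun i => ⟨(hlen i).le, le_rfl⟩
  have hnotcl : ∀ i, ∀ t, Φ t (c i) ∈ truncEnds F ε γ → ¬ closed i := fun i t ht hi =>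
    ((hcl i hi).2.2 t).2 ht
  -- the direction of the path at an umbrella
  let fw : Plane → Prop := fun p => ∃ i, Φ 0 (c i) = (γ p (ε p), γ p (-(ε p)))
  have hbw : ∀ p ∈ caps F, ¬ fw p → ∃ i, Φ (len i) (c i) = (γ p (ε p), γ p (-(ε p))) := by
    intro p hp hn
    have h1 := hendT p hp
    rw [hcov] at h1
    obtain ⟨i, t, ht, hit⟩ := mem_iUnion.1 h1
    simp only at hit
    rcases ht.1.eq_or_lt with h2 | h2
    · subst h2
      exact absurd ⟨i, hit⟩ hn
    · rcases ht.2.eq_or_lt with h3 | h3
      · subst h3
        exact ⟨i, hit⟩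
      · refine absurd ?_ (hinnerB i t ⟨h2, h3⟩)
        rw [hit]
        exact hendB p hp
  -- the parameter of the path at an umbrella
  let par : Plane → ℝ → ℝ := fun p t => if fw p then t else ε p - t
  let cc : ι ⊕ caps F → ℝ → Plane × Plane := fun e =>
    Sum.elim (fun i t => Φ t (c i)) (fun p t => (γ p (par p t), γ p (-(par p t)))) e
  let bb : ι ⊕ caps F → ℝ := Sum.elim len (fun p => ε p)
  have hparIcc : ∀ p, ∀ t ∈ Icc (0 : ℝ) (ε p), par p t ∈ Icc (0 : ℝ) (ε p) := by
    intro p t ht
    by_cases hf : fw p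
    · simpa only [par, if_pos hf] using ht
    · simp only [par, if_neg hf]
      exact ⟨by linarith [ht.2], by linarith [ht.1]⟩
  have hparIoo : ∀ p, ∀ t ∈ Ioo (0 : ℝ) (ε p), par p t ∈ Ioo (0 : ℝ) (ε p) := by
    intro p t ht
    by_cases hf : fw p
    · simpa only [par, if_pos hf] using ht
    · simp only [par, if_neg hf]
      exact ⟨by linarith [ht.2], by linarith [ht.1]⟩
  have hparinj : ∀ p s t, par p s = par p t → s = t := by
    intro p s t hst
    by_cases hf : fw p
    · simpa only [par, if_pos hf] using hst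
    · simp only [par, if_neg hf] at hst
      linarith
  have hparsurj : ∀ p, ∀ s ∈ Icc (0 : ℝ) (ε p), ∃ t ∈ Icc (0 : ℝ) (ε p), par p t = s := by
    intro p s hs
    by_cases hf : fw p
    · exact ⟨s, hs, by simp only [par, if_pos hf]⟩
    · exact ⟨ε p - s, ⟨by linarith [hs.2], by linarith [hs.1]⟩, by
        simp only [par, if_neg hf]; ring⟩
  -- values at the ends
  have hfw0 : ∀ p : caps F, fw p → cc (Sum.inr p) 0 = ((p : Plane), (p : Plane)) := by
    intro p hf
    have : par p 0 = 0 := by simp only [par, if_pos hf]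
    show (γ p (par p 0), γ p (-(par p 0))) = _
    rw [this]
    exact hz p p.2
  have hfw1 : ∀ p : caps F, fw p → cc (Sum.inr p) (ε p) = (γ p (ε p), γ p (-(ε p))) := by
    intro p hf
    have : par p (ε p) = ε p := by simp only [par, if_pos hf]
    show (γ p (par p (ε p)), γ p (-(par p (ε p)))) = _
    rw [this]
  have hbw0 : ∀ p : caps F, ¬ fw p → cc (Sum.inr p) 0 = (γ p (ε p), γ p (-(ε p))) := by
    intro p hf
    have : par p 0 = ε p := by simp only [par, if_neg hf]; ring
    show (γ p (par p 0), γ p (-(par p 0))) = _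
    rw [this]
  have hbw1 : ∀ p : caps F, ¬ fw p → cc (Sum.inr p) (ε p) = ((p : Plane), (p : Plane)) := by
    intro p hf
    have : par p (ε p) = 0 := by simp only [par, if_neg hf]; ring
    show (γ p (par p (ε p)), γ p (-(par p (ε p)))) = _
    rw [this]
    exact hz p p.2
  have hcover : ∀ P ∈ DoubleSet F, ∃ e, ∃ t ∈ Icc (0 : ℝ) (bb e), cc e t = P := by
    intro P hP
    by_cases hT : P ∈ truncSet F ε γ
    · rw [hcov] at hT
      obtain ⟨i, t, ht, hit⟩ := mem_iUnion.1 hT
      exact ⟨Sum.inl i, t, ht, hit⟩
    · have h1 : P ∈ ⋃ p ∈ caps F, (fun t => (γ p t, γ p (-t))) '' Ioo 0 (ε p) := by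
        by_contra h2
        exact hT ⟨hP, h2⟩
      obtain ⟨p, hp, s, hs, hsP⟩ := mem_iUnion₂.1 h1
      obtain ⟨t, ht, hpt⟩ := hparsurj p s ⟨hs.1.le, hs.2.le⟩
      refine ⟨Sum.inr ⟨p, hp⟩, t, ht, ?_⟩
      show (γ p (par p t), γ p (-(par p t))) = P
      rw [hpt]
      exact hsP
  have : Finite (ι ⊕ caps F) := inferInstance
  refine ⟨ι ⊕ caps F, Fintype.ofFinite _, cc, fun _ => 0, bb, ?_⟩
  exact {
    lt := by
      rintro (i | p)
      · exact hlen i
      · exact hpos p p.2
    smooth := by
      rintro (i | p)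
      · have hd : ∀ t, HasDerivAt (fun t => Φ t (c i)) (v (Φ t (c i))) t := h.flow.deriv (c i)
        change ContDiff ℝ 1 (fun t => Φ t (c i))
        rw [contDiff_one_iff_deriv]
        refine ⟨fun t => (hd t).differentiableAt, ?_⟩
        have : deriv (fun t => Φ t (c i)) = fun t => v (Φ t (c i)) := funext fun t => (hd t).deriv
        rw [this]
        exact h.smooth.continuous.comp (od_continuous_flow h (c i))
      · have hs : ContDiff ℝ 1 (par p) := by
          by_cases hf : fw p
          · have : par p = fun t => t := by funext t; simp only [par, if_pos hf]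
            rw [this]; exact contDiff_id
          · have : par p = fun t => ε p - t := by funext t; simp only [par, if_neg hf]
            rw [this]; exact contDiff_const.sub contDiff_id
        change ContDiff ℝ 1 (fun t => (γ p (par p t), γ p (-(par p t))))
        exact ((hA.arc p p.2).smooth.comp hs).prodMk ((hA.arc p p.2).smooth.comp hs.neg)
    regular := by
      rintro (i | p) t ht
      · have hd : HasDerivAt (fun t => (Φ t (c i)).1) (v (Φ t (c i))).1 t :=
          (h.flow.deriv (c i) t).fst
        change deriv (fun t => (Φ t (c i)).1) t ≠ 0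
        rw [hd.deriv, od_field_eq h (hTD (hmemT i t ht))]
        exact (cpe_kernel hU (hTD (hmemT i t ht))).1
      · change deriv (fun t => γ p (par p t)) t ≠ 0
        have ht' := hparIcc p t ht
        have hreg := (hA.arc p p.2).regular (par p t)
          ⟨by linarith [ht'.1, hpos p p.2], by linarith [ht'.2, hpos p p.2]⟩
        have hγ : HasDerivAt (γ p) (deriv (γ p) (par p t)) (par p t) :=
          (((hA.arc p p.2).smooth.differentiable (by norm_num)) (par p t)).hasDerivAt
        by_cases hf : fw p
        · have : par p = fun t => t := by funext t; simp only [par, if_pos hf]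
          rw [this] at hreg ⊢
          exact hreg
        · have hp' : HasDerivAt (par p) (-1) t := by
            have : par p = fun t => ε p - t := by funext t; simp only [par, if_neg hf]
            rw [this]
            simpa using (hasDerivAt_id t).const_sub (ε p)
          have h3 := hγ.scomp t hp'
          have h4 : deriv (fun t => γ p (par p t)) t = (-1 : ℝ) • deriv (γ p) (par p t) :=
            h3.deriv
          rw [h4]
          simpa using hreg
    inner := by
      rintro (i | p) t ht
      · exact hTD (hmemT i t ⟨ht.1.le, ht.2.le⟩)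
      · have h1 := hparIoo p t ht
        exact (harcD p p.2 _ ⟨h1.1, by linarith [h1.2, h1.1]⟩).1
    left := by
      rintro (i | p)
      · exact Or.inl (hTD (hmemT i 0 (h0mem i)))
      · by_cases hf : fw p
        · exact Or.inr ⟨p, p.2, hfw0 p hf⟩
        · left
          show cc (Sum.inr p) 0 ∈ DoubleSet F
          rw [hbw0 p hf]
          exact (hendD p p.2).1
    right := by
      rintro (i | p)
      · exact Or.inl (hTD (hmemT i (len i) (h1mem i)))
      · by_cases hf : fw p
        · left
          show cc (Sum.inr p) (ε p) ∈ DoubleSet F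
          rw [hfw1 p hf]
          exact (hendD p p.2).1
        · exact Or.inr ⟨p, p.2, hbw1 p hf⟩
    once := by
      rintro (i | p) (j | q) t ht t' ht' hEq
      · have hij : i = j := horb i j t ⟨ht.1.le, ht.2.le⟩ t' ht' hEq
        subst hij
        refine ⟨rfl, ?_⟩
        by_cases hi : closed i
        · rcases ht'.2.eq_or_lt with h1 | h1
          · have h2 : Φ t (c i) = Φ 0 (c i) := by
              have h3 : Φ t (c i) = Φ t' (c i) := hEq
              rw [h3, h1]
              show Φ (len i) (c i) = _
              rw [(hcl i hi).1, h.flow.zero]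
            have h3 := (hcl i hi).2.1 ⟨ht.1.le, ht.2⟩ ⟨le_rfl, hlen i⟩ h2
            exact absurd h3 ht.1.ne'
          · exact (hcl i hi).2.1 ⟨ht.1.le, ht.2⟩ ⟨ht'.1, h1⟩ hEq
        · exact (harc i hi).2.2.1 ⟨ht.1.le, ht.2.le⟩ ht' hEq
      · exfalso
        have hEq' : Φ t (c i) = (γ q (par q t'), γ q (-(par q t'))) := hEq
        have hs := hparIcc q t' ht'
        have hT := hmemT i t ⟨ht.1.le, ht.2.le⟩
        have hB := hinnerB i t ht
        rw [hEq'] at hT hB
        rcases hs.1.eq_or_lt with h1 | h1
        · rw [← h1, hz q q.2] at hT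
          exact cpe_diag (q : Plane) (hTD hT)
        · rcases hs.2.eq_or_lt with h2 | h2
          · rw [h2] at hB
            exact hB (hendB q q.2)
          · exact hnotT q q.2 _ ⟨h1, h2⟩ hT
      · exfalso
        have hEq' : (γ p (par p t), γ p (-(par p t))) = Φ t' (c j) := hEq
        have hs := hparIoo p t ht
        have hT := hmemT j t' ht'
        rw [← hEq'] at hT
        exact hnotT p p.2 _ hs hT
      · have hEq' : (γ p (par p t), γ p (-(par p t))) = (γ q (par q t'), γ q (-(par q t'))) := hEq
        have hs := hparIoo p t ht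
        have hs' := hparIcc q t' ht'
        rcases hs'.1.eq_or_lt with h1 | h1
        · exfalso
          rw [← h1, hz q q.2] at hEq'
          have h2 := (harcD p p.2 _ ⟨hs.1, by linarith [hs.2, hs.1]⟩).1
          rw [hEq'] at h2
          exact cpe_diag (q : Plane) h2
        · obtain ⟨hpq, hst⟩ := hsame p p.2 q q.2 _ ⟨hs.1, hs.2.le⟩ _ ⟨h1, hs'.2⟩ hEq'
          have hpq' : p = q := Subtype.ext hpq
          subst hpq'
          exact ⟨rfl, hparinj p t t' hst⟩
    cover := hcover
    start := by
      rintro (i | p) (j | q) hD hEq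
      · have hEq' : Φ 0 (c i) = Φ 0 (c j) := hEq
        rw [horb i j 0 (h0mem i) 0 (h0mem j) hEq']
      · exfalso
        have hD' : Φ 0 (c i) ∈ DoubleSet F := hD
        by_cases hf : fw q
        · have h1 : Φ 0 (c i) = cc (Sum.inr q) 0 := hEq
          rw [h1, hfw0 q hf] at hD'
          exact cpe_diag (q : Plane) hD'
        · have h1 : Φ 0 (c i) = cc (Sum.inr q) 0 := hEq
          rw [hbw0 q hf] at h1
          exact hf ⟨i, h1⟩
      · exfalso
        have hD' : cc (Sum.inr p) 0 ∈ DoubleSet F := hD
        by_cases hf : fw p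
        · rw [hfw0 p hf] at hD'
          exact cpe_diag (p : Plane) hD'
        · have h1 : cc (Sum.inr p) 0 = Φ 0 (c j) := hEq
          rw [hbw0 p hf] at h1
          exact hf ⟨j, h1.symm⟩
      · have hD' : cc (Sum.inr p) 0 ∈ DoubleSet F := hD
        have hEq' : cc (Sum.inr p) 0 = cc (Sum.inr q) 0 := hEq
        by_cases hf : fw p
        · exfalso
          rw [hfw0 p hf] at hD'
          exact cpe_diag (p : Plane) hD'
        · by_cases hg : fw q
          · exfalso
            rw [hEq', hfw0 q hg] at hD'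
            exact cpe_diag (q : Plane) hD'
          · rw [hbw0 p hf, hbw0 q hg] at hEq'
            have h1 := hsame p p.2 q q.2 _ ⟨hpos p p.2, le_rfl⟩ _ ⟨hpos q q.2, le_rfl⟩ hEq'
            have hpq' : p = q := Subtype.ext h1.1
            rw [hpq']
    stop := by
      have hno : ∀ (i : ι) (q : caps F), fw q → Φ (len i) (c i) ≠ (γ q (ε q), γ q (-(ε q))) := by
        rintro i q ⟨j, hj⟩ hi
        have hji : j = i := horb j i 0 (h0mem j) (len i) (h1mem i) (hj.trans hi.symm)
        subst hji
        have hcl' : ¬ closed j := hnotcl j 0 (by rw [hj]; exact hendB q q.2)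
        exact (hlen j).ne ((harc j hcl').2.2.1 (h0mem j) (h1mem j) (hj.trans hi.symm))
      rintro (i | p) (j | q) hD hEq
      · have hEq' : Φ (len i) (c i) = Φ (len j) (c j) := hEq
        rw [horb i j (len i) (h1mem i) (len j) (h1mem j) hEq']
      · exfalso
        have hD' : Φ (len i) (c i) ∈ DoubleSet F := hD
        have h1 : Φ (len i) (c i) = cc (Sum.inr q) (ε q) := hEq
        by_cases hf : fw q
        · rw [hfw1 q hf] at h1
          exact hno i q hf h1
        · rw [h1, hbw1 q hf] at hD'
          exact cpe_diag (q : Plane) hD'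
      · exfalso
        have hD' : cc (Sum.inr p) (ε p) ∈ DoubleSet F := hD
        have h1 : cc (Sum.inr p) (ε p) = Φ (len j) (c j) := hEq
        by_cases hf : fw p
        · rw [hfw1 p hf] at h1
          exact hno j p hf h1.symm
        · rw [hbw1 p hf] at hD'
          exact cpe_diag (p : Plane) hD'
      · have hD' : cc (Sum.inr p) (ε p) ∈ DoubleSet F := hD
        have hEq' : cc (Sum.inr p) (ε p) = cc (Sum.inr q) (ε q) := hEq
        by_cases hf : fw p
        · by_cases hg : fw q
          · rw [hfw1 p hf, hfw1 q hg] at hEq'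
            have h1 := hsame p p.2 q q.2 _ ⟨hpos p p.2, le_rfl⟩ _ ⟨hpos q q.2, le_rfl⟩ hEq'
            have hpq' : p = q := Subtype.ext h1.1
            rw [hpq']
          · exfalso
            rw [hEq', hbw1 q hg] at hD'
            exact cpe_diag (q : Plane) hD'
        · exfalso
          rw [hbw1 p hf] at hD'
          exact cpe_diag (p : Plane) hD'
    out := by
      intro P hP hP2 hno
      -- an end point of the truncated set is the start of a path
      have key : ∀ q : caps F, P = (γ q (ε q), γ q (-(ε q))) → ∃ e, cc e 0 = P := by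
        intro q hq
        by_cases hf : fw q
        · obtain ⟨i, hi⟩ := hf
          exact ⟨Sum.inl i, by rw [hq]; exact hi⟩
        · exact ⟨Sum.inr q, by rw [hq]; exact hbw0 q hf⟩
      obtain ⟨e, t, ht, het⟩ := hcover P hP
      rcases ht.1.eq_or_lt with h1 | h1
      · exact ⟨e, by rw [← het, ← h1]⟩
      · rcases ht.2.eq_or_lt with h2 | h2
        · rcases e with i | q
          · have hP' : Φ (len i) (c i) = P := by rw [← het, h2]; rfl
            by_cases hi : closed i
            · refine ⟨Sum.inl i, ?_⟩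
              show Φ 0 (c i) = P
              rw [← hP', (hcl i hi).1, h.flow.zero]
            · have hB := (harc i hi).2.1
              rw [hP'] at hB
              rcases hB with hB | ⟨q, hq, hqP⟩
              · exact absurd hP2 fun hh => by
                  have h3 : ‖P.2‖ < 1 := mem_ball_zero_iff.1 hh
                  have h4 : ‖P.2‖ = 1 := mem_sphere_zero_iff_norm.1 hB.2
                  exact h3.ne h4
              · exact key ⟨q, hq⟩ hqP.symm
          · have hP' : cc (Sum.inr q) (ε q) = P := by rw [← het, h2]; rfl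
            by_cases hf : fw q
            · exact key q (by rw [← hP', hfw1 q hf])
            · exfalso
              rw [hbw1 q hf] at hP'
              rw [← hP'] at hP
              exact cpe_diag (q : Plane) hP
        · exact absurd het (hno e t ⟨h1, h2⟩)
    into := by
      intro P hP hP2 hno
      have key : ∀ q : caps F, P = (γ q (ε q), γ q (-(ε q))) → ∃ e, cc e (bb e) = P := by
        intro q hq
        by_cases hf : fw q
        · exact ⟨Sum.inr q, by rw [hq]; exact hfw1 q hf⟩
        · obtain ⟨i, hi⟩ := hbw q q.2 hf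
          exact ⟨Sum.inl i, by rw [hq]; exact hi⟩
      obtain ⟨e, t, ht, het⟩ := hcover P hP
      rcases ht.2.eq_or_lt with h2 | h2
      · exact ⟨e, by rw [← het, h2]⟩
      · rcases ht.1.eq_or_lt with h1 | h1
        · rcases e with i | q
          · have hP' : Φ 0 (c i) = P := by rw [← het, ← h1]; rfl
            by_cases hi : closed i
            · refine ⟨Sum.inl i, ?_⟩
              show Φ (len i) (c i) = P
              rw [← hP', (hcl i hi).1, h.flow.zero]
            · have hB := (harc i hi).1
              rw [h.flow.zero] at hP'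
              rw [hP'] at hB
              rcases hB with hB | ⟨q, hq, hqP⟩
              · exact absurd hP2 fun hh => by
                  have h3 : ‖P.2‖ < 1 := mem_ball_zero_iff.1 hh
                  have h4 : ‖P.2‖ = 1 := mem_sphere_zero_iff_norm.1 hB.2
                  exact h3.ne h4
              · exact key ⟨q, hq⟩ hqP.symm
          · have hP' : cc (Sum.inr q) 0 = P := by rw [← het, ← h1]
            by_cases hf : fw q
            · exfalso
              rw [hfw0 q hf] at hP'
              rw [← hP'] at hP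
              exact cpe_diag (q : Plane) hP
            · exact key q (by rw [← hP', hbw0 q hf])
        · exact absurd het (hno e t ⟨h1, h2⟩) }

end Pool.Agent.Lib_MP_752436_cu
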