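import Pool.Agent.Lib_MP_752436_cu.Defs
import Pool.Agent.Lib_MP_752436_ch.TrapCycle

/-!
Piece U8: every trap carries a cycle.
-/

open MeasureTheory Metric Set Filter
open scoped ContDiff Topology

namespace Pool.Agent.Lib_MP_752436_cu

open Pool.Agent.Lib_MP_752436_gt Pool.Agent.Lib_MP_752436_tp Pool.Agent.Lib_MP_752436_rb
  Pool.Agent.Lib_MP_752436_ch Pool.Agent.Lib_MP_752436_ts

section

variable {D : Set (Plane × Plane)} {Q Z : Set Plane}

/-- The points above the trap together with the umbrellas in the trap. -/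
private theorem ctc_above_compact (hS : CStrict D Q) (hZ : CTrap D Q Z) :
    IsCompact ({x : Plane | ∃ y ∈ Z, (x, y) ∈ D} ∪ Q ∩ Z) := by
  have h : {x : Plane | ∃ y ∈ Z, (x, y) ∈ D} ∪ Q ∩ Z =
      Prod.fst '' ((D ∪ (fun p => (p, p)) '' Q) ∩ Prod.snd ⁻¹' Z) := by
    ext x
    constructor
    · rintro (⟨y, hy, hxy⟩ | ⟨hx, hz⟩)
      · exact ⟨(x, y), ⟨Or.inl hxy, hy⟩, rfl⟩
      · exact ⟨(x, x), ⟨Or.inr ⟨x, hx, rfl⟩, hz⟩, rfl⟩
    · rintro ⟨⟨x', y⟩, ⟨hxy | ⟨p, hp, he⟩, hy⟩, rfl⟩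
      · exact Or.inl ⟨y, hy, hxy⟩
      · have he' : (p, p) = (x', y) := he
        obtain ⟨rfl, rfl⟩ := Prod.mk.inj he'
        exact Or.inr ⟨hp, hy⟩
  rw [h]
  have h2 : IsClosed (Prod.snd ⁻¹' Z : Set (Plane × Plane)) :=
    hZ.compact.isClosed.preimage continuous_snd
  exact (hS.compact.inter_right h2).image continuous_fst

private theorem ctc_eq : tcZ D Z = Z ∪ ({x : Plane | ∃ y ∈ Z, (x, y) ∈ D} ∪ Q ∩ Z) := by
  ext x
  constructor
  · rintro (h | h)
    · exact Or.inl h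
    · exact Or.inr (Or.inl h)
  · rintro (h | h | h)
    · exact Or.inl h
    · exact Or.inr h
    · exact Or.inl h.2

private theorem ctc_compact (hS : CStrict D Q) (hZ : CTrap D Q Z) : IsCompact (tcZ D Z) := by
  rw [ctc_eq (Q := Q)]
  exact hZ.compact.union (ctc_above_compact hS hZ)

private theorem ctc_sub (hS : CStrict D Q) (hZ : CTrap D Q Z) :
    tcZ D Z ⊆ ball (0 : Plane) 1 := by
  rintro x (hx | ⟨y, _, hxy⟩)
  · exact hZ.sub hx
  · exact hS.fstMem (x, y) hxy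

private theorem ctc_up (hS : CStrict D Q) {x y : Plane} (hy : y ∈ tcZ D Z) (hxy : (x, y) ∈ D) :
    x ∈ tcZ D Z := by
  rcases hy with hy | ⟨z, hz, hyz⟩
  · exact Or.inr ⟨y, hy, hxy⟩
  · exact Or.inr ⟨z, hz, hS.trans _ _ _ hxy hyz⟩

private theorem ctc_frontier (hS : CStrict D Q) (hZ : CTrap D Q Z) {x : Plane}
    (hx : x ∈ frontier (tcZ D Z)) : x ∈ Q ∨ ∃ y ∈ Z, (x, y) ∈ D := by
  rw [ctc_eq (Q := Q)] at hx
  have h1 := frontier_union_subset Z ({x : Plane | ∃ y ∈ Z, (x, y) ∈ D} ∪ Q ∩ Z) hx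
  rcases h1 with ⟨h1, _⟩ | ⟨_, h1⟩
  · exact hZ.above x h1
  · rcases (ctc_above_compact hS hZ).isClosed.frontier_subset h1 with h | h
    · exact Or.inr h
    · exact Or.inl h.1

/-- The lower point of a pair with lower point in the set: interior, or above the trap. -/
private theorem ctc_mem_cases (hS : CStrict D Q) (hZ : CTrap D Q Z) {P : Plane × Plane}
    (hP : P ∈ D) (hx : P.2 ∈ tcZ D Z) :
    P.2 ∈ interior (tcZ D Z) ∨ ∃ y ∈ Z, (P.2, y) ∈ D := by
  by_cases h : P.2 ∈ interior (tcZ D Z)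
  · exact Or.inl h
  · rcases ctc_frontier hS hZ (x := P.2) ⟨subset_closure hx, h⟩ with h1 | h1
    · exact absurd h1 (hS.sndQ P hP)
    · exact Or.inr h1

private theorem ctc_bottom (hS : CStrict D Q) (hZ : CTrap D Q Z) {x y w : Plane}
    (hxy : (x, y) ∈ D) (hyw : (y, w) ∈ D) (hw : w ∈ tcZ D Z) : w ∈ interior (tcZ D Z) := by
  rcases ctc_mem_cases hS hZ (P := (y, w)) hyw hw with h | ⟨z, _, hz⟩
  · exact h
  · exact absurd hz (hS.noFour _ _ _ _ hxy hyw)

variable {κ : Type} {c : κ → ℝ → Plane × Plane} {a b : κ → ℝ}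

private theorem ctc_inner (hS : CStrict D Q) (hE : CEdges c a b D Q) (hZ : CTrap D Q Z)
    {e : κ} {t : ℝ} (ht : t ∈ Ioo (a e) (b e)) (h : (c e t).2 ∈ tcZ D Z) :
    (c e t).2 ∈ interior (tcZ D Z) ∧ (c e t).2 ∈ Z := by
  have hD : c e t ∈ D := hE.pedges.inner e t ht
  have hno : ¬ ∃ y ∈ Z, ((c e t).2, y) ∈ D := by
    rintro ⟨y, _, hy⟩
    exact hE.novertex e t ht ⟨hD, y, Or.inl hy⟩
  constructor
  · rcases ctc_mem_cases hS hZ hD h with h | h
    · exact h
    · exact absurd h hno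
  · rcases h with h | h
    · exact h
    · exact absurd h hno

private theorem ctc_all (hS : CStrict D Q) (hE : CEdges c a b D Q) (hZ : CTrap D Q Z)
    {e : κ} {t : ℝ} (ht : t ∈ Ioo (a e) (b e)) (h : (c e t).2 ∈ tcZ D Z) :
    ∀ s ∈ Ioo (a e) (b e), (c e s).2 ∈ tcZ D Z := by
  have hcont : Continuous fun s => (c e s).2 :=
    continuous_snd.comp (hE.pedges.smooth e).continuous
  have hpre : IsPreconnected (Ioo (a e) (b e)) := isPreconnected_Ioo
  by_contra hcon
  push Not at hcon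
  obtain ⟨s, hs, hns⟩ := hcon
  have hu : IsOpen ((fun s => (c e s).2) ⁻¹' interior (tcZ D Z)) := isOpen_interior.preimage hcont
  have hv : IsOpen ((fun s => (c e s).2) ⁻¹' (tcZ D Z)ᶜ) :=
    (ctc_compact hS hZ).isClosed.isOpen_compl.preimage hcont
  obtain ⟨r, _, hr1, hr2⟩ := hpre _ _ hu hv (by
    intro r hr
    by_cases h : (c e r).2 ∈ tcZ D Z
    · exact Or.inl (ctc_inner hS hE hZ hr h).1
    · exact Or.inr h) ⟨t, ht, (ctc_inner hS hE hZ ht h).1⟩ ⟨s, hs, hns⟩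
  exact hr2 (interior_subset hr1)

/-- An edge near a pair with lower point in the interior. -/
private theorem ctc_near (hS : CStrict D Q) (hE : CEdges c a b D Q) (hZ : CTrap D Q Z)
    {e : κ} {t : ℝ} (ht : t ∈ Icc (a e) (b e)) (h : (c e t).2 ∈ interior (tcZ D Z)) :
    ∀ s ∈ Ioo (a e) (b e), (c e s).2 ∈ tcZ D Z := by
  have hcont : Continuous fun s => (c e s).2 :=
    continuous_snd.comp (hE.pedges.smooth e).continuous
  have hu : (fun s => (c e s).2) ⁻¹' interior (tcZ D Z) ∈ 𝓝 t :=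
    hcont.continuousAt.preimage_mem_nhds (isOpen_interior.mem_nhds h)
  have hcl : t ∈ closure (Ioo (a e) (b e)) := by
    rw [closure_Ioo (hE.pedges.lt e).ne]
    exact ht
  obtain ⟨r, hr1, hr2⟩ := mem_closure_iff_nhds.1 hcl _ hu
  exact ctc_all hS hE hZ hr2 (interior_subset hr1)

private theorem ctc_ends (hS : CStrict D Q) (hE : CEdges c a b D Q) (hZ : CTrap D Q Z)
    {e : κ} (h : ∀ s ∈ Ioo (a e) (b e), (c e s).2 ∈ tcZ D Z) :
    ∀ s ∈ Icc (a e) (b e), (c e s).2 ∈ tcZ D Z := by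
  have hcont : Continuous fun s => (c e s).2 :=
    continuous_snd.comp (hE.pedges.smooth e).continuous
  intro s hs
  have hcl : s ∈ closure (Ioo (a e) (b e)) := by
    rw [closure_Ioo (hE.pedges.lt e).ne]
    exact hs
  have := (ctc_compact hS hZ).isClosed.closure_subset_iff.2 (image_subset_iff.2 h)
  exact this (image_closure_subset_closure_image hcont ⟨s, hcl, rfl⟩)

private theorem ctc_start_mem (hE : CEdges c a b D Q)
    {e : κ} (hD : c e (a e) ∈ D) (h : (c e (a e)).2 ∈ tcZ D Z) :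
    c e (a e) ∈ tcN D Z c a b := by
  refine ⟨hD, h, fun e' t ht he => ?_⟩
  obtain ⟨rfl, rfl⟩ := hE.pedges.once e' e t ht (a e) ⟨le_rfl, (hE.pedges.lt e).le⟩ he
  exact lt_irrefl _ ht.1

private theorem ctc_end_mem (hE : CEdges c a b D Q)
    {e : κ} (hD : c e (b e) ∈ D) (h : (c e (b e)).2 ∈ tcZ D Z) :
    c e (b e) ∈ tcN D Z c a b := by
  refine ⟨hD, h, fun e' t ht he => ?_⟩
  obtain ⟨rfl, rfl⟩ := hE.pedges.once e' e t ht (b e) ⟨(hE.pedges.lt e).le, le_rfl⟩ he
  exact lt_irrefl _ ht.2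

private theorem ctc_vertex_mem (hE : CEdges c a b D Q) {P : Plane × Plane}
    (hP : P ∈ vertices D) (h : P.2 ∈ tcZ D Z) : P ∈ tcN D Z c a b :=
  ⟨hP.1, h, fun e t ht he => hE.novertex e t ht (he ▸ hP)⟩

private theorem ctc3_mem (hS : CStrict D Q) (hE : CEdges c a b D Q) {P : Plane × Plane}
    (hP : P ∈ tc3 D Z) : P ∈ tcN D Z c a b := by
  obtain ⟨h, y, h1, h2⟩ := hP
  exact ctc_vertex_mem hE ⟨hS.trans _ _ _ h1 h2, y, Or.inr (Or.inr ⟨h1, h2⟩)⟩ h

/-- The outgoing edge of a pair with lower point in the interior. -/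
private theorem ctc_out (hS : CStrict D Q) (hE : CEdges c a b D Q) (hZ : CTrap D Q Z)
    {P : Plane × Plane} (hP : P ∈ tcN D Z c a b) (hi : P.2 ∈ interior (tcZ D Z)) :
    ∃ e, c e (a e) = P ∧ ∀ s ∈ Ioo (a e) (b e), (c e s).2 ∈ tcZ D Z := by
  obtain ⟨e, he⟩ := hE.pedges.out P hP.1 (ctc_sub hS hZ hP.2.1) hP.2.2
  exact ⟨e, he, ctc_near hS hE hZ ⟨le_rfl, (hE.pedges.lt e).le⟩ (by rw [he]; exact hi)⟩

private theorem ctc_into (hS : CStrict D Q) (hE : CEdges c a b D Q) (hZ : CTrap D Q Z)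
    {P : Plane × Plane} (hP : P ∈ tcN D Z c a b) (hi : P.2 ∈ interior (tcZ D Z)) :
    ∃ e, c e (b e) = P ∧ ∀ s ∈ Ioo (a e) (b e), (c e s).2 ∈ tcZ D Z := by
  obtain ⟨e, he⟩ := hE.pedges.into P hP.1 (ctc_sub hS hZ hP.2.1) hP.2.2
  exact ⟨e, he, ctc_near hS hE hZ ⟨(hE.pedges.lt e).le, le_rfl⟩ (by rw [he]; exact hi)⟩

/-- The pair from which the edge assigned to `P` starts. -/
private theorem ctc_assign (hS : CStrict D Q) (hE : CEdges c a b D Q)
    (hZ : CTrap D Q Z) {P : Plane × Plane} (hP : P ∈ tcN D Z c a b) :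
    ∃ e, (∀ s ∈ Ioo (a e) (b e), (c e s).2 ∈ tcZ D Z) ∧
      (c e (a e) ∈ D ∧ (c e (a e)).2 ∈ interior (tcZ D Z)) ∧
      (c e (a e) = P ∨ (P.2 ∉ interior (tcZ D Z) ∧ (c e (a e)).1 = P.1 ∧
        (P.2, (c e (a e)).2) ∈ D ∧ c e (a e) ∈ tc3 D Z)) := by
  by_cases hi : P.2 ∈ interior (tcZ D Z)
  · obtain ⟨e, he, h⟩ := ctc_out hS hE hZ hP hi
    exact ⟨e, h, by rw [he]; exact ⟨hP.1, hi⟩, Or.inl he⟩
  · rcases ctc_mem_cases hS hZ hP.1 hP.2.1 with h | ⟨w, hw, hPw⟩
    · exact absurd h hi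
    · have hw1 : w ∈ tcZ D Z := Or.inl hw
      have h3 : (P.1, w) ∈ tc3 D Z := ⟨hw1, P.2, hP.1, hPw⟩
      have hwi : w ∈ interior (tcZ D Z) := ctc_bottom hS hZ hP.1 hPw hw1
      have hN := ctc3_mem hS hE h3
      obtain ⟨e, he, h⟩ := ctc_out hS hE hZ hN hwi
      refine ⟨e, h, by rw [he]; exact ⟨hN.1, hwi⟩,
        Or.inr ⟨hi, by rw [he], by rw [he]; exact hPw, ?_⟩⟩
      rw [he]
      exact h3

/-- Some pair has its lower point in the trap. -/
private theorem ctc_exists (hS : CStrict D Q) (hZ : CTrap D Q Z) : ∃ x, ∃ y ∈ Z, (x, y) ∈ D := by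
  by_contra hcon
  push Not at hcon
  have hfr : frontier Z ⊆ Q := by
    intro x hx
    rcases hZ.above x hx with h | ⟨y, hy, hxy⟩
    · exact h
    · exact absurd hxy (hcon x y hy)
  have hrank : 1 < Module.rank ℝ Plane := by
    rw [← Module.finrank_eq_rank]
    simp [Plane]
  have hconn : IsPreconnected (Qᶜ : Set Plane) :=
    (hS.finite.countable.isPathConnected_compl_of_one_lt_rank hrank).isConnected.isPreconnected
  have hcov : (Qᶜ : Set Plane) ⊆ interior Z ∪ Zᶜ := by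
    intro x hx
    by_cases h : x ∈ Z
    · left
      by_contra hi
      exact hx (hfr ⟨subset_closure h, hi⟩)
    · exact Or.inr h
  -- a point outside the ball and outside `Q`
  have hout : (Qᶜ ∩ Zᶜ : Set Plane).Nonempty := by
    refine ⟨(EuclideanSpace.single 0 2 : Plane), fun h => ?_, fun h => ?_⟩
    · have h2 := hS.sub h
      simp at h2
    · have h2 := hZ.sub h
      simp at h2
  have hdisj : ¬ (Qᶜ ∩ interior Z : Set Plane).Nonempty := by
    intro hne
    obtain ⟨r, _, hr1, hr2⟩ := hconn _ _ isOpen_interior hZ.compact.isClosed.isOpen_compl hcov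
      hne hout
    exact hr2 (interior_subset hr1)
  have hsub : Z ⊆ Q := by
    intro x hx
    by_contra h
    rcases hcov h with h1 | h1
    · exact hdisj ⟨x, h, h1⟩
    · exact h1 hx
  obtain ⟨x, hx⟩ := hZ.nonempty
  have h1 := hZ.cap x hx (hsub hx)
  have h2 : (Z \ {x}).Finite := (hS.finite.subset hsub).subset sdiff_subset
  rw [h2.isClosed.closure_eq] at h1
  exact h1.2 rfl

end

theorem ctrap_cycle {D : Set (Plane × Plane)} {Q : Set Plane} (hS : CStrict D Q) {κ : Type}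
    [Fintype κ] {c : κ → ℝ → Plane × Plane} {a b : κ → ℝ} (hE : CEdges c a b D Q) {Z : Set Plane}
    (hZ : CTrap D Q Z) :
    ∃ n : κ → ℝ, n ≠ 0 ∧ (∀ e, n e ≠ 0 → ∀ t ∈ Ioo (a e) (b e), (c e t).2 ∈ Z) ∧
      IsCyc c a b n := by
  classical
  set Z1 := tcZ D Z with hZ1
  set S : Finset κ := Finset.univ.filter fun e => ∀ s ∈ Ioo (a e) (b e), (c e s).2 ∈ Z1 with hSdef
  have hSmem : ∀ e, e ∈ S ↔ ∀ s ∈ Ioo (a e) (b e), (c e s).2 ∈ Z1 := by
    intro e
    simp [hSdef]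
  have hSZ : ∀ e ∈ S, ∀ t ∈ Ioo (a e) (b e), (c e t).2 ∈ Z := fun e he t ht =>
    (ctc_inner hS hE hZ ht ((hSmem e).1 he t ht)).2
  have hbd : ∀ e ψ, bdry c a b e ψ = (tcv (c e (b e)) - tcv (c e (a e))) ψ := by
    intro e ψ
    simp [bdry, tcv]
  have hdiag : ∀ P : Plane × Plane, (∃ p ∈ Q, P = (p, p)) → tcv P = 0 := by
    rintro _ ⟨p, _, rfl⟩
    funext ψ
    simp [tcv]
  -- it is enough to find the relation
  have key : (∃ n : κ → ℝ, n ≠ 0 ∧ (∀ e, n e ≠ 0 → e ∈ S) ∧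
      ∑ e, n e • (tcv (c e (b e)) - tcv (c e (a e))) = 0) →
      ∃ n : κ → ℝ, n ≠ 0 ∧ (∀ e, n e ≠ 0 → ∀ t ∈ Ioo (a e) (b e), (c e t).2 ∈ Z) ∧
      IsCyc c a b n := by
    rintro ⟨n, hn, hs, h⟩
    refine ⟨n, hn, fun e he => hSZ e (hs e he), fun ψ => ?_⟩
    have := congrFun h ψ
    simp only [Finset.sum_apply, Pi.smul_apply, Pi.zero_apply, smul_eq_mul] at this
    rw [← this]
    exact Finset.sum_congr rfl fun e _ => by rw [hbd]
  apply key
  have hstart : ∀ e ∈ S, c e (a e) ∈ D → c e (a e) ∈ tcN D Z c a b := fun e he hD =>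
    ctc_start_mem hE hD (ctc_ends hS hE hZ ((hSmem e).1 he) _ ⟨le_rfl, (hE.pedges.lt e).le⟩)
  have hend : ∀ e ∈ S, c e (b e) ∈ D → c e (b e) ∈ tcN D Z c a b := fun e he hD =>
    ctc_end_mem hE hD (ctc_ends hS hE hZ ((hSmem e).1 he) _ ⟨(hE.pedges.lt e).le, le_rfl⟩)
  by_cases hcase : ∃ e ∈ S, ¬ (c e (a e) ∈ D ∧ (c e (a e)).2 ∈ interior Z1)
  · -- more edges than nodes
    obtain ⟨e0, he0, hi0⟩ := hcase
    have hassign : ∀ P : ↥(tcN D Z c a b \ tc3 D Z), ∃ e ∈ S,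
        (c e (a e) ∈ D ∧ (c e (a e)).2 ∈ interior Z1) ∧
        (c e (a e) = P ∨ (P.1.2 ∉ interior (tcZ D Z) ∧ (c e (a e)).1 = P.1.1 ∧
        (P.1.2, (c e (a e)).2) ∈ D ∧ c e (a e) ∈ tc3 D Z)) := by
      intro P
      obtain ⟨e, h1, h2, h3⟩ := ctc_assign hS hE hZ P.2.1
      exact ⟨e, (hSmem e).2 h1, h2, h3⟩
    choose g hg1 hg2 hg3 using hassign
    have hinj : Function.Injective g := by
      intro P P' hPQ
      have hP := hg3 P
      have hQ := hg3 P'
      rw [← hPQ] at hQ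
      apply Subtype.ext
      rcases hP with hP | ⟨hP1, hP2, hP3, hP4⟩ <;> rcases hQ with hQ | ⟨hQ1, hQ2, hQ3, hQ4⟩
      · rw [← hP, ← hQ]
      · exact absurd (hP ▸ hQ4) P.2.2
      · exact absurd (hQ ▸ hP4) P'.2.2
      · have h1 : P.1.1 = P'.1.1 := by rw [← hP2, ← hQ2]
        by_cases h2 : P.1.2 = P'.1.2
        · exact Prod.ext h1 h2
        · exfalso
          have hPD : (P.1.1, P.1.2) ∈ D := P.2.1.1
          have hQD : (P.1.1, P'.1.2) ∈ D := by rw [h1]; exact P'.2.1.1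
          rcases hS.above _ _ _ hPD hQD h2 with h | h
          · exact hS.noFour _ _ _ _ hPD h hQ3
          · exact hS.noFour _ _ _ _ hQD h hP3
    have : Finite ↥(tcN D Z c a b \ tc3 D Z) := Finite.of_injective g hinj
    have := Fintype.ofFinite ↥(tcN D Z c a b \ tc3 D Z)
    have hcard : Fintype.card ↥(tcN D Z c a b \ tc3 D Z) < S.card := by
      have h1 : (Finset.univ.image g) ⊆ S.erase e0 := by
        intro e he
        obtain ⟨P, _, rfl⟩ := Finset.mem_image.1 he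
        refine Finset.mem_erase.2 ⟨?_, hg1 P⟩
        rintro h
        exact hi0 (h ▸ hg2 P)
      have h2 := Finset.card_le_card h1
      rw [Finset.card_image_of_injective _ hinj, Finset.card_erase_of_mem he0,
        Finset.card_univ] at h2
      have h3 : 0 < S.card := Finset.card_pos.2 ⟨e0, he0⟩
      omega
    have hspan : ∀ P ∈ tcN D Z c a b, tcv P ∈ Submodule.span ℝ
        (range fun Q : ↥(tcN D Z c a b \ tc3 D Z) => tcv Q.1) := by
      intro P hP
      by_cases h3 : P ∈ tc3 D Z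
      · obtain ⟨hw, y, h1, h2⟩ := h3
        have hy : y ∈ tcZ D Z := ctc_up hS hw h2
        have hm1 : (P.1, y) ∈ tcN D Z c a b \ tc3 D Z := by
          refine ⟨ctc_vertex_mem hE ⟨h1, P.2, Or.inl h2⟩ hy, ?_⟩
          rintro ⟨_, z, hz1, hz2⟩
          exact hS.noFour _ _ _ _ hz1 hz2 h2
        have hm2 : (y, P.2) ∈ tcN D Z c a b \ tc3 D Z := by
          refine ⟨ctc_vertex_mem hE ⟨h2, P.1, Or.inr (Or.inl h1)⟩ hw, ?_⟩
          rintro ⟨_, z, hz1, hz2⟩
          exact hS.noFour _ _ _ _ h1 hz1 hz2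
        have : tcv P = tcv (P.1, y) + tcv (y, P.2) := by
          funext ψ
          simp [tcv]
        rw [this]
        exact Submodule.add_mem _ (Submodule.subset_span ⟨⟨_, hm1⟩, rfl⟩)
          (Submodule.subset_span ⟨⟨_, hm2⟩, rfl⟩)
      · exact Submodule.subset_span ⟨⟨P, hP, h3⟩, rfl⟩
    have hspanS : ∀ e ∈ S, tcv (c e (a e)) ∈ Submodule.span ℝ
        (range fun Q : ↥(tcN D Z c a b \ tc3 D Z) => tcv Q.1) := by
      intro e he
      rcases hE.pedges.left e with h | h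
      · exact hspan _ (hstart e he h)
      · rw [hdiag _ h]
        exact Submodule.zero_mem _
    have hspanE : ∀ e ∈ S, tcv (c e (b e)) ∈ Submodule.span ℝ
        (range fun Q : ↥(tcN D Z c a b \ tc3 D Z) => tcv Q.1) := by
      intro e he
      rcases hE.pedges.right e with h | h
      · exact hspan _ (hend e he h)
      · rw [hdiag _ h]
        exact Submodule.zero_mem _
    exact tc_relation S (fun e => tcv (c e (b e)) - tcv (c e (a e)))
      (fun Q : ↥(tcN D Z c a b \ tc3 D Z) => tcv Q.1)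
      (fun e he => Submodule.sub_mem _ (hspanE e he) (hspanS e he)) hcard
  · -- a permutation of the edges
    push Not at hcase
    have hprev : ∀ e : S, ∃ e' : S, c e' (b e') = c e (a e) := by
      intro e
      obtain ⟨hD, hi⟩ := hcase e e.2
      obtain ⟨e', h1, h2⟩ := ctc_into hS hE hZ (hstart e e.2 hD) hi
      exact ⟨⟨e', (hSmem e').2 h2⟩, h1⟩
    choose p hp using hprev
    have hinj : Function.Injective p := by
      intro e e' h
      have h1 := hp e
      have h2 := hp e'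
      rw [h] at h1
      exact Subtype.ext (hE.pedges.start _ _ (hcase e e.2).1 (h1.symm.trans h2))
    have hbij : Function.Bijective p := Finite.injective_iff_bijective.1 hinj
    refine ⟨fun e => if e ∈ S then 1 else 0, ?_, ?_, ?_⟩
    · -- there is an edge
      obtain ⟨x, y, hy, hxy⟩ := ctc_exists hS hZ
      have hex : ∃ P ∈ D, P.2 ∈ interior Z1 := by
        rcases ctc_mem_cases hS hZ (P := (x, y)) hxy (Or.inl hy) with h | ⟨w, hw, hyw⟩
        · exact ⟨(x, y), hxy, h⟩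
        · exact ⟨(y, w), hyw, ctc_bottom hS hZ hxy hyw (Or.inl hw)⟩
      obtain ⟨P, hPD, hPi⟩ := hex
      obtain ⟨e, t, ht, he⟩ := hE.pedges.cover P hPD
      have heS : e ∈ S := (hSmem e).2 (ctc_near hS hE hZ ht (by rw [he]; exact hPi))
      intro h
      have := congrFun h e
      simp [heS] at this
    · intro e he
      by_contra h
      simp [h] at he
    · have h1 : ∑ e, (if e ∈ S then (1 : ℝ) else 0) • (tcv (c e (b e)) - tcv (c e (a e))) =
          ∑ e : S, (tcv (c e (b e)) - tcv (c e (a e))) := by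
        rw [← Finset.sum_subset (Finset.subset_univ S)]
        · rw [← Finset.sum_coe_sort S]
          refine Finset.sum_congr rfl fun e _ => ?_
          simp
        · intro e _ he
          simp [he]
      rw [h1, Finset.sum_sub_distrib]
      have h2 : ∑ e : S, tcv (c e (a e)) = ∑ e : S, tcv (c e (b e)) := by
        rw [← hbij.sum_comp (fun e : S => tcv (c e (b e)))]
        exact Finset.sum_congr rfl fun e _ => by rw [hp e]
      rw [h2, sub_self]

end Pool.Agent.Lib_MP_752436_cu
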