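import Pool.Agent.Lib_MP_752436_cu.CapArcs
import Pool.Agent.Lib_MP_752436_ch.TameGen

/-!
Piece U4: finitely many triple points.
-/

open MeasureTheory Metric Set Filter
open scoped ContDiff Topology

namespace Pool.Agent.Lib_MP_752436_cu

open Pool.Agent.Lib_MP_752436_gt Pool.Agent.Lib_MP_752436_tp Pool.Agent.Lib_MP_752436_rb
  Pool.Agent.Lib_MP_752436_ch Pool.Agent.Lib_MP_752436_ts

variable {F : Plane → EuclideanSpace ℝ (Fin 4)}

theorem ct_ne {x y : Plane} (h : (x, y) ∈ DoubleSet F) : x ≠ y := by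
  rintro rfl
  exact lt_irrefl _ h.2.2.2

/-- Triple points are isolated. -/
theorem ct_isolated (hF : IsSliceDisc F) (hU : Umb F) {p : Plane × Plane × Plane}
    (hp : Triple F p.1 p.2.1 p.2.2) :
    ∃ N ∈ 𝓝 p, ∀ q ∈ N, Triple F q.1 q.2.1 q.2.2 → q = p := by
  set f := shadow F with hf
  have hsm : ContDiff ℝ ∞ f := od_contDiff_shadow hF
  set P1 : Plane × Plane × Plane →L[ℝ] Plane := ContinuousLinearMap.fst ℝ Plane (Plane × Plane)
    with hP1
  set P2 : Plane × Plane × Plane →L[ℝ] Plane := (ContinuousLinearMap.fst ℝ Plane Plane).comp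
    (ContinuousLinearMap.snd ℝ Plane (Plane × Plane)) with hP2
  set P3 : Plane × Plane × Plane →L[ℝ] Plane := (ContinuousLinearMap.snd ℝ Plane Plane).comp
    (ContinuousLinearMap.snd ℝ Plane (Plane × Plane)) with hP3
  have hs : ∀ P : Plane × Plane × Plane →L[ℝ] Plane,
      HasStrictFDerivAt (fun q => f (P q)) ((fderiv ℝ f (P p)).comp P) p := fun P =>
    ((hsm.contDiffAt (x := P p)).hasStrictFDerivAt (by simp)).comp p P.hasStrictFDerivAt
  have hG : HasStrictFDerivAt (fun q => (f (P1 q) - f (P2 q), f (P2 q) - f (P3 q)))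
      (((fderiv ℝ f (P1 p)).comp P1 - (fderiv ℝ f (P2 p)).comp P2).prod
        ((fderiv ℝ f (P2 p)).comp P2 - (fderiv ℝ f (P3 p)).comp P3)) p :=
    ((hs P1).sub (hs P2)).prodMk ((hs P2).sub (hs P3))
  have himm1 : ∀ v, fderiv ℝ f p.2.1 v = 0 → v = 0 := fun v hv => by
    by_contra h0
    exact hU.gen.immersion _ hp.1.2.1 _ hp.1.1 (ct_ne hp.1).symm hp.1.2.2.1.symm v h0 hv
  have himm2 : ∀ v, fderiv ℝ f p.2.2 v = 0 → v = 0 := fun v hv => by
    by_contra h0
    exact hU.gen.immersion _ hp.2.2.1 _ hp.2.1 (ct_ne hp.2).symm hp.2.2.2.1.symm v h0 hv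
  have hinj : Function.Injective (((fderiv ℝ f (P1 p)).comp P1 - (fderiv ℝ f (P2 p)).comp P2).prod
        ((fderiv ℝ f (P2 p)).comp P2 - (fderiv ℝ f (P3 p)).comp P3)) := by
    rw [injective_iff_map_eq_zero]
    rintro ⟨u, v, w⟩ huw
    have h3 : fderiv ℝ f p.1 u - fderiv ℝ f p.2.1 v = 0 := congrArg Prod.fst huw
    have h4 : fderiv ℝ f p.2.1 v - fderiv ℝ f p.2.2 w = 0 := congrArg Prod.snd huw
    have h5 := sub_eq_zero.1 h3
    have h6 := sub_eq_zero.1 h4
    have hu : u = 0 := hU.triple _ _ _ hp u v w h5 h6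
    have h7 : fderiv ℝ f p.2.1 v = 0 := by rw [← h5, hu, map_zero]
    have hv : v = 0 := himm1 v h7
    have h8 : fderiv ℝ f p.2.2 w = 0 := by rw [← h6, h7]
    have hw : w = 0 := himm2 w h8
    rw [hu, hv, hw]
    rfl
  obtain ⟨N, hN, hNinj⟩ := eventually_injOn_of_strict hG hinj
  refine ⟨N, hN, fun q hq hqT => hNinj hq (mem_of_mem_nhds hN) ?_⟩
  have e : ∀ r : Plane × Plane × Plane, Triple F r.1 r.2.1 r.2.2 →
      (f (P1 r) - f (P2 r), f (P2 r) - f (P3 r)) = (0, 0) := fun r hr => by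
    have h1 : f (P1 r) = f (P2 r) := hr.1.2.2.1
    have h2 : f (P2 r) = f (P3 r) := hr.2.2.2.1
    rw [h1, h2, sub_self]
  exact (e q hqT).trans (e p hp).symm

/-- A `C¹` curve with nonzero velocity is injective near `0`. -/
theorem ct_injOn {γ : ℝ → Plane} (hγ : ContDiff ℝ 1 γ) (h0 : deriv γ 0 ≠ 0) :
    ∃ δ > 0, InjOn γ (Ioo (-δ) δ) := by
  have h1 : HasStrictDerivAt γ (deriv γ 0) 0 := by
    have h2 := (hγ.contDiffAt (x := (0 : ℝ))).hasStrictDerivAt (by simp)
    exact h2
  have h3 : Function.Injective ((1 : ℝ →L[ℝ] ℝ).smulRight (deriv γ 0)) := by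
    rw [injective_iff_map_eq_zero]
    intro t ht
    have : t • deriv γ 0 = 0 := by simpa using ht
    exact (smul_eq_zero.1 this).resolve_right h0
  obtain ⟨N, hN, hinj⟩ := eventually_injOn_of_strict h1.hasStrictFDerivAt h3
  obtain ⟨δ, hδ, hb⟩ := Metric.mem_nhds_iff.1 hN
  refine ⟨δ, hδ, hinj.mono fun t ht => hb ?_⟩
  rw [mem_ball_zero_iff, Real.norm_eq_abs, abs_lt]
  exact ht

/-- There are no triple points near an umbrella. -/
theorem ct_no_triple {p u : Plane} {ε : ℝ} {γ : ℝ → Plane} {O : Set (Plane × Plane)}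
    (h : CapArc F p u ε γ O) :
    ∀ᶠ q : Plane × Plane × Plane in 𝓝 (p, p, p), ¬ Triple F q.1 q.2.1 q.2.2 := by
  have hε := h.pos
  obtain ⟨δ, hδ, hinj⟩ := ct_injOn h.smooth (h.regular 0 ⟨by linarith, by linarith⟩)
  have e1 : ∀ᶠ q : Plane × Plane × Plane in 𝓝 (p, p, p), (q.1, q.2.1) ∈ O := by
    have hc : ContinuousAt (fun q : Plane × Plane × Plane => (q.1, q.2.1)) (p, p, p) := by
      fun_prop
    exact hc.eventually (h.isOpen.mem_nhds h.mem)
  have e2 : ∀ᶠ q : Plane × Plane × Plane in 𝓝 (p, p, p), (q.2.1, q.2.2) ∈ O := by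
    have hc : ContinuousAt (fun q : Plane × Plane × Plane => (q.2.1, q.2.2)) (p, p, p) := by
      fun_prop
    exact hc.eventually (h.isOpen.mem_nhds h.mem)
  have e3 : ∀ᶠ q : Plane × Plane × Plane in 𝓝 (p, p, p), inner ℝ u (q.1 - q.2.1) < 2 * δ := by
    have hc : ContinuousAt (fun q : Plane × Plane × Plane => inner ℝ u (q.1 - q.2.1))
      (p, p, p) := by fun_prop
    refine hc.eventually (gt_mem_nhds ?_)
    simp only [sub_self, inner_zero_right]
    linarith
  have e4 : ∀ᶠ q : Plane × Plane × Plane in 𝓝 (p, p, p), inner ℝ u (q.2.1 - q.2.2) < 2 * δ := by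
    have hc : ContinuousAt (fun q : Plane × Plane × Plane => inner ℝ u (q.2.1 - q.2.2))
      (p, p, p) := by fun_prop
    refine hc.eventually (gt_mem_nhds ?_)
    simp only [sub_self, inner_zero_right]
    linarith
  filter_upwards [e1, e2, e3, e4] with q h1 h2 h3 h4 hT
  have m1 : (q.1, q.2.1) ∈ DoubleSet F ∩ O := ⟨hT.1, h1⟩
  have m2 : (q.2.1, q.2.2) ∈ DoubleSet F ∩ O := ⟨hT.2, h2⟩
  rw [h.double] at m1 m2
  obtain ⟨t, ht, et⟩ := m1
  obtain ⟨s, hs, es⟩ := m2
  have et1 : γ t = q.1 := congrArg Prod.fst et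
  have et2 : γ (-t) = q.2.1 := congrArg Prod.snd et
  have es1 : γ s = q.2.1 := congrArg Prod.fst es
  have es2 : γ (-s) = q.2.2 := congrArg Prod.snd es
  have ct := h.coord t ⟨by linarith [ht.1], ht.2.le⟩
  have cs := h.coord s ⟨by linarith [hs.1], hs.2.le⟩
  rw [et1, et2] at ct
  rw [es1, es2] at cs
  have htδ : t < δ := by linarith
  have hsδ : s < δ := by linarith
  have m3 : -t ∈ Ioo (-δ) δ := ⟨by linarith, by linarith [ht.1]⟩
  have m4 : s ∈ Ioo (-δ) δ := ⟨by linarith [hs.1], hsδ⟩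
  have := hinj m3 m4 (et2.trans es1.symm)
  linarith [ht.1, hs.1]

/-- As in `ch/TameGen`: triples are isolated by `Umb.triple` and form a closed set: a limit of
triples is a triple, or two of the three points coincide in the limit; then the limit is an
umbrella and the third point is also the umbrella (`Gen.immersion`), and near an umbrella there
are no triples by `CapArc.double` and `CapArc.coord`. -/
theorem finite_triples (hF : IsSliceDisc F) (hU : Umb F) :
    {p : Plane × Plane × Plane | Triple F p.1 p.2.1 p.2.2}.Finite := by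
  have hC : IsClosed (DoubleSet F ∪ (fun p => (p, p)) '' caps F) :=
    (isCompact_double_caps hF hU).isClosed
  have hS := cstrict_doubleSet hF hU
  have hclosed : IsClosed {p : Plane × Plane × Plane | Triple F p.1 p.2.1 p.2.2} := by
    rw [← closure_subset_iff_isClosed]
    intro p hp
    have h1 : (p.1, p.2.1) ∈ DoubleSet F ∪ (fun p => (p, p)) '' caps F := by
      have hc := hC.preimage (f := fun p : Plane × Plane × Plane => (p.1, p.2.1)) (by fun_prop)
      exact closure_minimal (fun q hq => Or.inl hq.1) hc hp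
    have h2 : (p.2.1, p.2.2) ∈ DoubleSet F ∪ (fun p => (p, p)) '' caps F := by
      have hc := hC.preimage (f := fun p : Plane × Plane × Plane => (p.2.1, p.2.2)) (by fun_prop)
      exact closure_minimal (fun q hq => Or.inl hq.2) hc hp
    rcases h1 with h1 | ⟨x, hx, hxe⟩
    · rcases h2 with h2 | ⟨y, hy, hye⟩
      · exact ⟨h1, h2⟩
      · exfalso
        have e1 : y = p.2.1 := congrArg Prod.fst hye
        exact hS.sndQ _ h1 (e1 ▸ hy)
    · rcases h2 with h2 | ⟨y, hy, hye⟩
      · exfalso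
        have e1 : x = p.2.1 := congrArg Prod.snd hxe
        exact hS.fstQ _ h2 (e1 ▸ hx)
      · exfalso
        have e1 : x = p.1 := congrArg Prod.fst hxe
        have e2 : x = p.2.1 := congrArg Prod.snd hxe
        have e3 : y = p.2.1 := congrArg Prod.fst hye
        have e4 : y = p.2.2 := congrArg Prod.snd hye
        have e5 : p = (x, x, x) := by
          refine Prod.ext e1.symm (Prod.ext e2.symm ?_)
          exact e4.symm.trans (e3.trans e2.symm)
        obtain ⟨u, ε, γ, O, hA, -⟩ := exists_capArc hF hU hx one_pos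
        rw [e5] at hp
        have h5 := ct_no_triple hA
        have h6 := mem_closure_iff_frequently.1 hp
        obtain ⟨q, hq1, hq2⟩ := (h6.and_eventually h5).exists
        exact hq2 hq1
  have hcomp : IsCompact {p : Plane × Plane × Plane | Triple F p.1 p.2.1 p.2.2} := by
    refine ((isCompact_closedBall (0 : Plane) 1).prod
      ((isCompact_closedBall (0 : Plane) 1).prod (isCompact_closedBall (0 : Plane) 1))
      ).of_isClosed_subset hclosed ?_
    intro p hp
    exact ⟨hp.1.1, hp.2.1, hp.2.2.1⟩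
  have hchoose : ∀ p : Plane × Plane × Plane, ∃ N ∈ 𝓝 p, Triple F p.1 p.2.1 p.2.2 →
      ∀ q ∈ N, Triple F q.1 q.2.1 q.2.2 → q = p := by
    intro p
    by_cases hp : Triple F p.1 p.2.1 p.2.2
    · obtain ⟨N, hN, h⟩ := ct_isolated hF hU hp
      exact ⟨N, hN, fun _ => h⟩
    · exact ⟨univ, univ_mem, fun h => absurd h hp⟩
  choose U hU' hUp using hchoose
  obtain ⟨t, ht, hcov⟩ := hcomp.elim_nhds_subcover U fun p _ => hU' p
  refine t.finite_toSet.subset fun q hq => ?_
  obtain ⟨p, hp, hqp⟩ := mem_iUnion₂.1 (hcov hq)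
  rw [hUp p (ht p hp) q hqp hq]
  exact hp

theorem finite_vertices_umb (hF : IsSliceDisc F) (hU : Umb F) :
    (vertices (DoubleSet F)).Finite := by
  have h := finite_triples hF hU
  have h1 : ((fun p : Plane × Plane × Plane => (p.1, p.2.1)) ''
      {p : Plane × Plane × Plane | Triple F p.1 p.2.1 p.2.2}).Finite := h.image _
  have h2 : ((fun p : Plane × Plane × Plane => (p.2.1, p.2.2)) ''
      {p : Plane × Plane × Plane | Triple F p.1 p.2.1 p.2.2}).Finite := h.image _
  have h3 : ((fun p : Plane × Plane × Plane => (p.1, p.2.2)) ''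
      {p : Plane × Plane × Plane | Triple F p.1 p.2.1 p.2.2}).Finite := h.image _
  refine ((h1.union h2).union h3).subset fun p hp => ?_
  obtain ⟨hp, z, hz | hz | hz⟩ := hp
  · exact Or.inl (Or.inl ⟨(p.1, p.2, z), ⟨hp, hz⟩, rfl⟩)
  · exact Or.inl (Or.inr ⟨(z, p.1, p.2), ⟨hz, hp⟩, rfl⟩)
  · exact Or.inr ⟨(p.1, z, p.2), ⟨hz.1, hz.2⟩, rfl⟩

end Pool.Agent.Lib_MP_752436_cu
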