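import Pool.Agent.Lib_MP_752436_cu.CapFinite

/-!
Piece U9: the cycles of a generic projection embed in the functions on the chambers.
-/

open MeasureTheory Metric Set Filter
open scoped ContDiff Topology

namespace Pool.Agent.Lib_MP_752436_cu

open Pool.Agent.Lib_MP_752436_gt Pool.Agent.Lib_MP_752436_tp Pool.Agent.Lib_MP_752436_rb
  Pool.Agent.Lib_MP_752436_ch Pool.Agent.Lib_MP_752436_ts

variable {F : Plane → EuclideanSpace ℝ (Fin 4)} {κ : Type} [Fintype κ]
  {c : κ → ℝ → Plane × Plane} {a b : κ → ℝ}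

/-- The integral over the chain as a sum over the edges. -/
private theorem CapVanish_int (n : κ → ℝ) {E : Type*} [NormedAddCommGroup E] [NormedSpace ℝ E]
    (θ : Plane → Plane →L[ℝ] E) :
    (chain c a b n).int θ = ∑ e, n e • ((∫ t in (a e)..(b e), θ (c e t).1
        (deriv (fun s => (c e s).1) t)) -
      ∫ t in (a e)..(b e), θ (c e t).2 (deriv (fun s => (c e s).2) t)) := by
  unfold PChain.int
  rw [Fintype.sum_sum_type, ← Finset.sum_add_distrib]
  refine Finset.sum_congr rfl fun e _ => ?_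
  show n e • (∫ t in (a e)..(b e), θ (c e t).1 (deriv (fun s => (c e s).1) t)) +
    (- n e) • (∫ t in (a e)..(b e), θ (c e t).2 (deriv (fun s => (c e s).2) t)) = _
  rw [smul_sub, neg_smul, sub_eq_add_neg]

private theorem CapVanish_deriv {f : Plane → Space} (hf : ContDiff ℝ ∞ f) {γ : ℝ → Plane}
    (hγ : ContDiff ℝ 1 γ) (t : ℝ) :
    HasDerivAt (fun s => f (γ s)) (fderiv ℝ f (γ t) (deriv γ t)) t :=
  HasFDerivAt.comp_hasDerivAt t ((hf.differentiable (by simp)) (γ t)).hasFDerivAt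
    ((hγ.differentiable one_ne_zero) t).hasDerivAt

omit [Fintype κ] in
/-- The points of the paths are pairs of the double set or umbrellas. -/
private theorem CapVanish_mem (hE : CEdges c a b (DoubleSet F) (caps F)) (e : κ) {t : ℝ}
    (ht : t ∈ Icc (a e) (b e)) : c e t ∈ DoubleSet F ∨ ∃ p ∈ caps F, c e t = (p, p) := by
  rcases ht.1.eq_or_lt with h1 | h1
  · rw [← h1]
    exact hE.pedges.left e
  · rcases ht.2.eq_or_lt with h2 | h2
    · rw [h2]
      exact hE.pedges.right e
    · exact Or.inl (hE.pedges.inner e t ⟨h1, h2⟩)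

omit [Fintype κ] in
private theorem CapVanish_shadow (hE : CEdges c a b (DoubleSet F) (caps F)) (e : κ) {t : ℝ}
    (ht : t ∈ Icc (a e) (b e)) : shadow F (c e t).1 = shadow F (c e t).2 := by
  rcases CapVanish_mem hE e ht with h | ⟨p, _, h⟩
  · exact h.2.2.1
  · rw [h]

omit [Fintype κ] in
private theorem CapVanish_fst (hE : CEdges c a b (DoubleSet F) (caps F)) (e : κ) {t : ℝ}
    (ht : t ∈ Icc (a e) (b e)) : (c e t).1 ∈ closedBall (0 : Plane) 1 := by
  rcases CapVanish_mem hE e ht with h | ⟨p, hp, h⟩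
  · exact h.1
  · rw [h]
    exact hp.1

omit [Fintype κ] in
private theorem CapVanish_snd (hE : CEdges c a b (DoubleSet F) (caps F)) (e : κ) {t : ℝ}
    (ht : t ∈ Icc (a e) (b e)) : (c e t).2 ∈ closedBall (0 : Plane) 1 := by
  rcases CapVanish_mem hE e ht with h | ⟨p, hp, h⟩
  · exact h.2.1
  · rw [h]
    exact hp.1

theorem csetting_chain (hF : IsSliceDisc F) (hE : CEdges c a b (DoubleSet F) (caps F))
    {n : κ → ℝ} (hn : IsCyc c a b n) : Setting (shadow F) (chain c a b n) where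
  smooth := od_contDiff_shadow hF
  cycle := by
    refine ⟨?_, ?_, ?_⟩
    · rintro (e | e)
      · exact (hE.pedges.smooth e).fst
      · exact (hE.pedges.smooth e).snd
    · rintro (e | e)
      · exact (hE.pedges.lt e).le
      · exact (hE.pedges.lt e).le
    · intro ψ
      rw [Fintype.sum_sum_type, ← Finset.sum_add_distrib, ← hn ψ]
      refine Finset.sum_congr rfl fun e _ => ?_
      show n e * (ψ (c e (b e)).1 - ψ (c e (a e)).1) +
        (- n e) * (ψ (c e (b e)).2 - ψ (c e (a e)).2) = n e * bdry c a b e ψ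
      unfold bdry
      ring
  sub := by
    refine iUnion_subset ?_
    rintro (e | e)
    · rintro _ ⟨t, ht, rfl⟩
      exact CapVanish_fst hE e ht
    · rintro _ ⟨t, ht, rfl⟩
      exact CapVanish_snd hE e ht
  pull := by
    intro A _
    rw [CapVanish_int]
    refine Finset.sum_eq_zero fun e _ => ?_
    rw [smul_eq_zero, sub_eq_zero]
    refine Or.inr ?_
    rw [intervalIntegral.integral_of_le (hE.pedges.lt e).le, intervalIntegral.integral_of_le (hE.pedges.lt e).le,
      integral_Ioc_eq_integral_Ioo, integral_Ioc_eq_integral_Ioo]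
    refine setIntegral_congr_fun measurableSet_Ioo fun t ht => ?_
    have hsh : ∀ s ∈ Icc (a e) (b e), shadow F (c e s).1 = shadow F (c e s).2 :=
      fun s hs => CapVanish_shadow hE e hs
    have h1 := CapVanish_deriv (od_contDiff_shadow hF) (hE.pedges.smooth e).fst t
    have h2 := CapVanish_deriv (od_contDiff_shadow hF) (hE.pedges.smooth e).snd t
    have h3 : (fun s => shadow F (c e s).1) =ᶠ[𝓝 t] fun s => shadow F (c e s).2 := by
      filter_upwards [Icc_mem_nhds ht.1 ht.2] with s hs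
      exact hsh s hs
    have h4 := h1.unique (h2.congr_of_eventuallyEq h3)
    show pull1 (shadow F) A (c e t).1 (deriv (fun s => (c e s).1) t) =
      pull1 (shadow F) A (c e t).2 (deriv (fun s => (c e s).2) t)
    unfold pull1
    show innerSL ℝ (A (shadow F (c e t).1)) (fderiv ℝ (shadow F) (c e t).1
        (deriv (fun s => (c e s).1) t)) =
      innerSL ℝ (A (shadow F (c e t).2)) (fderiv ℝ (shadow F) (c e t).2
        (deriv (fun s => (c e s).2) t))
    rw [hsh t (Ioo_subset_Icc_self ht)]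
    exact congrArg _ h4

omit [Fintype κ] in
/-- Points off the curves are simple. -/
private theorem CapVanish_simple (hF : IsSliceDisc F) (hE : CEdges c a b (DoubleSet F) (caps F))
    (n : κ → ℝ) {q : Plane} (hq : q ∈ closedBall (0 : Plane) 1) (hs : q ∉ (chain c a b n).supp) :
    ∀ y ∈ closedBall (0 : Plane) 1, shadow F y = shadow F q → y = q := by
  intro y hy hyq
  by_contra hne
  rcases ve_total hF hy hq hne hyq with h | h
  · obtain ⟨e, t, ht, he⟩ := hE.pedges.cover _ h
    refine hs (mem_iUnion.mpr ⟨Sum.inr e, t, ht, ?_⟩)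
    show (c e t).2 = q
    rw [he]
  · obtain ⟨e, t, ht, he⟩ := hE.pedges.cover _ h
    refine hs (mem_iUnion.mpr ⟨Sum.inl e, t, ht, ?_⟩)
    show (c e t).1 = q
    rw [he]

/-- The integrals of all forms vanish. -/
private theorem CapVanish_int_zero (hF : IsSliceDisc F) (hU : Umb F)
    (hE : CEdges c a b (DoubleSet F) (caps F)) {n : κ → ℝ} (hn : IsCyc c a b n)
    (h0 : ∀ p ∉ shadow F '' closedBall (0 : Plane) 1,
      (chain c a b n).flux (shadow F) (newt p) = 0) {θ : Plane → Plane →L[ℝ] ℝ}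
    (hθ : ContDiff ℝ 1 θ) (hc : HasCompactSupport θ) : (chain c a b n).int θ = 0 := by
  have hs := csetting_chain hF hE hn
  rw [hs.cycle.green hθ hc]
  have h1 : ∀ᵐ y : Plane, y ∉ (chain c a b n).supp :=
    measure_eq_zero_iff_ae_notMem.mp hs.cycle.volume_supp
  have h2 : ∀ᵐ y : Plane, y ∉ sphere (0 : Plane) 1 :=
    measure_eq_zero_iff_ae_notMem.mp (Measure.addHaar_sphere_of_ne_zero _ _ one_ne_zero)
  have h3 : ∀ᵐ y : Plane, y ∉ caps F :=
    measure_eq_zero_iff_ae_notMem.mp ((finite_caps hF hU).measure_zero _)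
  refine integral_eq_zero_of_ae ?_
  filter_upwards [h1, h2, h3] with y hy1 hy2 hy3
  show (chain c a b n).wnd y * curl2 θ y = 0
  by_cases hb : y ∈ closedBall (0 : Plane) 1
  · have hb' : y ∈ ball (0 : Plane) 1 := by
      refine mem_ball.mpr (lt_of_le_of_ne (mem_closedBall.mp hb) fun h' => hy2 ?_)
      exact mem_sphere.mpr h'
    have himm : Function.Injective (fderiv ℝ (shadow F) y) := by
      by_contra himm
      exact hy3 ⟨hb, himm⟩
    rw [hs.wnd_eq_zero h0 hb' (CapVanish_simple hF hE n hb hy1) himm hy1, zero_mul]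
  · rw [hs.cycle.wnd_outside hs.sub hb, zero_mul]

theorem ceq_zero_of_newt (hF : IsSliceDisc F) (hU : Umb F)
    (hE : CEdges c a b (DoubleSet F) (caps F)) {n : κ → ℝ} (hn : IsCyc c a b n)
    (h0 : ∀ p ∉ shadow F '' closedBall (0 : Plane) 1,
      (chain c a b n).flux (shadow F) (newt p) = 0) : n = 0 := by
  funext e₀
  by_contra hne
  have hne : n e₀ ≠ 0 := hne
  have hlt := hE.pedges.lt e₀
  set t₀ : ℝ := (a e₀ + b e₀) / 2 with ht₀
  have ht1 : a e₀ < t₀ := by rw [ht₀]; linarith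
  have ht2 : t₀ < b e₀ := by rw [ht₀]; linarith
  have hIoo : t₀ ∈ Ioo (a e₀) (b e₀) := ⟨ht1, ht2⟩
  have hIcc : t₀ ∈ Icc (a e₀) (b e₀) := Ioo_subset_Icc_self hIoo
  have hD := hE.pedges.inner e₀ t₀ hIoo
  have hv := hE.novertex e₀ t₀ hIoo
  have hC := cstrict_doubleSet hF hU
  set γ : ℝ → Plane := fun s => (c e₀ s).1 with hγ
  have hγs : ContDiff ℝ 1 γ := (hE.pedges.smooth e₀).fst
  have hγ' : Continuous (deriv γ) := hγs.continuous_deriv le_rfl
  set x₀ : Plane := (c e₀ t₀).1 with hx₀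
  -- no other parameter has the value `x₀`
  have hup : ∀ e, ∀ t ∈ Icc (a e) (b e), (c e t).1 = x₀ → e = e₀ ∧ t = t₀ := by
    intro e t ht he
    have hDe : c e t ∈ DoubleSet F := by
      rcases CapVanish_mem hE e ht with h1 | ⟨p, hp, h1⟩
      · exact h1
      · refine absurd ?_ (hC.fstQ _ hD)
        rw [← hx₀, ← he, h1]
        exact hp
    have hyy : (c e t).2 = (c e₀ t₀).2 := by
      by_contra hyy
      have hsh : shadow F (c e t).2 = shadow F (c e₀ t₀).2 := by
        rw [← hDe.2.2.1, he, hx₀]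
        exact hD.2.2.1
      rcases ve_total hF hDe.2.1 hD.2.1 hyy hsh with h1 | h1
      · refine hv ⟨hD, (c e t).2, Or.inr (Or.inr ⟨?_, h1⟩)⟩
        have h2 : ((c e₀ t₀).1, (c e t).2) = c e t := Prod.ext he.symm rfl
        rw [h2]
        exact hDe
      · exact hv ⟨hD, (c e t).2, Or.inl h1⟩
    have h3 : c e₀ t₀ = c e t := Prod.ext he.symm hyy.symm
    obtain ⟨h4, h5⟩ := hE.pedges.once e₀ e t₀ hIoo t ht h3
    exact ⟨h4.symm, h5.symm⟩
  have hlow : ∀ e, ∀ t ∈ Icc (a e) (b e), (c e t).2 ≠ x₀ := by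
    intro e t ht he
    have hDe : c e t ∈ DoubleSet F := by
      rcases CapVanish_mem hE e ht with h1 | ⟨p, hp, h1⟩
      · exact h1
      · refine absurd ?_ (hC.fstQ _ hD)
        rw [← hx₀, ← he, h1]
        exact hp
    refine hv ⟨hD, (c e t).1, Or.inr (Or.inl ?_)⟩
    have h2 : ((c e t).1, (c e₀ t₀).1) = c e t := Prod.ext rfl he.symm
    rw [h2]
    exact hDe
  -- the direction
  have hu : deriv γ t₀ ≠ 0 := hE.pedges.regular e₀ t₀ hIcc
  set u : Plane := deriv γ t₀ with hudef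
  have hpos : 0 < inner ℝ u (deriv γ t₀) := real_inner_self_pos.mpr hu
  obtain ⟨δ, hδ, hδ'⟩ : ∃ δ > 0, ∀ t, |t - t₀| < δ → 0 < inner ℝ u (deriv γ t) := by
    have h1 : Continuous fun t => inner ℝ u (deriv γ t) := continuous_const.inner hγ'
    have h2 : ∀ᶠ t in 𝓝 t₀, 0 < inner ℝ u (deriv γ t) :=
      h1.continuousAt.eventually_mem (isOpen_Ioi.mem_nhds hpos)
    obtain ⟨δ, hδ, h3⟩ := Metric.eventually_nhds_iff.mp h2
    exact ⟨δ, hδ, fun t ht => h3 (by rwa [Real.dist_eq])⟩
  -- the rest of the curves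
  set K : Set Plane := ((⋃ e, (fun s => (c e s).2) '' Icc (a e) (b e)) ∪
    ⋃ e ∈ {e | e ≠ e₀}, (fun s => (c e s).1) '' Icc (a e) (b e)) ∪
      γ '' (Icc (a e₀) (b e₀) \ ball t₀ δ) with hK
  have hKc : IsCompact K := by
    refine IsCompact.union (IsCompact.union ?_ ?_) ?_
    · exact isCompact_iUnion fun e => isCompact_Icc.image (hE.pedges.smooth e).snd.continuous
    · exact (toFinite _).isCompact_biUnion fun e _ =>
        isCompact_Icc.image (hE.pedges.smooth e).fst.continuous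
    · exact (isCompact_Icc.diff isOpen_ball).image hγs.continuous
  have hxK : x₀ ∉ K := by
    rintro ((h1 | h1) | h1)
    · obtain ⟨e, t, ht, he⟩ := mem_iUnion.mp h1
      exact hlow e t ht he
    · obtain ⟨e, he', t, ht, he⟩ := mem_iUnion₂.mp h1
      exact he' (hup e t ht he).1
    · obtain ⟨t, ht, he⟩ := h1
      refine ht.2 ?_
      rw [(hup e₀ t ht.1 he).2]
      exact mem_ball_self hδ
  obtain ⟨r, hr, hrK⟩ := Metric.isOpen_iff.mp hKc.isClosed.isOpen_compl x₀ hxK
  let φ : ContDiffBump x₀ := ⟨r / 2, r, by linarith, by linarith⟩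
  have hφ0 : ∀ x ∈ K, φ x = 0 := by
    intro x hx
    refine φ.zero_of_le_dist ?_
    show r ≤ dist x x₀
    by_contra hlt'
    exact hrK (mem_ball.mpr (not_le.mp hlt')) hx
  have hφ1 : φ x₀ = 1 := φ.one_of_mem_closedBall (mem_closedBall_self (by
    show 0 ≤ r / 2
    linarith))
  set θ : Plane → Plane →L[ℝ] ℝ := fun x => φ x • innerSL ℝ u with hθ
  have hθs : ContDiff ℝ 1 θ := φ.contDiff.smul contDiff_const
  have hθc : HasCompactSupport θ := φ.hasCompactSupport.smul_right
  have hz := CapVanish_int_zero hF hU hE hn h0 hθs hθc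
  rw [CapVanish_int] at hz
  have hI2 : ∀ e, ∫ t in (a e)..(b e), θ (c e t).2 (deriv (fun s => (c e s).2) t) = 0 := by
    intro e
    refine intervalIntegral.integral_zero_ae (Eventually.of_forall fun t ht => ?_)
    rw [uIoc_of_le (hE.pedges.lt e).le] at ht
    have h1 : φ (c e t).2 = 0 :=
      hφ0 _ (Or.inl (Or.inl (mem_iUnion.mpr ⟨e, t, Ioc_subset_Icc_self ht, rfl⟩)))
    show (φ (c e t).2 • innerSL ℝ u) _ = 0
    rw [h1, zero_smul]
    rfl
  have hI1 : ∀ e, e ≠ e₀ →
      ∫ t in (a e)..(b e), θ (c e t).1 (deriv (fun s => (c e s).1) t) = 0 := by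
    intro e he
    refine intervalIntegral.integral_zero_ae (Eventually.of_forall fun t ht => ?_)
    rw [uIoc_of_le (hE.pedges.lt e).le] at ht
    have h1 : φ (c e t).1 = 0 :=
      hφ0 _ (Or.inl (Or.inr (mem_iUnion₂.mpr ⟨e, he, t, Ioc_subset_Icc_self ht, rfl⟩)))
    show (φ (c e t).1 • innerSL ℝ u) _ = 0
    rw [h1, zero_smul]
    rfl
  have hsum : n e₀ * ∫ t in (a e₀)..(b e₀), θ (γ t) (deriv γ t) = 0 := by
    rw [← hz]
    symm
    rw [Finset.sum_eq_single e₀]
    · rw [hI2, sub_zero, smul_eq_mul]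
    · intro e _ he
      rw [hI1 e he, hI2, sub_zero, smul_zero]
    · intro he
      exact absurd (Finset.mem_univ _) he
  have hcont : Continuous fun t => θ (γ t) (deriv γ t) :=
    (hθs.continuous.comp hγs.continuous).clm_apply hγ'
  have hpos' : 0 < ∫ t in (a e₀)..(b e₀), θ (γ t) (deriv γ t) := by
    refine intervalIntegral.integral_pos hlt hcont.continuousOn ?_ ⟨t₀, hIcc, ?_⟩
    · intro t ht
      show 0 ≤ φ (γ t) * inner ℝ u (deriv γ t)
      by_cases htδ : t ∈ ball t₀ δ
      · refine mul_nonneg φ.nonneg (hδ' t ?_).le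
        rw [← Real.dist_eq]
        exact mem_ball.mp htδ
      · rw [hφ0 (γ t) (Or.inr ⟨t, ⟨Ioc_subset_Icc_self ht, htδ⟩, rfl⟩), zero_mul]
    · show 0 < φ (γ t₀) * inner ℝ u (deriv γ t₀)
      have h1 : φ (γ t₀) = 1 := hφ1
      rw [h1, one_mul]
      exact hpos
  rcases mul_eq_zero.mp hsum with h1 | h1
  · exact hne h1
  · exact hpos'.ne' h1

end Pool.Agent.Lib_MP_752436_cu
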