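import Pool.Agent.Lib_MP_752436_cu.Defs

/-!
Piece U7: cutting paths at the vertices.
-/

open MeasureTheory Metric Set Filter
open scoped ContDiff Topology

namespace Pool.Agent.Lib_MP_752436_cu

open Pool.Agent.Lib_MP_752436_gt Pool.Agent.Lib_MP_752436_tp Pool.Agent.Lib_MP_752436_rb
  Pool.Agent.Lib_MP_752436_ch Pool.Agent.Lib_MP_752436_ts

/-- the parameters at which the path is cut -/
private def ceCut {κ : Type} (c : κ → ℝ → Plane × Plane) (a b : κ → ℝ) (D : Set (Plane × Plane))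
    (e : κ) : Set ℝ :=
  {t | t ∈ Icc (a e) (b e) ∧ (t = a e ∨ t = b e ∨ c e t ∈ vertices D)}

private theorem ceCut_finite {D : Set (Plane × Plane)} {Q : Set Plane} (hD : (vertices D).Finite)
    {κ : Type} {c : κ → ℝ → Plane × Plane} {a b : κ → ℝ} (hP : PEdges c a b D Q) (e : κ) :
    (ceCut c a b D e).Finite := by
  have h1 : (Ioo (a e) (b e) ∩ c e ⁻¹' vertices D).Finite := by
    have h2 : InjOn (c e) (Ioo (a e) (b e) ∩ c e ⁻¹' vertices D) := by
      rintro s ⟨hs, _⟩ t ⟨ht, _⟩ hst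
      exact (hP.once e e s hs t ⟨ht.1.le, ht.2.le⟩ hst).2
    refine Finite.of_finite_image (hD.subset ?_) h2
    rintro _ ⟨t, ht, rfl⟩
    exact ht.2
  refine (h1.union (Set.toFinite ({a e, b e} : Set ℝ))).subset ?_
  rintro t ⟨ht, h | h | h⟩
  · exact Or.inr (Or.inl h)
  · exact Or.inr (Or.inr h)
  · rcases ht.1.lt_or_eq with h0 | h0
    · rcases ht.2.lt_or_eq with h1 | h1
      · exact Or.inl ⟨⟨h0, h1⟩, h⟩
      · exact Or.inr (Or.inr h1)
    · exact Or.inr (Or.inl h0.symm)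

/-- As `ch/Edges` `exists_edges`: cut the path `e` at `a e`, `b e` and at the inner parameters of
vertices; new index set `{(e, s) | s a cut parameter of e, s < b e}`. -/
theorem exists_cedges {D : Set (Plane × Plane)} {Q : Set Plane} (hD : (vertices D).Finite)
    (hQ : ∀ p ∈ Q, (p, p) ∉ D) {κ : Type} [Fintype κ] {c : κ → ℝ → Plane × Plane}
    {a b : κ → ℝ} (hP : PEdges c a b D Q) :
    ∃ (κ' : Type) (_ : Fintype κ') (c' : κ' → ℝ → Plane × Plane) (a' b' : κ' → ℝ),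
      CEdges c' a' b' D Q := by
  have hT : ∀ i, (ceCut c a b D i).Finite := fun i => ceCut_finite hD hP i
  have h0 : ∀ i, a i ∈ ceCut c a b D i := fun i => ⟨⟨le_rfl, (hP.lt i).le⟩, Or.inl rfl⟩
  have h1 : ∀ i, b i ∈ ceCut c a b D i := fun i => ⟨⟨(hP.lt i).le, le_rfl⟩, Or.inr (Or.inl rfl)⟩
  let κ' : Type := {p : κ × ℝ // p.2 ∈ ceCut c a b D p.1 ∧ p.2 < b p.1}
  have hfin : Finite κ' := by
    have h2 : {p : κ × ℝ | p.2 ∈ ceCut c a b D p.1 ∧ p.2 < b p.1}.Finite := by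
      have h3 : (⋃ i, (fun t => ((i, t) : κ × ℝ)) '' ceCut c a b D i).Finite :=
        Set.finite_iUnion fun i => (hT i).image _
      refine h3.subset ?_
      rintro ⟨i, t⟩ ⟨ht, _⟩
      exact mem_iUnion.2 ⟨i, t, ht, rfl⟩
    exact h2.to_subtype
  have hnext : ∀ e : κ', ∃ b' ∈ ceCut c a b D e.1.1, e.1.2 < b' ∧
      ∀ t ∈ ceCut c a b D e.1.1, e.1.2 < t → b' ≤ t := by
    intro e
    obtain ⟨b', hb, hb'⟩ := Set.exists_min_image {t | t ∈ ceCut c a b D e.1.1 ∧ e.1.2 < t} id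
      ((hT e.1.1).subset fun t ht => ht.1) ⟨b e.1.1, h1 _, e.2.2⟩
    exact ⟨b', hb.1, hb.2, fun t ht ht' => hb' t ⟨ht, ht'⟩⟩
  choose b' hb1 hb2 hb3 using hnext
  have hprev : ∀ i, ∀ t ∈ Icc (a i) (b i), a i < t →
      ∃ e : κ', e.1.1 = i ∧ e.1.2 < t ∧ t ≤ b' e := by
    intro i t ht ht0
    obtain ⟨s, hs, hs'⟩ := Set.exists_max_image {s | s ∈ ceCut c a b D i ∧ s < t} id
      ((hT i).subset fun t ht => ht.1) ⟨a i, h0 i, ht0⟩
    refine ⟨⟨(i, s), hs.1, hs.2.trans_le ht.2⟩, rfl, hs.2, ?_⟩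
    by_contra h
    have h3 := hs' _ ⟨hb1 ⟨(i, s), hs.1, hs.2.trans_le ht.2⟩, not_le.1 h⟩
    exact absurd (hb2 ⟨(i, s), hs.1, hs.2.trans_le ht.2⟩) (not_lt.2 h3)
  have ha01 : ∀ e : κ', e.1.2 ∈ Icc (a e.1.1) (b e.1.1) := fun e => e.2.1.1
  have hb01 : ∀ e : κ', b' e ∈ Icc (a e.1.1) (b e.1.1) := fun e => (hb1 e).1
  have hI : ∀ e : κ', ∀ t ∈ Icc e.1.2 (b' e), t ∈ Icc (a e.1.1) (b e.1.1) := fun e t ht =>
    ⟨(ha01 e).1.trans ht.1, ht.2.trans (hb01 e).2⟩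
  have hIo : ∀ e : κ', ∀ t ∈ Ioo e.1.2 (b' e), t ∈ Ioo (a e.1.1) (b e.1.1) := fun e t ht =>
    ⟨(ha01 e).1.trans_lt ht.1, ht.2.trans_le (hb01 e).2⟩
  have hcov : ∀ p ∈ D, ∃ e : κ', ∃ t ∈ Icc e.1.2 (b' e), c e.1.1 t = p := by
    intro p hp
    obtain ⟨i, t, ht, rfl⟩ := hP.cover p hp
    rcases ht.1.lt_or_eq with h | h
    · obtain ⟨e, he, h2, h3⟩ := hprev i t ht h
      exact ⟨e, t, ⟨h2.le, h3⟩, by rw [he]⟩
    · subst h
      exact ⟨⟨(i, a i), h0 i, hP.lt i⟩, a i, ⟨le_rfl, (hb2 ⟨(i, a i), h0 i, hP.lt i⟩).le⟩, rfl⟩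
  have hlast : ∀ i, ∀ t ∈ ceCut c a b D i, a i < t → ∃ e : κ', e.1.1 = i ∧ b' e = t := by
    intro i t ht ht0
    obtain ⟨e, he, h2, h3⟩ := hprev i t ht.1 ht0
    refine ⟨e, he, le_antisymm (hb3 e t ?_ h2) h3⟩
    rw [he]
    exact ht
  -- two pieces of the same path with the same start or the same end coincide
  have heqa : ∀ e e' : κ', e.1.1 = e'.1.1 → e.1.2 = e'.1.2 → e = e' := fun e e' h1 h2 =>
    Subtype.ext (Prod.ext h1 h2)
  have heqb : ∀ e e' : κ', e.1.1 = e'.1.1 → b' e = b' e' → e = e' := by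
    intro e e' he hb
    refine heqa e e' he ?_
    rcases lt_trichotomy e.1.2 e'.1.2 with h4 | h4 | h4
    · have h5 := hb3 e e'.1.2 (by rw [he]; exact e'.2.1) h4
      exact absurd (hb2 e') (not_lt.2 (hb ▸ h5))
    · exact h4
    · have h5 := hb3 e' e.1.2 (by rw [← he]; exact e.2.1) h4
      exact absurd (hb2 e) (not_lt.2 (hb ▸ h5))
  -- an inner point of an old path which is no inner point of a new one is a cut point
  have hcut : ∀ p, (∀ e : κ', ∀ t ∈ Ioo e.1.2 (b' e), c e.1.1 t ≠ p) →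
      ∀ i, ∀ t ∈ Ioo (a i) (b i), c i t = p → t ∈ ceCut c a b D i := by
    intro p hno i t ht hp
    obtain ⟨e, he, h2, h3⟩ := hprev i t ⟨ht.1.le, ht.2.le⟩ ht.1
    rcases h3.lt_or_eq with h4 | h4
    · exact absurd (by rw [he]; exact hp) (hno e t ⟨h2, h4⟩)
    · rw [h4, ← he]
      exact hb1 e
  refine ⟨κ', Fintype.ofFinite κ', fun e => c e.1.1, fun e => e.1.2, b', ⟨?_, ?_⟩⟩
  · refine ⟨hb2, fun e => hP.smooth _, fun e t ht => hP.regular _ t (hI e t ht),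
      fun e t ht => hP.inner _ t (hIo e t ht), ?_, ?_, ?_, hcov, ?_, ?_, ?_, ?_⟩
    · -- left
      intro e
      rcases (ha01 e).1.lt_or_eq with h2 | h2
      · exact Or.inl (hP.inner _ _ ⟨h2, e.2.2⟩)
      · have := hP.left e.1.1
        show c e.1.1 e.1.2 ∈ D ∨ ∃ p ∈ Q, c e.1.1 e.1.2 = (p, p)
        rwa [h2] at this
    · -- right
      intro e
      have h3 : a e.1.1 < b' e := (ha01 e).1.trans_lt (hb2 e)
      rcases (hb01 e).2.lt_or_eq with h2 | h2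
      · exact Or.inl (hP.inner _ _ ⟨h3, h2⟩)
      · have := hP.right e.1.1
        show c e.1.1 (b' e) ∈ D ∨ ∃ p ∈ Q, c e.1.1 (b' e) = (p, p)
        rwa [← h2] at this
    · -- once
      intro e e' t ht t' ht' h
      obtain ⟨hh, htt⟩ := hP.once e.1.1 e'.1.1 t (hIo e t ht) t' (hI e' t' ht') h
      subst htt
      refine ⟨heqa e e' hh ?_, rfl⟩
      rcases lt_trichotomy e.1.2 e'.1.2 with h4 | h4 | h4
      · exact absurd (hb3 e e'.1.2 (by rw [hh]; exact e'.2.1) h4) (not_le.2 (ht'.1.trans_lt ht.2))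
      · exact h4
      · exact absurd (hb3 e' e.1.2 (by rw [← hh]; exact e.2.1) h4)
          (not_le.2 (ht.1.trans_le ht'.2))
    · -- start
      intro e e' hmem h
      have h : c e.1.1 e.1.2 = c e'.1.1 e'.1.2 := h
      rcases (ha01 e).1.lt_or_eq with h2 | h2
      · obtain ⟨hh, htt⟩ := hP.once e.1.1 e'.1.1 e.1.2 ⟨h2, e.2.2⟩ e'.1.2 (ha01 e') h
        exact heqa e e' hh htt
      · rcases (ha01 e').1.lt_or_eq with h3 | h3
        · obtain ⟨hh, htt⟩ := hP.once e'.1.1 e.1.1 e'.1.2 ⟨h3, e'.2.2⟩ e.1.2 (ha01 e) h.symm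
          exact heqa e e' hh.symm htt.symm
        · have hmem : c e.1.1 e.1.2 ∈ D := hmem
          rw [← h2] at hmem
          rw [← h2, ← h3] at h
          have hh := hP.start e.1.1 e'.1.1 hmem h
          exact heqa e e' hh (by rw [← h2, ← h3, hh])
    · -- stop
      intro e e' hmem h
      have h : c e.1.1 (b' e) = c e'.1.1 (b' e') := h
      have h3 : a e.1.1 < b' e := (ha01 e).1.trans_lt (hb2 e)
      have h3' : a e'.1.1 < b' e' := (ha01 e').1.trans_lt (hb2 e')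
      rcases (hb01 e).2.lt_or_eq with h2 | h2
      · obtain ⟨hh, htt⟩ := hP.once e.1.1 e'.1.1 (b' e) ⟨h3, h2⟩ (b' e') (hb01 e') h
        exact heqb e e' hh htt
      · rcases (hb01 e').2.lt_or_eq with h4 | h4
        · obtain ⟨hh, htt⟩ := hP.once e'.1.1 e.1.1 (b' e') ⟨h3', h4⟩ (b' e) (hb01 e) h.symm
          exact heqb e e' hh.symm htt.symm
        · have hmem : c e.1.1 (b' e) ∈ D := hmem
          rw [h2] at hmem
          rw [h2, h4] at h
          have hh := hP.stop e.1.1 e'.1.1 hmem h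
          exact heqb e e' hh (by rw [h2, h4, hh])
    · -- out
      intro p hp hp1 hno
      by_cases hin : ∃ i, ∃ t ∈ Ioo (a i) (b i), c i t = p
      · obtain ⟨i, t, ht, hpt⟩ := hin
        exact ⟨⟨(i, t), hcut p hno i t ht hpt, ht.2⟩, hpt⟩
      · obtain ⟨i, hi⟩ := hP.out p hp hp1 fun e t ht h => hin ⟨e, t, ht, h⟩
        exact ⟨⟨(i, a i), h0 i, hP.lt i⟩, hi⟩
    · -- into
      intro p hp hp1 hno
      by_cases hin : ∃ i, ∃ t ∈ Ioo (a i) (b i), c i t = p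
      · obtain ⟨i, t, ht, hpt⟩ := hin
        obtain ⟨e, he, hbe⟩ := hlast i t (hcut p hno i t ht hpt) ht.1
        refine ⟨e, ?_⟩
        show c e.1.1 (b' e) = p
        rw [he, hbe, hpt]
      · obtain ⟨i, hi⟩ := hP.into p hp hp1 fun e t ht h => hin ⟨e, t, ht, h⟩
        obtain ⟨e, he, hbe⟩ := hlast i (b i) (h1 i) (hP.lt i)
        refine ⟨e, ?_⟩
        show c e.1.1 (b' e) = p
        rw [he, hbe, hi]
  · -- novertex
    intro e t ht hv
    exact absurd (hb3 e t ⟨hI e t ⟨ht.1.le, ht.2.le⟩, Or.inr (Or.inr hv)⟩ ht.1) (not_le.2 ht.2)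

end Pool.Agent.Lib_MP_752436_cu
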