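import Pool.Agent.Lib_MP_752436_ch.Linear
import Pool.Agent.Lib_MP_752436_ts.Main

/-!
Chambers of arbitrary projections of slice discs (with Whitney umbrellas). Working definitions.
-/

open MeasureTheory Metric Set Filter
open scoped ContDiff Topology

namespace Pool.Agent.Lib_MP_752436_cu

open Pool.Agent.Lib_MP_752436_gt Pool.Agent.Lib_MP_752436_tp Pool.Agent.Lib_MP_752436_rb
  Pool.Agent.Lib_MP_752436_ch Pool.Agent.Lib_MP_752436_ts

/-- The bounded components of the complement of the image of the closed unit disc under `f`. -/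
def regions (f : Plane → Space) : Set (Set Space) :=
  {C | Bornology.IsBounded C ∧ ∃ p ∉ f '' closedBall (0 : Plane) 1,
    C = connectedComponentIn (f '' closedBall (0 : Plane) 1)ᶜ p}

/-- The singular points of the projection in the closed disc. -/
def caps (F : Plane → EuclideanSpace ℝ (Fin 4)) : Set Plane :=
  {p | p ∈ closedBall (0 : Plane) 1 ∧ ¬ Function.Injective (fderiv ℝ (shadow F) p)}

/-- The projection of the disc is generic: Whitney umbrellas in the open disc, double curves,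
boundary and triple points transverse, no quadruple points. -/
structure Umb (F : Plane → EuclideanSpace ℝ (Fin 4)) : Prop where
  gen : Gen (shadow F)
  cap : ∀ x ∈ sphere (0 : Plane) 1, Function.Injective (fderiv ℝ (shadow F) x)
  boundary : ∀ x y, (x, y) ∈ DoubleSet F → y ∈ sphere (0 : Plane) 1 → ∀ u w, inner ℝ y w = 0 →
    fderiv ℝ (shadow F) x u = fderiv ℝ (shadow F) y w → w = 0
  triple : ∀ x y z, Triple F x y z → ∀ u v w,
    fderiv ℝ (shadow F) x u = fderiv ℝ (shadow F) y v →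
    fderiv ℝ (shadow F) y v = fderiv ℝ (shadow F) z w → u = 0

/-- The properties of the relation above used for the traps; `Q` is the set of umbrellas. -/
structure CStrict (D : Set (Plane × Plane)) (Q : Set Plane) : Prop where
  compact : IsCompact (D ∪ (fun p => (p, p)) '' Q)
  finite : Q.Finite
  sub : Q ⊆ ball (0 : Plane) 1
  fstMem : ∀ p ∈ D, p.1 ∈ ball (0 : Plane) 1
  sndMem : ∀ p ∈ D, p.2 ∈ closedBall (0 : Plane) 1
  fstQ : ∀ p ∈ D, p.1 ∉ Q
  sndQ : ∀ p ∈ D, p.2 ∉ Q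
  irrefl : ∀ x, (x, x) ∉ D
  trans : ∀ x y z, (x, y) ∈ D → (y, z) ∈ D → (x, z) ∈ D
  noFour : ∀ x y z w, (x, y) ∈ D → (y, z) ∈ D → (z, w) ∉ D
  above : ∀ x y z, (x, y) ∈ D → (x, z) ∈ D → y ≠ z → (y, z) ∈ D ∨ (z, y) ∈ D
  below : ∀ x y z, (x, z) ∈ D → (y, z) ∈ D → x ≠ y → (x, y) ∈ D ∨ (y, x) ∈ D

/-- Traps of a relation with umbrellas. -/
structure CTrap (D : Set (Plane × Plane)) (Q Z : Set Plane) : Prop where
  compact : IsCompact Z
  nonempty : Z.Nonempty
  sub : Z ⊆ ball (0 : Plane) 1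
  above : ∀ x ∈ frontier Z, x ∈ Q ∨ ∃ y ∈ Z, (x, y) ∈ D
  cap : ∀ x ∈ Z, x ∈ Q → x ∈ closure (Z \ {x})

/-- Paths which decompose `D`; they may start and end at umbrellas. Vertices may be inner points. -/
structure PEdges {κ : Type} (c : κ → ℝ → Plane × Plane) (a b : κ → ℝ) (D : Set (Plane × Plane))
    (Q : Set Plane) : Prop where
  lt : ∀ e, a e < b e
  smooth : ∀ e, ContDiff ℝ 1 (c e)
  regular : ∀ e, ∀ t ∈ Icc (a e) (b e), deriv (fun s => (c e s).1) t ≠ 0
  inner : ∀ e, ∀ t ∈ Ioo (a e) (b e), c e t ∈ D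
  left : ∀ e, c e (a e) ∈ D ∨ ∃ p ∈ Q, c e (a e) = (p, p)
  right : ∀ e, c e (b e) ∈ D ∨ ∃ p ∈ Q, c e (b e) = (p, p)
  once : ∀ e e', ∀ t ∈ Ioo (a e) (b e), ∀ t' ∈ Icc (a e') (b e'), c e t = c e' t' →
    e = e' ∧ t = t'
  cover : ∀ p ∈ D, ∃ e, ∃ t ∈ Icc (a e) (b e), c e t = p
  start : ∀ e e', c e (a e) ∈ D → c e (a e) = c e' (a e') → e = e'
  stop : ∀ e e', c e (b e) ∈ D → c e (b e) = c e' (b e') → e = e'
  out : ∀ p ∈ D, p.2 ∈ ball (0 : Plane) 1 → (∀ e, ∀ t ∈ Ioo (a e) (b e), c e t ≠ p) →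
    ∃ e, c e (a e) = p
  into : ∀ p ∈ D, p.2 ∈ ball (0 : Plane) 1 → (∀ e, ∀ t ∈ Ioo (a e) (b e), c e t ≠ p) →
    ∃ e, c e (b e) = p

/-- The edges: no vertex is an inner point. -/
structure CEdges {κ : Type} (c : κ → ℝ → Plane × Plane) (a b : κ → ℝ) (D : Set (Plane × Plane))
    (Q : Set Plane) : Prop where
  pedges : PEdges c a b D Q
  novertex : ∀ e, ∀ t ∈ Ioo (a e) (b e), c e t ∉ vertices D

/-- The double curve at the umbrella `p`: the pairs `(γ t, γ (- t))`, `0 < t < 2 ε`, are the pairs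
of the double set in the open set `O`. -/
structure CapArc (F : Plane → EuclideanSpace ℝ (Fin 4)) (p u : Plane) (ε : ℝ) (γ : ℝ → Plane)
    (O : Set (Plane × Plane)) : Prop where
  pos : 0 < ε
  smooth : ContDiff ℝ 1 γ
  zero : γ 0 = p
  regular : ∀ t ∈ Icc (-(2 * ε)) (2 * ε), deriv γ t ≠ 0
  coord : ∀ t ∈ Icc (-(2 * ε)) (2 * ε), inner ℝ u (γ t - γ (-t)) = 2 * t
  isOpen : IsOpen O
  sub : O ⊆ ball (0 : Plane) 1 ×ˢ ball (0 : Plane) 1
  mem : (p, p) ∈ O
  double : DoubleSet F ∩ O = (fun t => (γ t, γ (-t))) '' Ioo 0 (2 * ε)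

/-- Arcs at all umbrellas, in disjoint open sets. -/
structure CapArcs (F : Plane → EuclideanSpace ℝ (Fin 4)) (u : Plane → Plane) (ε : Plane → ℝ)
    (γ : Plane → ℝ → Plane) (O : Plane → Set (Plane × Plane)) : Prop where
  arc : ∀ p ∈ caps F, CapArc F p (u p) (ε p) (γ p) (O p)
  disj : ∀ p ∈ caps F, ∀ q ∈ caps F, p ≠ q → Disjoint (O p) (O q)

/-- The double set without the half arcs at the umbrellas. -/
def truncSet (F : Plane → EuclideanSpace ℝ (Fin 4)) (ε : Plane → ℝ) (γ : Plane → ℝ → Plane) :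
    Set (Plane × Plane) :=
  DoubleSet F \ ⋃ p ∈ caps F, (fun t => (γ p t, γ p (-t))) '' Ioo 0 (ε p)

/-- The end points of the truncated double set. -/
def truncEnds (F : Plane → EuclideanSpace ℝ (Fin 4)) (ε : Plane → ℝ) (γ : Plane → ℝ → Plane) :
    Set (Plane × Plane) :=
  {q | q ∈ DoubleSet F ∧ q.2 ∈ sphere (0 : Plane) 1} ∪
    (fun p => (γ p (ε p), γ p (-(ε p)))) '' caps F

end Pool.Agent.Lib_MP_752436_cu
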