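import Pool.Agent.Lib_MP_752436_cu.CTurn
import Pool.Agent.Lib_MP_752436_cu.CapFinite

/-!
Piece V5: the flip of `ts/Assembly` `exists_flip_noTrap` with the description of the new crossings.
-/

open MeasureTheory Metric Set Filter
open scoped ContDiff Topology

namespace Pool.Agent.Lib_MP_752436_cu

open Pool.Agent.Lib_MP_752436_gt Pool.Agent.Lib_MP_752436_tp Pool.Agent.Lib_MP_752436_rb
  Pool.Agent.Lib_MP_752436_ch Pool.Agent.Lib_MP_752436_ts
open Pool.Agent.Lib_MP_752436_mv (flipSet)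

section Aux

variable {m : Plane → Space} {z : Plane → ℝ} {R : Set Plane}
  {v : Plane × Plane → Plane × Plane} {Φ : ℝ → Plane × Plane → Plane × Plane} {ι : Type}
  {G : Curves ι} {φ : ι → Prop} {D : Set (Plane × Plane)} {Q : Set Plane}

/-- The double set without the flipped pairs, together with the umbrellas, is compact. -/
private theorem ft_compact' (hE : Emb m z) (hg : Gen m) (hR : Region m z R) (h : CutFlow m v Φ)
    (hG : IsCurves G (FreeSet m z R Φ)) (hcl : ∀ i, G.closed i)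
    (hΦ : ∀ i r t, Φ r (G.c i t) = G.c i (t + r))
    (hD : ∀ p ∈ D, p ∈ Over m z (closedBall (0 : Plane) 1))
    (hc : IsCompact (D ∪ (fun p => (p, p)) '' Q)) (hQ : Q.Finite) :
    IsCompact ((D \ flipSet G φ) ∪ (fun p => (p, p)) '' Q) := by
  refine hc.of_isClosed_subset ?_ (union_subset_union_left _ sdiff_subset)
  refine isClosed_of_closure_subset fun c hcc => ?_
  rw [closure_union] at hcc
  rcases hcc with hcc | hcc
  · have h1 : c ∈ closure (flipLiftBad m z (flipSet G φ)) := by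
      refine closure_mono (fun d hd => ?_) hcc
      have h2 := hD d hd.1
      exact ⟨⟨h2.1, h2.2.1⟩, h2.2.2.1, h2.2.2.2, hd.2⟩
    have h2 : c ∈ D ∪ (fun p => (p, p)) '' Q :=
      closure_minimal (sdiff_subset.trans subset_union_left) hc.isClosed hcc
    rcases h2 with h2 | h2
    · exact Or.inl ⟨h2, fun h3 => flipLift_notMem hE hg hR h hG hcl hΦ h3 (x := c.1) h1⟩
    · exact Or.inr h2
  · rw [(hQ.image _).isClosed.closure_eq] at hcc
    exact Or.inr hcc

/-- The flipped pairs are not the lower pairs of a triple. -/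
private theorem ft_top (hR : Region m z R) (hG : IsCurves G (FreeSet m z R Φ))
    (hD : ∀ p ∈ D, p ∈ Over m z (closedBall (0 : Plane) 1)) {p : Plane × Plane}
    (hp : p ∈ flipSet G φ) : Top D p := by
  obtain ⟨h1, h2⟩ := mem_over_of_flipSet hG hp
  intro w
  constructor
  · intro hw
    have h3 := hD _ hw
    have h4 : w ∈ R := hR.up p.1 h1.1 w h3.1 h3.2.2.1 h3.2.2.2
    exact h2 ⟨w, p.1, ⟨h4, h1.1, h3.2.2⟩, h1⟩
  · rintro ⟨hw1, hw2⟩
    have h3 := hD _ hw2
    have h3' := hD _ hw1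
    have h4 : w ∈ R := hR.up p.2 h1.2.1 w h3.1 h3.2.2.1 h3.2.2.2
    exact h2 ⟨p.1, w, ⟨h1.1, h4, h3'.2.2⟩, ⟨h4, h1.2.1, h3.2.2⟩⟩

private theorem ft_turnable [Finite ι] (hE : Emb m z) (hg : Gen m) (hR : Region m z R)
    (h : CutFlow m v Φ) (hG : IsCurves G (FreeSet m z R Φ)) (hcl : ∀ i, G.closed i)
    (hΦ : ∀ i r t, Φ r (G.c i t) = G.c i (t + r))
    (hD : ∀ p, p ∈ D ↔ p ∈ Over m z (closedBall (0 : Plane) 1))
    (hc : IsCompact (D ∪ (fun p => (p, p)) '' Q)) (hQ : Q.Finite) :
    CTurnable D Q (flipSet G φ) where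
  sub := fun p hp => (hD p).2 (Over.mono hR.sub' (mem_over_of_flipSet hG hp).1)
  compact := flipLift_isCompact hG
  compact' := ft_compact' hE hg hR h hG hcl hΦ (fun p hp => (hD p).1 hp) hc hQ
  inside := fun _ hp => hR.sub (mem_over_of_flipSet hG hp).1.2.1
  top := fun _ hp => ft_top hR hG (fun q hq => (hD q).1 hq) hp

end Aux

/-- The proof of `exists_flip_noTrap` with `Φ' = flipSet G φ` and `IsFlip.cross`. `Φ'` is a finite
union of closed orbits, so compact; it is open in the double set by the flow box (compare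
`flipLift_notMem`); no lower point of `Φ'` is a bottom point, since `region F s` contains with a
point the points above it. -/
theorem exists_flip_turn {F : Plane → EuclideanSpace ℝ (Fin 4)} (hF : IsSliceDisc F)
    (hU : Umb F) {s : ℝ} (hs : 0 < s) {v : Plane × Plane → Plane × Plane}
    {Φ : ℝ → Plane × Plane → Plane × Plane} (hΦ : CutFlow (shadow F) v Φ)
    (hfree : ∀ c ∈ FreeSet (shadow F) (fun x => F x 3) (region F s) Φ, s < F c.2 3) :
    ∃ (z' : Plane → ℝ) (Φ' : Set (Plane × Plane)), Emb (shadow F) z' ∧ (∀ x, F x 3 ≤ z' x) ∧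
      (∃ C ⊆ interior (region F s), IsCompact C ∧ ∀ x ∉ C, z' x = F x 3) ∧
      CTurnable (DoubleSet F) (caps F) Φ' ∧
      (∀ p, p ∈ Over (shadow F) z' (closedBall (0 : Plane) 1) ↔ p ∈ turn (DoubleSet F) Φ') ∧
      ∀ Z, IsLTrap (shadow F) z' (region F s) Z →
        ∃ r ∈ Z, r ∈ bottoms (shadow F) z' (region F s) := by
  have hE := emb_shadow hF
  have hg := hU.gen
  have hR : Region (shadow F) (fun x => F x 3) (region F s) := region_height hF hs
  obtain ⟨ι, hι, G, hG, hcl, hΦG⟩ := exists_freeCurves hE hg hR hΦ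
  obtain ⟨φ, -, ρu, ρl, h1, h2⟩ := exists_flip hG (fun _ => True)
  have hint : ∀ c ∈ FreeSet (shadow F) (fun x => F x 3) (region F s) Φ,
      c.2 ∈ interior (region F s) := by
    intro c hc
    have h3 := hfree c hc
    have h4 : c.2 ∈ ball (0 : Plane) 1 := hR.sub (mem_over_of_free hc).1.2.1
    have h5 : IsOpen (ball (0 : Plane) 1 ∩ {x | s < F x 3}) :=
      isOpen_ball.inter (isOpen_lt continuous_const hE.smz.continuous)
    exact mem_interior.2 ⟨ball (0 : Plane) 1 ∩ {x | s < F x 3},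
      fun x hx => ⟨ball_subset_closedBall hx.1, le_of_lt hx.2⟩, h5, h4, h3⟩
  obtain ⟨z', hz'⟩ := exists_flip_lift hE hg hR hΦ hG hcl hΦG hint φ
  have hD : ∀ p, p ∈ DoubleSet F ↔
      p ∈ Over (shadow F) (fun x => F x 3) (closedBall (0 : Plane) 1) := fun p => Iff.rfl
  refine ⟨z', flipSet G φ, hz'.emb, hz'.le, hz'.eq,
    ft_turnable hE hg hR hΦ hG hcl hΦG hD (isCompact_double_caps hF hU) (finite_caps hF hU),
    fun p => hz'.cross p, ?_⟩
  intro Z hZ
  rw [bottoms_flip hE hg hR hG hz']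
  by_contra hcon
  refine no_ltrap hE hg hR hΦ hG hcl hz' ρu ρl (fun i => h1 i trivial)
    (fun i j => h2 i j trivial trivial) hZ (Set.disjoint_left.2 fun r hr hr' => ?_)
  exact hcon ⟨r, hr, hr'⟩

end Pool.Agent.Lib_MP_752436_cu
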