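import Pool.Agent.Lib_MP_752436_cu.Balls

/-!
Piece U12: births of a generic projection from a finite set which meets all traps; the core.
-/

open MeasureTheory Metric Set Filter
open scoped ContDiff Topology

namespace Pool.Agent.Lib_MP_752436_cu

open Pool.Agent.Lib_MP_752436_gt Pool.Agent.Lib_MP_752436_tp Pool.Agent.Lib_MP_752436_rb
  Pool.Agent.Lib_MP_752436_ch Pool.Agent.Lib_MP_752436_ts
open Pool.Agent.Lib_MP_752436_mv (flipSet exists_strip exists_chi hybrid_lap_neg hybrid_below
  exists_lowering_local)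
open Pool.Agent.Lib_MP_752436_nb (births_of_height)

/-- As `ts/Assembly` `births_of_goodLevel`, with the flipped height `z` given and `P` in place of
the bottom points. -/
theorem births_of_lift {F : Plane → EuclideanSpace ℝ (Fin 4)} (hF : IsSliceDisc F)
    (hg : Gen (shadow F)) {s : ℝ} (hs0 : 0 < s)
    (hreg : ∀ x ∈ closedBall (0 : Plane) 1, F x 3 = s → fderiv ℝ (fun y => F y 3) x ≠ 0)
    {z : Plane → ℝ} (hEz : Emb (shadow F) z) (hle : ∀ x, F x 3 ≤ z x)
    (hC : ∃ C ⊆ interior (region F s), IsCompact C ∧ ∀ x ∉ C, z x = F x 3) (P : Finset Plane)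
    (hPb : ∀ p ∈ P, p ∈ ball (0 : Plane) 1 ∧ s < F p 3)
    (hPi : ∀ p ∈ P, Function.Injective (fderiv ℝ (shadow F) p))
    (hPu : ∀ p ∈ P, ∀ y, (p, y) ∉ Over (shadow F) z (closedBall (0 : Plane) 1))
    (hno : ∀ Z, IsLTrap (shadow F) z (region F s) Z → ∃ p ∈ P, p ∈ Z) (Q : Finset Plane)
    (hQ : ∀ p ∈ Q, p ∈ ball (0 : Plane) 1 ∧ F p 3 ≤ s ∧
      ∀ u, u ≠ 0 → 0 < fderiv ℝ (fderiv ℝ (fun y => F y 3)) p u u)
    (hcrit : ∀ x ∈ closedBall (0 : Plane) 1, F x 3 ≤ s → fderiv ℝ (fun y => F y 3) x = 0 →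
      (∃ u, fderiv ℝ (fderiv ℝ (fun y => F y 3)) x u u < 0) ∨ x ∈ Q) :
    ∃ G, MorseDisc G ∧ boundaryKnot G = boundaryKnot F ∧
      (births G).encard ≤ (Q.card : ℕ∞) + (P.card : ℕ∞) := by
  classical
  have hE := emb_shadow hF
  obtain ⟨C, hCi, hCc, hCeq⟩ := hC
  set m : Plane → Space := shadow F with hm
  set t : Plane → ℝ := fun y => F y 3 with ht
  have hts : ContDiff ℝ ∞ t := hE.smz
  have hzs : ContDiff ℝ ∞ z := hEz.smz
  set R : Set Plane := region F s with hRdef
  have hR : Region m t R := region_height hF hs0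
  -- on the compact set `C` the height is larger than `s`
  have hCs : ∀ x ∈ C, s < t x := by
    intro x hx
    have h1 := hCi hx
    have h2 : x ∈ R := interior_subset h1
    rcases (show s ≤ t x from h2.2).lt_or_eq with h3 | h3
    · exact h3
    · exfalso
      have h4 : IsLocalMin t x := by
        filter_upwards [isOpen_interior.mem_nhds h1] with y hy
        have h5 : y ∈ R := interior_subset hy
        rw [← h3]
        exact h5.2
      exact hreg x h2.1 h3.symm h4.fderiv_eq_zero
  have hnearC : ∀ x ∉ C, z =ᶠ[𝓝 x] t := by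
    intro x hx
    filter_upwards [hCc.isClosed.isOpen_compl.mem_nhds hx] with y hy
    exact hCeq y hy
  have hlow : ∀ x, t x ≤ s → x ∉ C := fun x hx hC => (hCs x hC).not_ge hx
  have hzC : ∀ x, z x ≤ s → x ∉ C := fun x hx hC => by
    have := hCs x hC
    have := hle x
    have h3 : t x ≤ z x := hle x
    linarith
  have hzt : ∀ x, z x ≤ s ↔ t x ≤ s := by
    intro x
    constructor
    · intro h
      have h3 : t x ≤ z x := hle x
      linarith
    · intro h
      rw [hCeq x (hlow x h)]
      exact h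
  have hzR : ∀ x ∈ closedBall (0 : Plane) 1, s ≤ z x → x ∈ R := by
    intro x hx h
    by_cases hC : x ∈ C
    · exact interior_subset (hCi hC)
    · rw [hCeq x hC] at h
      exact ⟨hx, h⟩
  have hregz : ∀ x ∈ closedBall (0 : Plane) 1, z x = s → fderiv ℝ z x ≠ 0 := by
    intro x hx h
    have h1 := hzC x h.le
    rw [(hnearC x h1).fderiv_eq]
    refine hreg x hx ?_
    rw [← hCeq x h1]
    exact h
  have hPz : ∀ p ∈ P, s < z p := fun p hp => (hPb p hp).2.trans_le (hle p)
  -- the strip
  obtain ⟨d1, hd1, c₁, hc₁, hstrip⟩ := exists_strip hzs hregz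
  obtain ⟨d₀, hd₀, hd₀1, hd₀P⟩ : ∃ d₀ > 0, d₀ ≤ d1 ∧ ∀ p ∈ P, s + d₀ < z p := by
    rcases P.eq_empty_or_nonempty with he | hne
    · exact ⟨d1, hd1, le_rfl, fun p hp => by rw [he] at hp; exact absurd hp (Finset.notMem_empty _)⟩
    · obtain ⟨e, he, hmin⟩ := P.exists_min_image (fun p => z p) hne
      have h1 := hPz e he
      refine ⟨min d1 ((z e - s) / 2), lt_min hd1 (by linarith), min_le_left _ _, ?_⟩
      intro p hp
      have h2 := hmin p hp
      have h4 := min_le_right d1 ((z e - s) / 2)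
      linarith
  -- the balls
  have hUo : IsOpen (ball (0 : Plane) 1 ∩ {x | s + d₀ < z x}) :=
    isOpen_ball.inter (isOpen_lt continuous_const hzs.continuous)
  obtain ⟨r, hr, hball, hsep⟩ := exists_ballRadius_hit hEz P hPi hPu hUo
    (fun p hp => ⟨(hPb p hp).1, hd₀P p hp⟩)
  set ε : ℝ := r / 2 with hε
  have hε0 : 0 < ε := by positivity
  have hεR : ε < r := by rw [hε]; linarith
  -- the compact set
  set K : Set Plane := {x | x ∈ R ∧ ∀ p ∈ P, ε ≤ dist x p} with hK
  have hKc : IsCompact K := by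
    have h5 : K = R ∩ ⋂ p ∈ P, {x | ε ≤ dist x p} := by
      ext x
      simp only [hK, mem_inter_iff, Set.mem_ofPred_eq, mem_iInter]
    rw [h5]
    exact hR.compact.inter_right (isClosed_biInter fun p _ => isClosed_le continuous_const
      (continuous_id.dist continuous_const))
  obtain ⟨φ, hφ, hφr, hφl⟩ := exists_superharmonic_lift hEz hg hKc
    (fun x hx => hR.sub hx.1) (by
      rintro ⟨Z, hZ⟩
      obtain ⟨x, hxP, hxZ⟩ := hno Z (hZ.mono fun x hx => hx.1)
      have h5 := (hZ.sub hxZ).2 x hxP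
      rw [dist_self] at h5
      linarith)
  -- the constants
  obtain ⟨μ, hμ, hμK⟩ : ∃ μ > 0, ∀ x ∈ K, lap φ x ≤ -μ := by
    rcases K.eq_empty_or_nonempty with he | hne
    · exact ⟨1, one_pos, fun x hx => by rw [he] at hx; exact absurd hx (notMem_empty x)⟩
    · obtain ⟨a, ha, hmax⟩ := hKc.exists_isMaxOn hne (continuous_lap hφ).continuousOn
      exact ⟨-lap φ a, by linarith [hφl a ha], fun x hx => by
        have h5 : lap φ x ≤ lap φ a := hmax hx
        linarith⟩
  obtain ⟨C0, hC0⟩ := (isCompact_closedBall (0 : Plane) 1).exists_bound_of_continuousOn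
    (continuous_lap hzs).continuousOn
  set A : ℝ := max C0 1 with hA
  have hApos : 0 < A := lt_of_lt_of_le one_pos (le_max_right _ _)
  have hAt : ∀ x ∈ closedBall (0 : Plane) 1, |lap z x| ≤ A := fun x hx =>
    (hC0 x hx).trans (le_max_left _ _)
  set M : ℝ := (A + 1) / μ with hM
  have hM0 : 0 ≤ M := by positivity
  have hMμ : M * μ = A + 1 := by
    rw [hM]; field_simp
  -- lowering
  set ψ : Plane → ℝ := fun x => z x + M * φ x with hψ
  have hψs : ContDiff ℝ ∞ ψ := hzs.add (contDiff_const.mul hφ)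
  obtain ⟨B, P', hBs, hB0, hBR, hBl, hP'c, hP'1, hP'2⟩ :=
    exists_lowering_local hε0 hεR hsep hψs
  set w0 : Plane → ℝ := fun x => M * φ x - B x with hw0
  have hw0s : ContDiff ℝ ∞ w0 := (contDiff_const.mul hφ).sub hBs
  obtain ⟨c0, hc0⟩ := (isCompact_closedBall (0 : Plane) 1).exists_bound_of_continuousOn
    (f := fun x => w0 x) hw0s.continuous.continuousOn
  set g : Plane → ℝ := fun x => w0 x + (c0 + 1) with hgd
  have hgs : ContDiff ℝ ∞ g := hw0s.add contDiff_const
  have hg1 : ∀ x ∈ closedBall (0 : Plane) 1, 0 ≤ g x := by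
    intro x hx
    have h5 := hc0 x hx
    rw [Real.norm_eq_abs, abs_le] at h5
    simp only [hgd]
    linarith [h5.1]
  -- `g` is rising
  have hBup : ∀ x ∈ closedBall (0 : Plane) 1, ∀ y ∈ closedBall (0 : Plane) 1,
      m x = m y → z y < z x → B x = 0 := by
    intro x hx y hy hm hlt
    apply hBR
    intro p hp
    by_contra hcon
    push Not at hcon
    obtain ⟨-, -, h6⟩ := hball p hp x (mem_closedBall.2 hcon.le)
    exact h6 y ⟨hx, hy, hm, hlt⟩
  have hBd : ∀ x, ∀ u, fderiv ℝ m x u = 0 → fderiv ℝ B x u = 0 := by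
    intro x u hu
    by_cases hx : ∃ p ∈ P, dist x p ≤ r
    · obtain ⟨p, hp, hxp⟩ := hx
      obtain ⟨-, hinj, -⟩ := hball p hp x (mem_closedBall.2 hxp)
      have h5 : u = 0 := hinj (hu.trans (map_zero _).symm)
      rw [h5, map_zero]
    · push Not at hx
      have h5 : ∀ᶠ y in 𝓝 x, B y = 0 := by
        have h6 : ∀ᶠ y in 𝓝 x, ∀ p ∈ P, r < dist y p := by
          rw [Filter.eventually_all_finset]
          intro p hp
          exact (continuous_id.dist continuous_const).continuousAt.eventually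
            (lt_mem_nhds (hx p hp))
        filter_upwards [h6] with y hy
        exact hBR y fun p hp => (hy p hp).le
      have h7 : B =ᶠ[𝓝 x] fun _ => 0 := h5
      rw [h7.fderiv_eq]
      simp
  have hgr : Rising m z g := by
    refine ⟨?_, ?_⟩
    · intro x hx y hy hm hlt
      have h5 := hφr.cross x hx y hy hm hlt
      have h6 := hBup x hx y hy hm hlt
      have h7 := hB0 y
      have h8 := mul_le_mul_of_nonneg_left h5 hM0
      simp only [hgd, hw0]
      linarith
    · intro x hx u hu hzu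
      have h5 := hφr.cap x hx u hu hzu
      have h6 := hBd x u hu
      have e1 : HasFDerivAt φ (fderiv ℝ φ x) x := ((hφ.differentiable (by simp)) x).hasFDerivAt
      have e2 : HasFDerivAt B (fderiv ℝ B x) x := ((hBs.differentiable (by simp)) x).hasFDerivAt
      have e3 : HasFDerivAt g (M • fderiv ℝ φ x - fderiv ℝ B x) x :=
        ((e1.const_mul M).sub e2).add_const _
      rw [e3.fderiv]
      simp only [sub_apply, smul_apply, smul_eq_mul, h6, sub_zero]
      exact mul_nonneg hM0 h5
  -- the cut off function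
  obtain ⟨d, hd, hdd₀, χ, hχs, hχ0, hχ1, hχn, hχle, hχpos, hχm, hχi⟩ := exists_chi hApos hc₁ hd₀
  have hχmono : Monotone χ := by
    refine monotone_of_deriv_nonneg (hχs.differentiable (by simp)) hχm
  set T : Plane → ℝ := fun y => z y + χ (z y - s) * g y with hT
  have hTs : ContDiff ℝ ∞ T := hzs.add ((hχs.comp (hzs.sub contDiff_const)).mul hgs)
  have hET : Emb m T := by
    refine hEz.of_rising hTs ?_ ?_
    · intro x hx y hy hm hlt
      have h5 := hgr.cross x hx y hy hm hlt
      have h6 : χ (z y - s) ≤ χ (z x - s) := hχmono (by linarith)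
      have h7 := hg1 x hx
      have h8 : χ (z y - s) * g y ≤ χ (z y - s) * g x :=
        mul_le_mul_of_nonneg_left h5 (hχn _)
      have h9 : χ (z y - s) * g x ≤ χ (z x - s) * g x :=
        mul_le_mul_of_nonneg_right h6 h7
      simp only [hT]
      linarith
    · intro x hx u hu hzu
      have h5 := hgr.cap x hx u hu hzu.le
      have e1 : HasFDerivAt z (fderiv ℝ z x) x := ((hzs.differentiable (by simp)) x).hasFDerivAt
      have e2 : HasFDerivAt g (fderiv ℝ g x) x := ((hgs.differentiable (by simp)) x).hasFDerivAt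
      have e3 : HasDerivAt χ (deriv χ (z x - s)) (z x - s) :=
        ((hχs.differentiable (by simp)) _).hasDerivAt
      have e4 : HasFDerivAt (fun y => χ (z y - s)) (deriv χ (z x - s) • fderiv ℝ z x) x :=
        e3.comp_hasFDerivAt x (e1.sub_const s)
      have e5 : HasFDerivAt T (fderiv ℝ z x + (χ (z x - s) • fderiv ℝ g x +
          g x • (deriv χ (z x - s) • fderiv ℝ z x))) x := e1.add (e4.mul e2)
      rw [e5.fderiv]
      simp only [add_apply, smul_apply, smul_eq_mul]
      have h6 := mul_nonneg (hχn (z x - s)) h5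
      have h7 := mul_nonneg (hg1 x hx) (mul_nonneg (hχm (z x - s)) hzu.le)
      linarith
  -- near low points
  have hTlow : ∀ x, z x ≤ s → T x = z x := by
    intro x hx
    simp only [hT]
    rw [hχ0 _ (by linarith)]
    ring
  have hsph : ∀ x ∈ sphere (0 : Plane) 1, z x = 0 := by
    intro x hx
    have h1 : t x = 0 := hF.boundary x hx
    rw [hCeq x (hlow x (by rw [h1]; exact hs0.le))]
    exact h1
  have hF1 : IsSliceDisc (liftDisc m T) := by
    refine isSliceDisc_liftDisc hET ?_ ?_
    · intro x hx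
      rw [hTlow x (by rw [hsph x hx]; exact hs0.le), hsph x hx]
    · intro x hx
      have h1 : 0 < t x := hF.interior x hx
      have h2 : t x ≤ z x := hle x
      have h3 := mul_nonneg (hχn (z x - s)) (hg1 x (ball_subset_closedBall hx))
      simp only [hT]
      linarith
  -- the form near the small balls
  have hnear : ∀ x, s + d < z x → T =ᶠ[𝓝 x] fun y => (ψ y - B y) + (c0 + 1) := by
    intro x hx
    filter_upwards [hzs.continuous.continuousAt.eventually (lt_mem_nhds hx)] with y hy
    simp only [hT, hgd, hψ, hw0]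
    rw [hχ1 _ (by linarith)]
    ring
  have hψB : ContDiff ℝ ∞ fun y => ψ y - B y := hψs.sub hBs
  have hfd : ∀ x, s + d < z x → fderiv ℝ T x = fderiv ℝ (fun y => ψ y - B y) x := by
    intro x hx
    rw [(hnear x hx).fderiv_eq, fderiv_add_const]
  have hfdd : ∀ x, s + d < z x →
      fderiv ℝ (fderiv ℝ T) x = fderiv ℝ (fderiv ℝ (fun y => ψ y - B y)) x := by
    intro x hx
    rw [((hnear x hx).fderiv).fderiv_eq]
    congr 1
    funext y
    rw [fderiv_add_const]
  have hballt : ∀ x, (∃ p ∈ P, dist x p ≤ ε) → x ∈ ball (0 : Plane) 1 ∧ s + d < z x := by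
    rintro x ⟨p, hp, hxp⟩
    obtain ⟨h5, -, -⟩ := hball p hp x (mem_closedBall.2 (hxp.trans hεR.le))
    have h6 : s + d₀ < z x := h5.2
    exact ⟨h5.1, by linarith⟩
  -- the Laplacian of `g`
  have hlapg : ∀ x ∈ closedBall (0 : Plane) 1, s ≤ z x → (∀ p ∈ P, ε ≤ dist x p) →
      lap g x ≤ -(A + 1) := by
    intro x hx hsx hxp
    have hxK : x ∈ K := ⟨hzR x hx hsx, hxp⟩
    have hgeq : g = (M • φ + (-1 : ℝ) • B) + fun _ => c0 + 1 := by
      funext y
      simp only [hgd, hw0, Pi.add_apply, Pi.smul_apply, smul_eq_mul]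
      ring
    have e1 : ContDiff ℝ ∞ (M • φ) := contDiff_const.smul hφ
    have e2 : ContDiff ℝ ∞ ((-1 : ℝ) • B) := contDiff_const.smul hBs
    have e5 : lap g x = M * lap φ x + -1 * lap B x := by
      have e6 : lap g x = lap (M • φ + (-1 : ℝ) • B) x := by
        rw [hgeq]
        unfold lap
        have e7 : fderiv ℝ ((M • φ + (-1 : ℝ) • B) + fun _ => c0 + 1) =
            fderiv ℝ (M • φ + (-1 : ℝ) • B) := by
          funext y
          exact fderiv_add_const (c0 + 1)
        rw [e7]
      rw [e6, lap_add e1 e2, lap_smul _ hφ, lap_smul _ hBs]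
      rfl
    rw [e5]
    have h5 := hμK x hxK
    have h7 := hBl x hxp
    have h8 := mul_le_mul_of_nonneg_left h5 hM0
    have h10 : M * -μ = -(A + 1) := by rw [mul_neg, hMμ]
    linarith
  -- second derivatives below the level
  have hbelow : ∀ x, t x ≤ s → fderiv ℝ T x = fderiv ℝ t x ∧
      fderiv ℝ (fderiv ℝ T) x = fderiv ℝ (fderiv ℝ t) x := by
    intro x hx
    obtain ⟨h6, h7⟩ := hybrid_below hzs hgs hχs hχ0 (s := s) (x := x) ((hzt x).2 hx)
    have h8 := hnearC x (hlow x hx)
    refine ⟨h6.trans h8.fderiv_eq, h7.trans ?_⟩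
    exact (h8.fderiv).fderiv_eq
  obtain ⟨G, hG, hGn, hGF, -⟩ := births_of_height hF1
    (ψ := fun q : EuclideanSpace ℝ (Fin 4) => q 3)
    (EuclideanSpace.proj (3 : Fin 4) : EuclideanSpace ℝ (Fin 4) →L[ℝ] ℝ).contDiff
    fderiv_three_nonneg (Q ∪ P')
    (by
      intro p hp
      have hTT : (fun y => liftDisc m T y 3) = T := rfl
      rw [hTT]
      rcases Finset.mem_union.1 hp with h5 | h5
      · obtain ⟨h6, h7, h8⟩ := hQ p h5
        refine ⟨h6, ?_⟩
        rw [(hbelow p h7).2]
        exact h8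
      · obtain ⟨h6, h7⟩ := hP'1 p h5
        obtain ⟨h8, h9⟩ := hballt p h6
        refine ⟨h8, ?_⟩
        rw [hfdd p h9]
        exact h7)
    (by
      intro x hx h0
      have hTT : (fun y => liftDisc m T y 3) = T := rfl
      rw [hTT] at h0 ⊢
      rcases le_or_gt (t x) s with h5 | h5
      · obtain ⟨h6, h7⟩ := hbelow x h5
        rw [h7]
        rw [h6] at h0
        rcases hcrit x hx h5 h0 with h8 | h8
        · exact Or.inl h8
        · exact Or.inr (Finset.mem_union_left _ h8)
      · have h5' : s < z x := h5.trans_le (hle x)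
        by_cases hxp : ∃ p ∈ P, dist x p ≤ ε
        · right
          obtain ⟨h6, h7⟩ := hballt x hxp
          rw [hfd x h7] at h0
          exact Finset.mem_union_right _ (hP'2 x hxp h0)
        · left
          push Not at hxp
          apply neg_direction_of_lap_ts
          exact hybrid_lap_neg hzs hgs hχs hc₁ hχn hχ1 hχle hχpos hχm hχi h5' (hAt x hx)
            (fun h6 => hstrip x hx h5'.le (by linarith))
            (hg1 x hx)
            (hlapg x hx h5'.le fun p hp => (hxp p hp).le) h0)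
  refine ⟨G, hG, ?_, hGn.trans ?_⟩
  · unfold boundaryKnot
    refine image_congr fun x _ => ?_
    ext i
    fin_cases i
    · exact hGF x 0 (by decide)
    · exact hGF x 1 (by decide)
    · exact hGF x 2 (by decide)
  · have h5 : ((Q ∪ P').card : ℕ∞) ≤ ((Q.card + P'.card : ℕ) : ℕ∞) := by
      exact_mod_cast Finset.card_union_le _ _
    refine h5.trans ?_
    rw [Nat.cast_add]
    refine add_le_add le_rfl ?_
    exact_mod_cast hP'c

end Pool.Agent.Lib_MP_752436_cu
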