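import Pool.Agent.Lib_MP_752436_cu.Hitting
import Pool.Agent.Lib_MP_752436_cu.CapFinite

/-!
Piece U13: births of a generic projection from a finite set which meets all traps.
-/

open MeasureTheory Metric Set Filter
open scoped ContDiff Topology

namespace Pool.Agent.Lib_MP_752436_cu

open Pool.Agent.Lib_MP_752436_gt Pool.Agent.Lib_MP_752436_tp Pool.Agent.Lib_MP_752436_rb
  Pool.Agent.Lib_MP_752436_ch Pool.Agent.Lib_MP_752436_ts

/-- A continuous function which is positive on a compact set has a positive lower bound. -/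
private theorem HittingSlice_lower {T : Plane → ℝ} (hT : Continuous T) {K : Set Plane}
    (hK : IsCompact K) (hpos : ∀ x ∈ K, 0 < T x) : ∃ δ > 0, ∀ x ∈ K, δ ≤ T x := by
  rcases K.eq_empty_or_nonempty with he | hne
  · refine ⟨1, one_pos, fun x hx => ?_⟩
    rw [he] at hx
    exact absurd hx (notMem_empty x)
  · obtain ⟨a, ha, hmin⟩ := hK.exists_isMinOn hne hT.continuousOn
    exact ⟨T a, hpos a ha, fun x hx => hmin hx⟩

/-- As `ts/Main` `births_of_bottoms_slice`: collar (`exists_collar`), a small level `s`, no flips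
(`z` = the height with collar), `births_of_lift`. A trap `IsLTrap .. Z` is a `CTrap`. -/
theorem births_of_hitting {F : Plane → EuclideanSpace ℝ (Fin 4)} (hF : IsSliceDisc F)
    (hU : Umb F) (P : Finset Plane) (hPb : ∀ p ∈ P, p ∈ ball (0 : Plane) 1)
    (hPi : ∀ p ∈ P, p ∉ caps F) (hPu : ∀ p ∈ P, ∀ y, (p, y) ∉ DoubleSet F)
    (hno : ∀ Z, CTrap (DoubleSet F) (caps F) Z → ∃ p ∈ P, p ∈ Z) :
    ∃ G, MorseDisc G ∧ boundaryKnot G = boundaryKnot F ∧ (births G).encard ≤ P.card := by
  classical
  obtain ⟨T, hET, hT0, hT1, hTo, r, hr, hTr⟩ := exists_collar hF hU.cap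
  have hF1 : IsSliceDisc (liftDisc (shadow F) T) := isSliceDisc_liftDisc hET hT0 hT1
  have hsh : shadow (liftDisc (shadow F) T) = shadow F := shadow_liftDisc _ _
  have hg1 : Gen (shadow (liftDisc (shadow F) T)) := by rw [hsh]; exact hU.gen
  have hdouble : ∀ x y, (x, y) ∈ Over (shadow F) T (closedBall (0 : Plane) 1) →
      (x, y) ∈ DoubleSet F := by
    rintro x y ⟨h1, h2, h3, h4⟩
    exact ⟨h1, h2, h3, (hTo _ h1 _ h2 h3).1 h4⟩
  -- a positive lower bound of the height away from the circle and on `P`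
  obtain ⟨δ, hδ, hδr⟩ : ∃ δ > 0, ∀ x ∈ closedBall (0 : Plane) r ∪ (P : Set Plane), δ ≤ T x := by
    refine HittingSlice_lower hET.smz.continuous
      ((isCompact_closedBall (0 : Plane) r).union P.finite_toSet.isCompact) ?_
    rintro x (hx | hx)
    · exact hT1 x (mem_ball_zero_iff.2 ((mem_closedBall_zero_iff.1 hx).trans_lt hr))
    · exact hT1 x (hPb x hx)
  set s : ℝ := δ / 2 with hs
  have hs0 : 0 < s := by positivity
  have hsδ : s < δ := by rw [hs]; linarith
  have hlow : ∀ x ∈ closedBall (0 : Plane) 1, T x ≤ s → fderiv ℝ T x ≠ 0 := by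
    intro x hx hxs
    refine hTr x hx ?_
    by_contra hcon
    push Not at hcon
    have := hδr x (Or.inl (mem_closedBall_zero_iff.2 hcon))
    linarith
  obtain ⟨G, hG, hGk, hGn⟩ := births_of_lift hF1 hg1 hs0
    (fun x hx hxs => hlow x hx (le_of_eq hxs)) (z := T) (by rw [hsh]; exact hET)
    (fun x => le_rfl) ⟨∅, empty_subset _, isCompact_empty, fun x _ => rfl⟩ P
    (fun p hp => ⟨hPb p hp, hsδ.trans_le (hδr p (Or.inr hp))⟩)
    (by
      intro p hp
      rw [hsh]
      by_contra hcon
      exact hPi p hp ⟨ball_subset_closedBall (hPb p hp), hcon⟩)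
    (by
      intro p hp y hy
      rw [hsh] at hy
      exact hPu p hp y (hdouble p y hy))
    (by
      intro Z hZ
      rw [hsh] at hZ
      have hreg : region (liftDisc (shadow F) T) s ⊆ ball (0 : Plane) 1 :=
        (region_height hF1 hs0).sub
      have hZb : Z ⊆ ball (0 : Plane) 1 := hZ.sub.trans hreg
      refine hno Z ⟨hZ.compact, hZ.nonempty, hZb, ?_, ?_⟩
      · intro x hx
        have hxZ : x ∈ Z := hZ.compact.isClosed.frontier_subset hx
        by_cases hi : Function.Injective (fderiv ℝ (shadow F) x)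
        · obtain ⟨y, hy, hxy⟩ := hZ.above x hx hi
          exact Or.inr ⟨y, hy, hdouble x y (Over.mono (hreg.trans ball_subset_closedBall) hxy)⟩
        · exact Or.inl ⟨ball_subset_closedBall (hZb hxZ), hi⟩
      · intro x hx hxQ
        exact hZ.cap x hx hxQ.2) ∅
    (fun p hp => absurd hp (Finset.notMem_empty p))
    (fun x hx hxs h0 => absurd h0 (hlow x hx hxs))
  refine ⟨G, hG, ?_, ?_⟩
  · rw [hGk, boundaryKnot_liftDisc]
    rfl
  · rwa [Finset.card_empty, Nat.cast_zero, zero_add] at hGn

end Pool.Agent.Lib_MP_752436_cu
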