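import Pool.Agent.Lib_MP_752436_cu.UmbAE
import Pool.Agent.Lib_MP_752436_cu.HittingSlice
import Pool.Agent.Lib_MP_752436_cu.CapLinear
import Pool.Agent.Lib_MP_752436_cu.CapTrap
import Pool.Agent.Lib_MP_752436_cu.CutEdges
import Pool.Agent.Lib_MP_752436_cu.CapPEdges
import Pool.Agent.Lib_MP_752436_cu.CapTriple

/-!
Births against chambers in almost every direction.
-/

open MeasureTheory Metric Set Filter
open scoped ContDiff Topology

namespace Pool.Agent.Lib_MP_752436_cu

open Pool.Agent.Lib_MP_752436_gt Pool.Agent.Lib_MP_752436_tp Pool.Agent.Lib_MP_752436_rb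
  Pool.Agent.Lib_MP_752436_ch Pool.Agent.Lib_MP_752436_ts

variable {F : Plane → EuclideanSpace ℝ (Fin 4)}

/-- Generic projections: `exists_hitting` for the space of cycles, lower points in the middle of
the chosen edges. -/
theorem births_le_regions (hF : IsSliceDisc F) (hU : Umb F) :
    ∃ G, MorseDisc G ∧ boundaryKnot G = boundaryKnot F ∧
      (births G).encard ≤ (regions (shadow F)).encard := by
  classical
  have hS := cstrict_doubleSet hF hU
  obtain ⟨κ0, hκ0, c0, a0, b0, hP⟩ := exists_pedges hF hU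
  obtain ⟨κ, hκ, c, a, b, hE⟩ := exists_cedges (finite_vertices_umb hF hU)
    (fun p _ => hS.irrefl p) hP
  have hmid : ∀ e, (a e + b e) / 2 ∈ Ioo (a e) (b e) := by
    intro e
    have h1 := hE.pedges.lt e
    constructor <;> linarith
  -- a set of edges which hits all cycles gives the points
  have key : ∀ S : Finset κ, (∀ n ∈ cycles c a b, (∀ e ∈ S, n e = 0) → n = 0) →
      ∃ G, MorseDisc G ∧ boundaryKnot G = boundaryKnot F ∧ (births G).encard ≤ S.card := by
    intro S hhit
    set P : Finset Plane := (S.image (fun e => (c e ((a e + b e) / 2)).2)).filter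
      (fun p => p ∈ ball (0 : Plane) 1) with hPdef
    have hPS : ∀ p ∈ P, p ∈ ball (0 : Plane) 1 ∧ ∃ e ∈ S, (c e ((a e + b e) / 2)).2 = p := by
      intro p hp
      obtain ⟨h1, h2⟩ := Finset.mem_filter.1 hp
      exact ⟨h2, Finset.mem_image.1 h1⟩
    obtain ⟨G, hG, hGk, hGn⟩ := births_of_hitting hF hU P
      (fun p hp => (hPS p hp).1)
      (by
        intro p hp
        obtain ⟨-, e, -, rfl⟩ := hPS p hp
        exact hS.sndQ _ (hE.pedges.inner e _ (hmid e)))
      (by
        intro p hp y hy
        obtain ⟨-, e, -, rfl⟩ := hPS p hp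
        exact hE.novertex e _ (hmid e) ⟨hE.pedges.inner e _ (hmid e), y, Or.inl hy⟩)
      (by
        intro Z hZ
        obtain ⟨n, hn, hsub, hcyc⟩ := ctrap_cycle hS hE hZ
        obtain ⟨e, heS, hne⟩ : ∃ e ∈ S, n e ≠ 0 := by
          by_contra hcon
          push Not at hcon
          exact hn (hhit n hcyc hcon)
        have hmem := hsub e hne _ (hmid e)
        exact ⟨_, Finset.mem_filter.2 ⟨Finset.mem_image_of_mem _ heS, hZ.sub hmem⟩, hmem⟩)
    refine ⟨G, hG, hGk, hGn.trans ?_⟩
    exact_mod_cast (Finset.card_filter_le _ _).trans Finset.card_image_le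
  rcases (regions (shadow F)).finite_or_infinite with hfin | hinf
  · have hm : (regions (shadow F)).encard ≤ (hfin.toFinset.card : ℕ) := by
      rw [← hfin.encard_eq_coe_toFinset_card]
    obtain ⟨S, hSc, hhit⟩ := exists_hitting (cycles c a b) (cfinrank_cycles_le hF hU hE hm)
    obtain ⟨G, hG, hGk, hGn⟩ := key S hhit
    refine ⟨G, hG, hGk, hGn.trans ?_⟩
    rw [hfin.encard_eq_coe_toFinset_card]
    exact_mod_cast hSc
  · obtain ⟨G, hG, hGk, -⟩ := key Finset.univ
      (fun n _ h0 => funext fun e => h0 e (Finset.mem_univ e))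
    refine ⟨G, hG, hGk, ?_⟩
    rw [hinf.encard_eq]
    exact le_top

theorem ae_births_le_regions (hF : IsSliceDisc F) :
    ∀ᵐ a : Space, ∃ G, MorseDisc G ∧ boundaryKnot G = boundaryKnot F ∧
      (births G).encard ≤ (regions (proj F a)).encard := by
  filter_upwards [ae_umb hF] with a ha
  obtain ⟨G, hG, hGk, hGn⟩ := births_le_regions (isSliceDisc_shear hF (horizVec_three a)) ha
  refine ⟨G, hG, hGk.trans (boundaryKnot_shear hF a), ?_⟩
  rw [shadow_shear] at hGn
  exact hGn

end Pool.Agent.Lib_MP_752436_cu
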