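import Pool.Agent.Lib_MP_752436_cu.Statement
import Pool.Agent.Lib_MP_752436_cu.Main
import Pool.Agent.Lib_MP_752436_cu.CTrapOff
import Pool.Agent.Lib_MP_752436_cu.CFree
import Pool.Agent.Lib_MP_752436_cu.FlipTurn
import Pool.Agent.Lib_MP_752436_ch.Circles

/-!
Piece V6: births and free double curves against chambers in almost every direction.
-/

open MeasureTheory Metric Set Filter
open scoped ContDiff Topology

namespace Pool.Agent.Lib_MP_752436_cu

open Pool.Agent.Lib_MP_752436_gt Pool.Agent.Lib_MP_752436_tp Pool.Agent.Lib_MP_752436_rb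
  Pool.Agent.Lib_MP_752436_ch Pool.Agent.Lib_MP_752436_ts

variable {F : Plane → EuclideanSpace ℝ (Fin 4)}

theorem tilt_eq (F : Plane → EuclideanSpace ℝ (Fin 4)) (a : Space) :
    tilt F a = fun x => shearMap (horizVec a) (F x) := by
  funext x
  rw [shearMap_apply]
  ext i
  fin_cases i
  · rfl
  · rfl
  · rfl
  · show F x 3 = F x 3 + F x 3 * horizVec a 3
    rw [horizVec_three, mul_zero, add_zero]

section Trap

variable {D : Set (Plane × Plane)} {Q Z : Set Plane}

private theorem main2_closed (hS : CStrict D Q) (hZ : CTrap D Q Z) : IsClosed (tcZ D Z) := by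
  have h : tcZ D Z = Z ∪ Prod.fst '' ((D ∪ (fun p => (p, p)) '' Q) ∩ Prod.snd ⁻¹' Z) := by
    ext x
    constructor
    · rintro (hx | ⟨y, hy, hxy⟩)
      · exact Or.inl hx
      · exact Or.inr ⟨(x, y), ⟨Or.inl hxy, hy⟩, rfl⟩
    · rintro (hx | ⟨⟨x', y⟩, ⟨h1 | ⟨p, -, hpe⟩, h2⟩, rfl⟩)
      · exact Or.inl hx
      · exact Or.inr ⟨y, h2, h1⟩
      · have h3 : p = x' := congrArg Prod.fst hpe
        have h4 : p = y := congrArg Prod.snd hpe
        refine Or.inl ?_
        show x' ∈ Z
        rw [← h3, h4]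
        exact h2
  rw [h]
  have h2 : IsClosed (Prod.snd ⁻¹' Z : Set (Plane × Plane)) :=
    hZ.compact.isClosed.preimage continuous_snd
  exact hZ.compact.isClosed.union ((hS.compact.inter_right h2).image continuous_fst).isClosed

private theorem main2_cases (hS : CStrict D Q) (hZ : CTrap D Q Z) {x y : Plane}
    (hxy : (x, y) ∈ D) (hy : y ∈ tcZ D Z) :
    y ∈ interior (tcZ D Z) ∨ ∃ w ∈ Z, (y, w) ∈ D := by
  by_cases h : y ∈ interior (tcZ D Z)
  · exact Or.inl h
  · right
    rcases hy with hy | hy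
    · have h1 : y ∈ frontier Z :=
        ⟨subset_closure hy, fun h2 => h (interior_mono subset_union_left h2)⟩
      rcases hZ.above y h1 with h2 | h2
      · exact absurd h2 (hS.sndQ _ hxy)
      · exact h2
    · exact hy

/-- The edge which starts at a pair over a bottom point of the trap is carried by the trap. -/
private theorem main2_carried (hS : CStrict D Q) {κ : Type} {c : κ → ℝ → Plane × Plane}
    {a b : κ → ℝ} (hE : CEdges c a b D Q) (hZ : CTrap D Q Z) {e : κ} {x y z : Plane}
    (hxy : (x, y) ∈ D) (hyz : (y, z) ∈ D) (hz : z ∈ Z) (he : c e (a e) = (y, z)) :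
    ∀ t ∈ Ioo (a e) (b e), (c e t).2 ∈ tcZ D Z := by
  have hlt := hE.pedges.lt e
  have hcont : Continuous fun t => (c e t).2 :=
    continuous_snd.comp (hE.pedges.smooth e).continuous
  have hzi : z ∈ interior (tcZ D Z) := by
    rcases main2_cases hS hZ hyz (Or.inl hz) with h | ⟨w, -, hw⟩
    · exact h
    · exact absurd hw (hS.noFour _ _ _ _ hxy hyz)
  have hin : ∀ t ∈ Ioo (a e) (b e), (c e t).2 ∈ tcZ D Z →
      (c e t).2 ∈ interior (tcZ D Z) := by
    intro t ht h
    have hD : c e t ∈ D := hE.pedges.inner e t ht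
    rcases main2_cases hS hZ (x := (c e t).1) (y := (c e t).2) hD h with h1 | ⟨w, -, hw⟩
    · exact h1
    · exact absurd ⟨hD, w, Or.inl hw⟩ (hE.novertex e t ht)
  have hu : IsOpen ((fun s => (c e s).2) ⁻¹' interior (tcZ D Z)) :=
    isOpen_interior.preimage hcont
  have hv : IsOpen ((fun s => (c e s).2) ⁻¹' (tcZ D Z)ᶜ) :=
    (main2_closed hS hZ).isOpen_compl.preimage hcont
  by_contra hcon
  push Not at hcon
  obtain ⟨s, hs, hns⟩ := hcon
  have hstart : ∃ t ∈ Ioo (a e) (b e), (c e t).2 ∈ interior (tcZ D Z) := by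
    have h1 : a e ∈ (fun s => (c e s).2) ⁻¹' interior (tcZ D Z) := by
      show (c e (a e)).2 ∈ interior (tcZ D Z)
      rw [he]
      exact hzi
    obtain ⟨ε, hε, hball⟩ := Metric.isOpen_iff.1 hu _ h1
    have h2 : 0 < min (ε / 2) ((b e - a e) / 2) := lt_min (by linarith) (by linarith)
    have h3 := min_le_right (ε / 2) ((b e - a e) / 2)
    have h4 := min_le_left (ε / 2) ((b e - a e) / 2)
    refine ⟨a e + min (ε / 2) ((b e - a e) / 2), ⟨by linarith, by linarith⟩, hball ?_⟩
    rw [mem_ball, Real.dist_eq, add_sub_cancel_left, abs_of_pos h2]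
    linarith
  obtain ⟨t, ht, hti⟩ := hstart
  obtain ⟨r, _, hr1, hr2⟩ := isPreconnected_Ioo _ _ hu hv (by
    intro r hr
    by_cases h : (c e r).2 ∈ tcZ D Z
    · exact Or.inl (hin r hr h)
    · exact Or.inr h) ⟨t, ht, hti⟩ ⟨s, hs, hns⟩
  exact hr2 (interior_subset hr1)

end Trap

private theorem main2_lower (T : Plane → ℝ) (P : Finset Plane) (hT : ∀ p ∈ P, 0 < T p) :
    ∃ η > 0, ∀ p ∈ P, η ≤ T p := by
  classical
  induction P using Finset.induction_on with
  | empty => exact ⟨1, one_pos, fun p hp => absurd hp (Finset.notMem_empty p)⟩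
  | insert p P _ ih =>
    obtain ⟨η, hη, h⟩ := ih fun q hq => hT q (Finset.mem_insert_of_mem hq)
    refine ⟨min η (T p), lt_min hη (hT p (Finset.mem_insert_self p P)), fun q hq => ?_⟩
    rcases Finset.mem_insert.1 hq with rfl | hq
    · exact min_le_right _ _
    · exact (min_le_left _ _).trans (h q hq)

private theorem main2_umb (hU : Umb F) {F1 : Plane → EuclideanSpace ℝ (Fin 4)}
    (hsh : shadow F1 = shadow F) (hD : DoubleSet F1 = DoubleSet F) : Umb F1 where
  gen := by
    rw [hsh]
    exact hU.gen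
  cap := by
    rw [hsh]
    exact hU.cap
  boundary := by
    intro x y h
    rw [hsh]
    rw [hD] at h
    exact hU.boundary x y h
  triple := by
    intro x y z h
    rw [hsh]
    obtain ⟨h1, h2⟩ := h
    rw [hD] at h1 h2
    exact hU.triple x y z ⟨h1, h2⟩

/-- As `ch/Circles` `births_add_circles_le`. Collar `T` (`exists_collar`), `F1 = liftDisc m T` has
the same double set `D`. `CEdges` for `D`; `exists_hitting_off` for `W = cycles c a b`,
`K = {e | emid e ∈ ⋃₀ freeComps D}` and the indicators of the free components gives `S`. Level `s`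
(`exists_goodLevel`) below the values of `T` at both points of `emid e`, `e ∈ S`, and at the
bottom points. `exists_flip_turn` for `F1` gives `z'`, `Φ'`; turned edges, `isCyc_turn`. Hitting
points `P` = lower points of the turned `emid e`, `e ∈ S`; `births_of_lift`. A trap which contains
no point of `P` contains a bottom point `r`, `(y, r)` in `turn D Φ'` is a vertex, the outgoing edge
at `(y, r)` is carried by the trap and not in `K` (`Top` fails); `ctrap_cycle_off`. -/
theorem births_add_free_le (hF : IsSliceDisc F) (hU : Umb F) :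
    ∃ G, MorseDisc G ∧ boundaryKnot G = boundaryKnot F ∧
      (births G).encard + (circles F).encard ≤ (chambers F).encard := by
  classical
  rcases (chambers F).finite_or_infinite with hfin | hinf
  swap
  · obtain ⟨G, hG, hGk, -⟩ := births_le_regions hF hU
    refine ⟨G, hG, hGk, ?_⟩
    rw [hinf.encard_eq]
    exact le_top
  have hm : (regions (shadow F)).encard ≤ (hfin.toFinset.card : ℕ) := by
    rw [← hfin.encard_eq_coe_toFinset_card]
    exact le_rfl
  have hS := cstrict_doubleSet hF hU
  obtain ⟨κ0, hκ0, c0, a0, b0, hP0⟩ := exists_pedges hF hU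
  obtain ⟨κ, hκ, c, a, b, hE⟩ := exists_cedges (finite_vertices_umb hF hU)
    (fun p _ => hS.irrefl p) hP0
  have hmid : ∀ e, (a e + b e) / 2 ∈ Ioo (a e) (b e) := by
    intro e
    have h1 := hE.pedges.lt e
    constructor <;> linarith
  have hab : ∀ e, a e ∈ Icc (a e) (b e) := fun e => ⟨le_rfl, (hE.pedges.lt e).le⟩
  have hba : ∀ e, b e ∈ Icc (a e) (b e) := fun e => ⟨(hE.pedges.lt e).le, le_rfl⟩
  have hmI : ∀ e, (a e + b e) / 2 ∈ Icc (a e) (b e) := fun e => Ioo_subset_Icc_self (hmid e)
  have hrank := cfinrank_cycles_le hF hU hE hm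
  -- the cycles of the free curves
  have hAc : freeComps (DoubleSet F) ⊆ comps (DoubleSet F) := fun C hC => hC.1
  have hAfin : (freeComps (DoubleSet F)).Finite := (finite_comps_cedges hE.pedges).subset hAc
  have : Fintype (freeComps (DoubleSet F)) := hAfin.fintype
  set K : Set κ := {e | emid c a b e ∈ ⋃₀ freeComps (DoubleSet F)} with hK
  obtain ⟨S, hScard, hShit⟩ := exists_hitting_off (cycles c a b) K
    (fun C : freeComps (DoubleSet F) => fun e => if emid c a b e ∈ C.1 then (1 : ℝ) else 0)
    (fun C => cisCyc_indicator hE (hAc C.2) fun p hp => (C.2.2 p hp).1)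
    (clinearIndependent_indicator hE hAc)
    (by
      intro C e he
      exact if_neg fun h => he ⟨C.1, C.2, h⟩)
  have hcirc : (circles F).encard = (Fintype.card (freeComps (DoubleSet F)) : ℕ) := by
    rw [circles_eq, ← Set.coe_fintypeCard]
  -- the collar
  obtain ⟨T, hET, hT0, hT1, hTo, r, hr, hTr⟩ := exists_collar hF hU.cap
  have hF1 : IsSliceDisc (liftDisc (shadow F) T) := isSliceDisc_liftDisc hET hT0 hT1
  set F1 : Plane → EuclideanSpace ℝ (Fin 4) := liftDisc (shadow F) T with hF1def
  have h3 : ∀ x, F1 x 3 = T x := fun x => rfl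
  have h3' : (fun y => F1 y 3) = T := rfl
  have hsh : shadow F1 = shadow F := shadow_liftDisc _ _
  have hD1 : DoubleSet F1 = DoubleSet F := by
    ext p
    constructor
    · rintro ⟨h1, h2, h4, h5⟩
      rw [hsh] at h4
      exact ⟨h1, h2, h4, (hTo _ h1 _ h2 h4).1 h5⟩
    · rintro ⟨h1, h2, h4, h5⟩
      refine ⟨h1, h2, ?_, (hTo _ h1 _ h2 h4).2 h5⟩
      rw [hsh]
      exact h4
  have hU1 : Umb F1 := main2_umb hU hsh hD1
  have hcaps : caps F1 = caps F := by
    unfold caps
    rw [hsh]
  obtain ⟨v, Φ, hΦ⟩ := exists_cutFlow (emb_shadow hF1).smm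
  -- a positive lower bound of the height away from the circle
  obtain ⟨δ, hδ, hδr⟩ : ∃ δ > 0, ∀ x, ‖x‖ ≤ r → δ ≤ T x := by
    rcases (closedBall (0 : Plane) r).eq_empty_or_nonempty with he | hne
    · refine ⟨1, one_pos, fun x hx => ?_⟩
      have h1 : x ∈ closedBall (0 : Plane) r := mem_closedBall_zero_iff.2 hx
      rw [he] at h1
      exact absurd h1 (notMem_empty x)
    · obtain ⟨w, hw, hmin⟩ := (isCompact_closedBall (0 : Plane) r).exists_isMinOn hne
        hET.smz.continuous.continuousOn
      refine ⟨T w, hT1 w (mem_ball_zero_iff.2 ((mem_closedBall_zero_iff.1 hw).trans_lt hr)),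
        fun x hx => hmin (mem_closedBall_zero_iff.2 hx)⟩
  -- the points in the middle of the edges of `S`
  obtain ⟨η, hη, hηT⟩ := main2_lower T
    ((S.image (fun e => (emid c a b e).1) ∪ S.image (fun e => (emid c a b e).2)).filter
      fun p => p ∈ ball (0 : Plane) 1)
    (fun p hp => hT1 p (Finset.mem_filter.1 hp).2)
  have hη1 : ∀ e ∈ S, (emid c a b e).1 ∈ ball (0 : Plane) 1 → η ≤ T (emid c a b e).1 :=
    fun e he hb => hηT _ (Finset.mem_filter.2
      ⟨Finset.mem_union_left _ (Finset.mem_image_of_mem _ he), hb⟩)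
  have hη2 : ∀ e ∈ S, (emid c a b e).2 ∈ ball (0 : Plane) 1 → η ≤ T (emid c a b e).2 :=
    fun e he hb => hηT _ (Finset.mem_filter.2
      ⟨Finset.mem_union_right _ (Finset.mem_image_of_mem _ he), hb⟩)
  have hmin0 : 0 < min δ η := lt_min hδ hη
  obtain ⟨s, hs1, hs2, -, hfree⟩ := exists_goodLevel hF1 hU1.gen hΦ (u0 := min δ η / 3)
    (u1 := min δ η / 2) (by linarith) (by linarith) (Bad := ∅) finite_empty
  have hs0 : 0 < s := by linarith
  have hsδ : s < δ := by
    have := min_le_left δ η
    linarith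
  have hsη : s < η := by
    have := min_le_right δ η
    linarith
  have hlow : ∀ x ∈ closedBall (0 : Plane) 1, T x ≤ s → fderiv ℝ T x ≠ 0 := by
    intro x hx hxs
    refine hTr x hx ?_
    by_contra hcon
    push Not at hcon
    have := hδr x hcon
    linarith
  -- the flips
  obtain ⟨z', Φ', hEz, hle, hC, hTn, hover, hbot⟩ := exists_flip_turn hF1 hU1 hs0 hΦ hfree
  rw [hD1, hcaps] at hTn
  rw [hD1] at hover
  have hS' : CStrict (turn (DoubleSet F) Φ') (caps F) := cstrict_turn hS hTn
  have hreg2 : ∀ e, c e (a e) ∈ Φ' → ∀ t ∈ Icc (a e) (b e),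
      deriv (fun s => (c e s).2) t ≠ 0 := by
    intro e he
    refine cregular_snd hF hU hE fun t ht => hTn.sub ?_
    exact (mem_turned_iff hS hTn hE.pedges (hab e) ht).1 he
  have hE' := cedges_turn hS hTn hE hreg2
  have hpos : ∀ e t, c e (a e) ∈ Φ' → turnEdge Φ' c a e t = (c e t).swap := by
    intro e t h
    simp only [turnEdge, if_pos h]
  have hneg : ∀ e t, c e (a e) ∉ Φ' → turnEdge Φ' c a e t = c e t := by
    intro e t h
    simp only [turnEdge, if_neg h]
  -- pairs of the turned double set on edges which are not turned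
  have hmemD : ∀ e t, c e (a e) ∉ Φ' → turnEdge Φ' c a e t ∈ turn (DoubleSet F) Φ' →
      t ∈ Icc (a e) (b e) → c e t ∈ DoubleSet F ∧ c e t ∉ Φ' := by
    intro e t he ht htI
    rw [hneg e t he] at ht
    rcases ht with h | h
    · exact h
    · exfalso
      rcases htI.1.eq_or_lt with h1 | h1
      · rw [← h1] at h
        rcases hE.pedges.left e with h2 | ⟨p, hp, h2⟩
        · have h4 : (c e (a e)).swap ∈ DoubleSet F := hTn.sub h
          exact hS.irrefl _ (hS.trans (c e (a e)).1 (c e (a e)).2 (c e (a e)).1 h2 h4)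
        · rw [h2] at h
          exact hS.irrefl p (hTn.sub h)
      · rcases htI.2.eq_or_lt with h5 | h5
        · rw [h5] at h
          rcases hE.pedges.right e with h2 | ⟨p, hp, h2⟩
          · have h4 : (c e (b e)).swap ∈ DoubleSet F := hTn.sub h
            exact hS.irrefl _ (hS.trans (c e (b e)).1 (c e (b e)).2 (c e (b e)).1 h2 h4)
          · rw [h2] at h
            exact hS.irrefl p (hTn.sub h)
        · have h2 := hE.pedges.inner e t ⟨h1, h5⟩
          have h4 : (c e t).swap ∈ DoubleSet F := hTn.sub h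
          exact hS.irrefl _ (hS.trans (c e t).1 (c e t).2 (c e t).1 h2 h4)
  have hKiff : ∀ e e', turnEdge Φ' c a e (b e) ∈ turn (DoubleSet F) Φ' →
      turnEdge Φ' c a e (b e) = turnEdge Φ' c a e' (a e') → (e ∈ K ↔ e' ∈ K) := by
    intro e e' hb heq
    -- the ends are the same pair of the double set
    have key : c e (b e) ∈ DoubleSet F ∧ c e (b e) = c e' (a e') := by
      by_cases h : c e (a e) ∈ Φ'
      · have h1 : c e (b e) ∈ Φ' := (mem_turned_iff hS hTn hE.pedges (hab e) (hba e)).1 h
        by_cases h' : c e' (a e') ∈ Φ'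
        · rw [hpos e _ h, hpos e' _ h'] at heq
          exact ⟨hTn.sub h1, Prod.swap_injective heq⟩
        · exfalso
          rw [heq] at hb
          have h2 := (hmemD e' (a e') h' hb (hab e')).1
          rw [hpos e _ h, hneg e' _ h'] at heq
          rw [← heq] at h2
          exact hS.irrefl _ (hS.trans (c e (b e)).1 (c e (b e)).2 (c e (b e)).1 (hTn.sub h1) h2)
      · have h1 := (hmemD e (b e) h hb (hba e)).1
        by_cases h' : c e' (a e') ∈ Φ'
        · exfalso
          rw [hneg e _ h, hpos e' _ h'] at heq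
          rw [heq] at h1
          exact hS.irrefl _ (hS.trans (c e' (a e')).1 (c e' (a e')).2 (c e' (a e')).1
            (hTn.sub h') h1)
        · rw [hneg e _ h, hneg e' _ h'] at heq
          exact ⟨h1, heq⟩
    obtain ⟨hD, hce⟩ := key
    constructor
    · rintro ⟨C, hC, h⟩
      refine ⟨C, hC, (mem_comp_iff hE.pedges (hAc hC) (hab e') (hce ▸ hD)).1 ?_⟩
      rw [← hce]
      exact (mem_comp_iff hE.pedges (hAc hC) (hba e) hD).2 h
    · rintro ⟨C, hC, h⟩
      refine ⟨C, hC, (mem_comp_iff hE.pedges (hAc hC) (hba e) hD).1 ?_⟩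
      rw [hce]
      exact (mem_comp_iff hE.pedges (hAc hC) (hab e') (hce ▸ hD)).2 h
  have htopK : ∀ e ∈ K, turnEdge Φ' c a e (a e) ∈ turn (DoubleSet F) Φ' →
      Top (turn (DoubleSet F) Φ') (turnEdge Φ' c a e (a e)) := by
    rintro e ⟨C, hC, h⟩ hD
    by_cases he : c e (a e) ∈ Φ'
    · rw [hpos e _ he]
      exact ctop_turn_swap hS hTn he
    · obtain ⟨h1, h2⟩ := hmemD e (a e) he hD (hab e)
      rw [hneg e _ he]
      refine (ctop_turn hS hTn h1 h2).2 ?_
      exact (hC.2 _ ((mem_comp_iff hE.pedges (hAc hC) (hab e) h1).2 h)).2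
  -- the hitting points
  set P : Finset Plane := (S.image (fun e => (turnEdge Φ' c a e ((a e + b e) / 2)).2)).filter
    (fun p => p ∈ ball (0 : Plane) 1) with hPdef
  have hPS : ∀ p ∈ P, p ∈ ball (0 : Plane) 1 ∧
      ∃ e ∈ S, (turnEdge Φ' c a e ((a e + b e) / 2)).2 = p := by
    intro p hp
    obtain ⟨h1, h2⟩ := Finset.mem_filter.1 hp
    exact ⟨h2, Finset.mem_image.1 h1⟩
  obtain ⟨G, hG, hGk, hGn⟩ := births_of_lift hF1 hU1.gen hs0
    (fun x hx hxs => hlow x hx (le_of_eq hxs)) hEz hle hC P
    (by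
      intro p hp
      obtain ⟨hb, e, he, hpe⟩ := hPS p hp
      refine ⟨hb, ?_⟩
      show s < T p
      by_cases h : c e (a e) ∈ Φ'
      · rw [hpos e _ h] at hpe
        have h4 : (emid c a b e).1 = p := hpe
        have h5 := hη1 e he (h4 ▸ hb)
        rw [h4] at h5
        linarith
      · rw [hneg e _ h] at hpe
        have h4 : (emid c a b e).2 = p := hpe
        have h5 := hη2 e he (h4 ▸ hb)
        rw [h4] at h5
        linarith)
    (by
      intro p hp
      obtain ⟨hb, e, he, rfl⟩ := hPS p hp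
      have h1 := hS'.sndQ _ (hE'.pedges.inner e _ (hmid e))
      rw [hsh]
      by_contra h2
      exact h1 ⟨ball_subset_closedBall hb, h2⟩)
    (by
      intro p hp y hy
      obtain ⟨hb, e, he, rfl⟩ := hPS p hp
      exact hE'.novertex e _ (hmid e)
        ⟨hE'.pedges.inner e _ (hmid e), y, Or.inl ((hover _).1 hy)⟩)
    (by
      intro Z hZ
      obtain ⟨q0, hq0, p1, p2, hp1, hp2⟩ := hbot Z hZ
      have hR := region_sub (F := F1) s
      have hD1' : (p1, p2) ∈ turn (DoubleSet F) Φ' := (hover _).1 (Over.mono hR hp1)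
      have hD2' : (p2, q0) ∈ turn (DoubleSet F) Φ' := (hover _).1 (Over.mono hR hp2)
      have hZc : CTrap (turn (DoubleSet F) Φ') (caps F) Z := by
        refine ⟨hZ.compact, hZ.nonempty, hZ.sub.trans (region_height hF1 hs0).sub, ?_, ?_⟩
        · intro x hx
          by_cases hi : Function.Injective (fderiv ℝ (shadow F1) x)
          · obtain ⟨y, hy, hxy⟩ := hZ.above x hx hi
            exact Or.inr ⟨y, hy, (hover _).1 (Over.mono hR hxy)⟩
          · refine Or.inl ⟨?_, ?_⟩
            · have h1 : x ∈ Z := hZ.compact.isClosed.frontier_subset hx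
              exact hR (hZ.sub h1)
            · rw [← hsh]
              exact hi
        · intro x hx hxc
          refine hZ.cap x hx ?_
          rw [hsh]
          exact hxc.2
      have hqb : q0 ∈ ball (0 : Plane) 1 := hZc.sub hq0
      -- the outgoing edge
      have hvert : (p2, q0) ∈ vertices (turn (DoubleSet F) Φ') :=
        ⟨hD2', p1, Or.inr (Or.inl hD1')⟩
      obtain ⟨e0, he0⟩ := hE'.pedges.out (p2, q0) hD2' hqb (by
        intro e t ht h
        exact hE'.novertex e t ht (h ▸ hvert))
      have hcar := main2_carried hS' hE' hZc hD1' hD2' hq0 he0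
      have hnK : e0 ∉ K := by
        intro hk
        have h1 := htopK e0 hk (by rw [he0]; exact hD2')
        rw [he0] at h1
        exact (h1 p1).1 hD1'
      obtain ⟨n, hn, hsub, hcyc⟩ := ctrap_cycle_off hS' hE' hZc K hKiff htopK ⟨e0, hnK, hcar⟩
      obtain ⟨e, heS, hne⟩ : ∃ e ∈ S, n e ≠ 0 := by
        by_contra hcon
        push Not at hcon
        have h1 : ∀ e ∉ K, (if c e (a e) ∈ Φ' then - n e else n e) = 0 :=
          hShit _ ((isCyc_turn n).1 hcyc) (fun e he => by
            rw [hcon e he, neg_zero, ite_self])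
        apply hn
        funext e
        by_contra h2
        have h4 := h1 e (hsub e h2).1
        split_ifs at h4
        · exact h2 (neg_eq_zero.1 h4)
        · exact h2 h4
      have hmem := (hsub e hne).2 _ (hmid e)
      exact ⟨_, Finset.mem_filter.2 ⟨Finset.mem_image_of_mem _ heS, hZc.sub hmem⟩, hmem⟩)
    ∅ (fun p hp => absurd hp (Finset.notMem_empty p))
    (fun x hx hxs h0 => absurd h0 (hlow x hx hxs))
  refine ⟨G, hG, ?_, ?_⟩
  · rw [hGk, boundaryKnot_liftDisc]
    rfl
  · rw [Finset.card_empty, Nat.cast_zero, zero_add] at hGn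
    have h1 : P.card ≤ S.card := (Finset.card_filter_le _ _).trans Finset.card_image_le
    have h2 : P.card + Fintype.card (freeComps (DoubleSet F)) ≤ hfin.toFinset.card := by omega
    calc (births G).encard + (circles F).encard
        ≤ (P.card : ℕ∞) + (Fintype.card (freeComps (DoubleSet F)) : ℕ) := by
          rw [hcirc]
          exact add_le_add hGn le_rfl
      _ = ((P.card + Fintype.card (freeComps (DoubleSet F)) : ℕ) : ℕ∞) := by push_cast; rfl
      _ ≤ (hfin.toFinset.card : ℕ) := by exact_mod_cast h2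
      _ = (chambers F).encard := by rw [← hfin.encard_eq_coe_toFinset_card]

theorem ae_births_add_free_le (hF : IsSliceDisc F) :
    ∀ᵐ a : Space, ∃ G, MorseDisc G ∧ boundaryKnot G = boundaryKnot F ∧
      (births G).encard + (circles (tilt F a)).encard ≤ (chambers (tilt F a)).encard := by
  filter_upwards [ae_umb hF] with a ha
  obtain ⟨G, hG, hGk, hGn⟩ :=
    births_add_free_le (isSliceDisc_shear hF (horizVec_three a)) ha
  refine ⟨G, hG, hGk.trans (boundaryKnot_shear hF a), ?_⟩
  rw [tilt_eq]
  exact hGn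

end Pool.Agent.Lib_MP_752436_cu
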