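import Pool.Agent.Lib_MP_752436_tp.Defs

/-!
Chambers of arbitrary projections of slice discs: the tilted disc.
-/

namespace Pool.Agent.Lib_MP_752436_cu

open Pool.Agent.Lib_MP_752436_gt Pool.Agent.Lib_MP_752436_tp

/-- The image of the disc `F` under the shear `(X, t) ↦ (X + t a, t)`: its projection to `R^3` is
the projection of `F` along the direction `(- a, 1)`. -/
noncomputable def tilt (F : Plane → EuclideanSpace ℝ (Fin 4)) (a : Space) :
    Plane → EuclideanSpace ℝ (Fin 4) :=
  fun x => !₂[F x 0 + F x 3 * a 0, F x 1 + F x 3 * a 1, F x 2 + F x 3 * a 2, F x 3]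

end Pool.Agent.Lib_MP_752436_cu
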