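import Pool.Agent.Lib_MP_752436_cu.Defs

/-!
Piece U14: almost every projection is generic.
-/

open MeasureTheory Metric Set Filter Module
open scoped ContDiff Topology

namespace Pool.Agent.Lib_MP_752436_cu

open Pool.Agent.Lib_MP_752436_gt Pool.Agent.Lib_MP_752436_tp Pool.Agent.Lib_MP_752436_rb
  Pool.Agent.Lib_MP_752436_ch Pool.Agent.Lib_MP_752436_ts

variable {F : Plane → EuclideanSpace ℝ (Fin 4)}

/-- The unit circle. -/
private noncomputable def UmbAE_circ (θ : ℝ) : Plane := !₂[Real.cos θ, Real.sin θ]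

/-- The tangent vector of the unit circle. -/
private noncomputable def UmbAE_tan (θ : ℝ) : Plane := !₂[-Real.sin θ, Real.cos θ]

private theorem UmbAE_contDiff_circ : ContDiff ℝ ∞ UmbAE_circ := by
  rw [contDiff_euclidean]
  intro i
  fin_cases i
  · exact Real.contDiff_cos
  · exact Real.contDiff_sin

private theorem UmbAE_hasDerivAt_circ (θ : ℝ) : HasDerivAt UmbAE_circ (UmbAE_tan θ) θ := by
  have h1 : HasDerivAt UmbAE_circ (deriv UmbAE_circ θ) θ :=
    (UmbAE_contDiff_circ.differentiable (by simp) θ).hasDerivAt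
  have h2 : deriv UmbAE_circ θ = UmbAE_tan θ := by
    have hc : ∀ i, (deriv UmbAE_circ θ) i = deriv (fun t => UmbAE_circ t i) θ := by
      intro i
      have h3 : HasDerivAt (fun t => UmbAE_circ t i) (deriv UmbAE_circ θ i) θ :=
        (EuclideanSpace.proj (𝕜 := ℝ) i).hasFDerivAt.comp_hasDerivAt θ h1
      exact h3.deriv.symm
    ext i
    rw [hc i]
    fin_cases i
    · exact (Real.hasDerivAt_cos θ).deriv
    · exact (Real.hasDerivAt_sin θ).deriv
  rw [← h2]
  exact h1

private theorem UmbAE_exists_angle {y : Plane} (hy : y ∈ sphere (0 : Plane) 1) :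
    ∃ θ : ℝ, y = UmbAE_circ θ := by
  have hx1 : y 0 ^ 2 + y 1 ^ 2 = 1 := by
    have h1 : ‖y‖ ^ 2 = y 0 ^ 2 + y 1 ^ 2 := by
      rw [EuclideanSpace.real_norm_sq_eq, Fin.sum_univ_two]
    rw [← h1, mem_sphere_zero_iff_norm.mp hy, one_pow]
  set z : ℂ := ⟨y 0, y 1⟩ with hz
  have hz1 : ‖z‖ = 1 := by
    rw [← sq_eq_sq₀ (norm_nonneg _) zero_le_one, Complex.sq_norm, Complex.normSq_apply]
    simp only [hz]
    nlinarith
  have hz0 : z ≠ 0 := by
    rw [← norm_ne_zero_iff, hz1]
    exact one_ne_zero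
  refine ⟨Complex.arg z, ?_⟩
  rw [UmbAE_circ, Complex.cos_arg hz0, Complex.sin_arg, hz1, div_one, div_one]
  ext i
  fin_cases i <;> simp [hz]

/-- A vector orthogonal to a point of the circle is a multiple of the tangent vector. -/
private theorem UmbAE_eq_smul_tan (θ : ℝ) {w : Plane} (h : inner ℝ (UmbAE_circ θ) w = 0) :
    w = (-(w 0) * Real.sin θ + w 1 * Real.cos θ) • UmbAE_tan θ := by
  have h1 : w 0 * Real.cos θ + w 1 * Real.sin θ = 0 := by
    rw [PiLp.inner_apply, Fin.sum_univ_two] at h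
    simpa [UmbAE_circ] using h
  have h2 := Real.sin_sq_add_cos_sq θ
  ext i
  fin_cases i
  · change w 0 = (-(w 0) * Real.sin θ + w 1 * Real.cos θ) * (-Real.sin θ)
    linear_combination (-(w 0)) * h2 + Real.cos θ * h1
  · change w 1 = (-(w 0) * Real.sin θ + w 1 * Real.cos θ) * Real.cos θ
    linear_combination (-(w 1)) * h2 + Real.sin θ * h1

/-- The pair `(x, cos θ, sin θ)`. -/
private noncomputable def UmbAE_pair (p : Plane × ℝ) : Plane × Plane := (p.1, UmbAE_circ p.2)

private theorem UmbAE_contDiff_pair : ContDiff ℝ ∞ UmbAE_pair :=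
  contDiff_fst.prodMk (UmbAE_contDiff_circ.comp contDiff_snd)

private theorem UmbAE_fderiv_pair (p : Plane × ℝ) (u : Plane) (s : ℝ) :
    fderiv ℝ UmbAE_pair p (u, s) = (u, s • UmbAE_tan p.2) := by
  have h1 : HasFDerivAt (fun q : Plane × ℝ => q.1) (ContinuousLinearMap.fst ℝ Plane ℝ) p :=
    hasFDerivAt_fst
  have h2 : HasFDerivAt (fun q : Plane × ℝ => UmbAE_circ q.2)
      (((ContinuousLinearMap.smulRight (1 : ℝ →L[ℝ] ℝ) (UmbAE_tan p.2))).comp
        (ContinuousLinearMap.snd ℝ Plane ℝ)) p :=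
    (UmbAE_hasDerivAt_circ p.2).hasFDerivAt.comp p hasFDerivAt_snd
  have h3 : fderiv ℝ UmbAE_pair p = _ := (h1.prodMk h2).fderiv
  rw [h3]
  simp

/-- The parameter of the projection which identifies `x` and a point of the circle. -/
private noncomputable def UmbAE_A (F : Plane → EuclideanSpace ℝ (Fin 4)) : Plane × ℝ → Space :=
  fun p => pm F (UmbAE_pair p)

private theorem UmbAE_contDiffAt_A (hF : ContDiff ℝ ∞ F) {p : Plane × ℝ}
    (h : F p.1 3 ≠ F (UmbAE_circ p.2) 3) : ContDiffAt ℝ ∞ (UmbAE_A F) p :=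
  (contDiffAt_pm hF (p := UmbAE_pair p) h).comp p UmbAE_contDiff_pair.contDiffAt

/-- `A (x, θ) = pm F x (cos θ, sin θ)` is a smooth map of an open subset of `Plane × ℝ` to `R^3`
(equal dimensions, `sard_equal`); for a regular value `a` the derivative of `A`, which is
`k (df_a (x) u - θ' df_a (y) (J y))`, is onto, so injective (`fderiv_pm`). -/
theorem ae_boundary (hF : IsSliceDisc F) :
    ∀ᵐ a : Space, ∀ x ∈ closedBall (0 : Plane) 1, ∀ y ∈ sphere (0 : Plane) 1, x ≠ y →
      proj F a x = proj F a y → ∀ u w, inner ℝ y w = 0 →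
      fderiv ℝ (proj F a) x u = fderiv ℝ (proj F a) y w → w = 0 := by
  have hs := hF.smooth
  have h1 : volume ((UmbAE_A F) '' {p : Plane × ℝ |
      F p.1 3 ≠ F (UmbAE_circ p.2) 3 ∧
      ¬ Function.Surjective (fderiv ℝ (UmbAE_A F) p)}) = 0 := by
    refine sard_equal volume (by simp) ?_ ?_
    · rintro p ⟨hp, -⟩
      exact (UmbAE_contDiffAt_A hs hp).differentiableAt (by simp)
    · rintro p ⟨-, hp⟩
      exact hp
  have hae : ∀ᵐ a : Space, a ∉ (UmbAE_A F) '' {p : Plane × ℝ |
      F p.1 3 ≠ F (UmbAE_circ p.2) 3 ∧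
      ¬ Function.Surjective (fderiv ℝ (UmbAE_A F) p)} :=
    measure_eq_zero_iff_ae_notMem.1 h1
  filter_upwards [hae] with a ha x hx y hy hne hxy u w hyw huw
  have hh : F x 3 ≠ F y 3 := height_ne_of_proj hF hx (sphere_subset_closedBall hy) hne hxy
  have hpm : pm F (x, y) = a := (proj_eq_iff hh).1 hxy
  obtain ⟨θ, rfl⟩ := UmbAE_exists_angle hy
  have hsurj : Function.Surjective (fderiv ℝ (UmbAE_A F) (x, θ)) := by
    by_contra hn
    exact ha ⟨(x, θ), ⟨hh, hn⟩, hpm⟩
  have hinj : Function.Injective (fderiv ℝ (UmbAE_A F) (x, θ)) := by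
    have hd : finrank ℝ (Plane × ℝ) = finrank ℝ Space := by simp
    exact (LinearMap.injective_iff_surjective_of_finrank_eq_finrank
      (f := (fderiv ℝ (UmbAE_A F) (x, θ) : Plane × ℝ →ₗ[ℝ] Space)) hd).2 hsurj
  set s : ℝ := -(w 0) * Real.sin θ + w 1 * Real.cos θ with hsdef
  have hw : w = s • UmbAE_tan θ := UmbAE_eq_smul_tan θ hyw
  have hcomp : fderiv ℝ (UmbAE_A F) (x, θ) (u, s) = 0 := by
    have h2 : HasFDerivAt (UmbAE_A F)
        ((fderiv ℝ (pm F) (x, UmbAE_circ θ)).comp (fderiv ℝ UmbAE_pair (x, θ))) (x, θ) := by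
      have h3 : HasFDerivAt (pm F) (fderiv ℝ (pm F) (x, UmbAE_circ θ)) (UmbAE_pair (x, θ)) :=
        ((contDiffAt_pm hs (p := (x, UmbAE_circ θ)) hh).differentiableAt (by simp)).hasFDerivAt
      exact h3.comp (x, θ) (UmbAE_contDiff_pair.differentiable (by simp) (x, θ)).hasFDerivAt
    rw [h2.fderiv, ContinuousLinearMap.comp_apply, UmbAE_fderiv_pair]
    change fderiv ℝ (pm F) (x, UmbAE_circ θ) (u, s • UmbAE_tan θ) = 0
    rw [← hw, fderiv_pm hs hh, hpm, huw, sub_self, smul_zero]
  have h0 : ((u, s) : Plane × ℝ) = 0 := hinj (by rw [hcomp, map_zero])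
  have hs0 : s = 0 := congrArg Prod.snd h0
  rw [hw, hs0, zero_smul]

/-- A regular triple is transverse. -/
private theorem UmbAE_triple {A B C : Plane →L[ℝ] Space}
    (h : ∀ v v', ∃ u₁ u₂ u₃, B u₂ - A u₁ = v ∧ C u₃ - A u₁ = v') {u v w : Plane}
    (h1 : A u = B v) (h2 : B v = C w) : u = 0 := by
  set T : Plane × (Plane × Plane) →ₗ[ℝ] Space × Space :=
    { toFun := fun p => (B p.2.1 - A p.1, C p.2.2 - A p.1)
      map_add' := fun p q => by
        ext1
        · simp only [Prod.fst_add, Prod.snd_add, map_add]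
          abel
        · simp only [Prod.fst_add, Prod.snd_add, map_add]
          abel
      map_smul' := fun c p => by
        ext1
        · simp only [Prod.smul_fst, Prod.smul_snd, map_smul, RingHom.id_apply, smul_sub]
        · simp only [Prod.smul_fst, Prod.smul_snd, map_smul, RingHom.id_apply, smul_sub] } with hT
  have hd : finrank ℝ (Plane × (Plane × Plane)) = finrank ℝ (Space × Space) := by
    simp
  have hsurj : Function.Surjective T := by
    rintro ⟨a, b⟩
    obtain ⟨u₁, u₂, u₃, e1, e2⟩ := h a b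
    exact ⟨(u₁, (u₂, u₃)), Prod.ext e1 e2⟩
  have hinj : Function.Injective T :=
    (LinearMap.injective_iff_surjective_of_finrank_eq_finrank hd).2 hsurj
  have h3 : T (u, (v, w)) = 0 :=
    Prod.ext (sub_eq_zero.2 h1.symm) (sub_eq_zero.2 (h1.trans h2).symm)
  have h4 : ((u, (v, w)) : Plane × (Plane × Plane)) = 0 := hinj (by rw [h3, map_zero])
  exact congrArg Prod.fst h4

/-- From `ae_gen`, `ae_boundary`, `ae_tripleReg` (a regular triple is transverse: if
`df x u = df y v = df z w` then `u = 0`). -/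
theorem ae_umb (hF : IsSliceDisc F) :
    ∀ᵐ a : Space, Umb (fun x => shearMap (horizVec a) (F x)) := by
  filter_upwards [ae_gen hF, ae_boundary hF, ae_tripleReg hF] with a h1 h2 h3
  have hsh : shadow (fun x => shearMap (horizVec a) (F x)) = proj F a := shadow_shear F a
  have hpair : ∀ x y, (x, y) ∈ DoubleSet (fun x => shearMap (horizVec a) (F x)) →
      x ∈ closedBall (0 : Plane) 1 ∧ y ∈ closedBall (0 : Plane) 1 ∧ proj F a x = proj F a y ∧
        F y 3 < F x 3 := by
    intro x y hxy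
    refine ⟨hxy.1, hxy.2.1, ?_, ?_⟩
    · have h4 := hxy.2.2.1
      rw [hsh] at h4
      exact h4
    · have h4 := hxy.2.2.2
      simp only [shear_three] at h4
      exact h4
  refine ⟨?_, ?_, ?_, ?_⟩
  · rw [hsh]
    exact h1.1
  · rw [hsh]
    exact h1.2
  · rw [hsh]
    intro x y hxy hy u w hyw huw
    obtain ⟨hx, -, he, hlt⟩ := hpair x y hxy
    have hne : x ≠ y := fun h => by
      rw [h] at hlt
      exact lt_irrefl _ hlt
    exact h2 x hx y hy hne he u w hyw huw
  · rw [hsh]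
    rintro x y z ⟨hxy, hyz⟩ u v w e1 e2
    obtain ⟨hx, hy, he, hlt⟩ := hpair x y hxy
    obtain ⟨-, hz, he', hlt'⟩ := hpair y z hyz
    have hxney : x ≠ y := fun h => by
      rw [h] at hlt
      exact lt_irrefl _ hlt
    have hynez : y ≠ z := fun h => by
      rw [h] at hlt'
      exact lt_irrefl _ hlt'
    have hxnez : x ≠ z := fun h => by
      rw [h] at hlt
      exact lt_asymm hlt hlt'
    exact UmbAE_triple (h3 x hx y hy z hz hxney hxnez hynez he (he.trans he')) e1 e2

end Pool.Agent.Lib_MP_752436_cu
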